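import Pool.Agent.Helper68.FTBasic

/-!
# Upper bounds for the number of edges of fault tolerant graphs
-/

namespace Pool.Agent.Helper68

section conn

variable {V : Type} {G : SimpleGraph V}

/-- a walk of length at most `m` from `u` to `v` avoiding `S` -/
def Conn (G : SimpleGraph V) (S : Finset V) (m : ℕ) (u v : V) : Prop :=
  ∃ ℓ ≤ m, ∃ p, PathAvoid G S ℓ p u v

theorem Conn.refl {S : Finset V} {u : V} (hu : u ∉ S) : Conn G S 0 u u :=
  ⟨0, le_refl _, fun _ => u, rfl, rfl, fun i hi => absurd hi (Nat.not_lt_zero i), fun _ _ => hu⟩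

theorem Conn.mono {S : Finset V} {u v : V} {m m' : ℕ} (h : Conn G S m u v) (hm : m ≤ m') :
    Conn G S m' u v := by
  obtain ⟨ℓ, hℓ, p, hp⟩ := h
  exact ⟨ℓ, hℓ.trans hm, p, hp⟩

theorem Conn.cons {S : Finset V} {u w v : V} {m : ℕ} (h : Conn G S m w v) (hu : u ∉ S)
    (huw : u = w ∨ G.Adj u w) : Conn G S (m + 1) u v := by
  rcases huw with rfl | huw
  · exact h.mono (Nat.le_succ m)
  · obtain ⟨ℓ, hℓ, p, h0, h1, h2, h3⟩ := h
    refine ⟨ℓ + 1, by omega, fun i => if i = 0 then u else p (i - 1), ?_, ?_, ?_, ?_⟩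
    · simp
    · simp [h1]
    · intro i hi
      rcases Nat.eq_zero_or_pos i with h4 | h4
      · subst h4
        simpa [h0] using huw
      · have h5 : i ≠ 0 := by omega
        have h6 : i + 1 ≠ 0 := by omega
        simp only [h5, h6, if_false]
        have := h2 (i - 1) (by omega)
        have h7 : i - 1 + 1 = i + 1 - 1 := by omega
        rw [h7] at this
        exact this
    · intro i hi
      rcases Nat.eq_zero_or_pos i with h4 | h4
      · subst h4
        simpa using hu
      · have h5 : i ≠ 0 := by omega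
        simp only [h5, if_false]
        exact h3 _ (by omega)

theorem edist_le_of_path {W : Type} {G : SimpleGraph W} : ∀ (ℓ : ℕ) (p : ℕ → W),
    (∀ i < ℓ, G.Adj (p i) (p (i + 1))) → G.edist (p 0) (p ℓ) ≤ (ℓ : ℕ∞) := by
  intro ℓ
  induction ℓ with
  | zero => intro p _; simp
  | succ ℓ ih =>
    intro p hp
    refine (SimpleGraph.edist_triangle (v := p ℓ)).trans ?_
    rw [Nat.cast_add, Nat.cast_one]
    refine add_le_add (ih p (fun i hi => hp i (by omega))) ?_
    exact (SimpleGraph.edist_eq_one_iff_adj.mpr (hp ℓ (by omega))).le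

theorem faultTolerant_of_conn {d k : ℕ}
    (h : ∀ S : Finset V, S.card = k - 1 → ∀ u v, u ∉ S → v ∉ S → Conn G S d u v) :
    FaultTolerant G d k := by
  intro S hS
  rw [SimpleGraph.ediam_le_iff]
  rintro ⟨u, hu⟩ ⟨v, hv⟩
  obtain ⟨ℓ, hℓ, p, h0, h1, h2, h3⟩ := h S hS u v hu hv
  have key := edist_le_of_path (G := G.induce {v | v ∉ S}) ℓ
    (fun i => if hi : i ≤ ℓ then ⟨p i, h3 i hi⟩ else ⟨u, hu⟩) (by
      intro i hi
      have h4 : i ≤ ℓ := by omega
      have h5 : i + 1 ≤ ℓ := by omega
      simp only [h4, h5, dif_pos]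
      exact h2 i hi)
  simp only [Nat.zero_le, le_refl, dif_pos] at key
  have h6 : (⟨p 0, h3 0 (Nat.zero_le _)⟩ : {v | v ∉ S}) = ⟨u, hu⟩ := Subtype.ext h0
  have h7 : (⟨p ℓ, h3 ℓ (le_refl _)⟩ : {v | v ∉ S}) = ⟨v, hv⟩ := Subtype.ext h1
  rw [h6, h7] at key
  exact key.trans (by exact_mod_cast hℓ)

theorem FaultTolerant.mono {d d' k : ℕ} (h : FaultTolerant G d k) (hd : d ≤ d') :
    FaultTolerant G d' k := fun S hS => (h S hS).trans (by exact_mod_cast hd)

end conn

section transport

theorem fhat_le {V : Type} [Fintype V] [DecidableEq V] {G : SimpleGraph V} {n d k m : ℕ}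
    (hV : Fintype.card V = n)
    (h : ∀ S : Finset V, S.card = k - 1 → ∀ u v, u ∉ S → v ∉ S → Conn G S d u v)
    (hm : G.edgeSet.ncard ≤ m) : fhat n d k ≤ m := by
  have e : V ≃ Fin n := Fintype.equivFinOfCardEq hV
  refine le_trans (Nat.sInf_le ⟨G.comap e.symm, ?_, rfl⟩) ?_
  · apply faultTolerant_of_conn
    intro S hS u v hu hv
    obtain ⟨ℓ, hℓ, p, h0, h1, h2, h3⟩ := h (S.map e.symm.toEmbedding) (by rw [Finset.card_map, hS])
      (e.symm u) (e.symm v) (by simpa using hu) (by simpa using hv)
    refine ⟨ℓ, hℓ, fun i => e (p i), ?_, ?_, ?_, ?_⟩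
    · simp [h0]
    · simp [h1]
    · intro i hi
      rw [SimpleGraph.comap_adj]
      simpa using h2 i hi
    · intro i hi hx
      apply h3 i hi
      rw [Finset.mem_map]
      exact ⟨_, hx, by simp⟩
  · have h1 : (G.comap e.symm).edgeSet.ncard = G.edgeSet.ncard := by
      rw [← Nat.card_coe_set_eq, ← Nat.card_coe_set_eq]
      exact Nat.card_congr (SimpleGraph.Iso.comap e.symm G).mapEdgeSet
    rw [h1]
    exact hm

end transport

section bipartite

/-- the complete bipartite graph -/
theorem fhat_two_le {n k : ℕ} (hk : 1 ≤ k) (hn : 2 * k ≤ n) : fhat n 2 k ≤ k * (n - k) := by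
  classical
  refine fhat_le (V := Fin k ⊕ Fin (n - k)) (G := completeBipartiteGraph (Fin k) (Fin (n - k)))
    ?_ ?_ ?_
  · simp only [Fintype.card_sum, Fintype.card_fin]
    omega
  · intro S hS u v hu hv
    have hcardS : S.card < k := by omega
    obtain ⟨i, hi⟩ : ∃ i : Fin k, (Sum.inl i : Fin k ⊕ Fin (n - k)) ∉ S := by
      by_contra hcon
      push Not at hcon
      have h1 : (Finset.univ.map (Function.Embedding.inl (α := Fin k) (β := Fin (n - k)))) ⊆ S := by
        intro x hx
        rw [Finset.mem_map] at hx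
        obtain ⟨i, -, rfl⟩ := hx
        exact hcon i
      have h2 := Finset.card_le_card h1
      rw [Finset.card_map, Finset.card_univ, Fintype.card_fin] at h2
      omega
    obtain ⟨j, hj⟩ : ∃ j : Fin (n - k), (Sum.inr j : Fin k ⊕ Fin (n - k)) ∉ S := by
      by_contra hcon
      push Not at hcon
      have h1 : (Finset.univ.map (Function.Embedding.inr (α := Fin k) (β := Fin (n - k)))) ⊆ S := by
        intro x hx
        rw [Finset.mem_map] at hx
        obtain ⟨i, -, rfl⟩ := hx
        exact hcon i
      have h2 := Finset.card_le_card h1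
      rw [Finset.card_map, Finset.card_univ, Fintype.card_fin] at h2
      omega
    rcases u with a | a <;> rcases v with b | b
    · exact (((Conn.refl hv).cons hj (Or.inr (by simp))).cons hu (Or.inr (by simp)))
    · exact ((Conn.refl hv).cons hu (Or.inr (by simp))).mono (by omega)
    · exact ((Conn.refl hv).cons hu (Or.inr (by simp))).mono (by omega)
    · exact (((Conn.refl hv).cons hi (Or.inr (by simp))).cons hu (Or.inr (by simp)))
  · have h1 : (completeBipartiteGraph (Fin k) (Fin (n - k))).edgeSet ⊆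
        ((Finset.univ : Finset (Fin k × Fin (n - k))).image
          (fun x => s(Sum.inl x.1, Sum.inr x.2)) : Set (Sym2 (Fin k ⊕ Fin (n - k)))) := by
      intro e he
      induction e using Sym2.ind with
      | _ x y =>
        rw [SimpleGraph.mem_edgeSet] at he
        simp only [Finset.coe_image, Finset.coe_univ, Set.image_univ, Set.mem_range, Prod.exists]
        rcases x with a | a <;> rcases y with b | b
        · simp at he
        · exact ⟨a, b, rfl⟩
        · exact ⟨b, a, Sym2.eq_swap⟩
        · simp at he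
    refine (Set.ncard_le_ncard h1 (Finset.finite_toSet _)).trans ?_
    rw [Set.ncard_coe_finset]
    refine Finset.card_image_le.trans ?_
    simp

end bipartite

section blocks

/-- hubs, blocks and leftover vertices -/
abbrev BV (k q r : ℕ) := Fin k ⊕ ((Fin q × Fin k) ⊕ Fin r)

/-- adjacency: hubs are mutually adjacent, the `i`-th vertex of each block is adjacent to the
`i`-th hub, blocks are complete, leftover vertices are adjacent to all hubs -/
def bAdj (k q r : ℕ) : BV k q r → BV k q r → Prop
  | .inl i, .inl j => i ≠ j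
  | .inl i, .inr (.inl x) => i = x.2
  | .inr (.inl x), .inl i => i = x.2
  | .inl _, .inr (.inr _) => True
  | .inr (.inr _), .inl _ => True
  | .inr (.inl x), .inr (.inl y) => x.1 = y.1 ∧ x.2 ≠ y.2
  | _, _ => False

/-- the block graph -/
def bGraph (k q r : ℕ) : SimpleGraph (BV k q r) where
  Adj := bAdj k q r
  symm := ⟨by
    intro u v h
    rcases u with i | x | c <;> rcases v with j | y | c' <;> simp only [bAdj] at h ⊢
    · exact fun h' => h h'.symm
    · exact h
    · exact h
    · exact ⟨h.1.symm, fun h' => h.2 h'.symm⟩⟩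
  loopless := ⟨by
    intro u h
    rcases u with i | x | c <;> simp [bAdj] at h⟩

theorem bGraph_conn {k q r : ℕ} (hk : 1 ≤ k) (S : Finset (BV k q r)) (hS : S.card = k - 1)
    (u v : BV k q r) (hu : u ∉ S) (hv : v ∉ S) : Conn (bGraph k q r) S 4 u v := by
  classical
  -- for every two blocks there is a position that is completely alive
  have key : ∀ b b' : Fin q, ∃ i : Fin k, (Sum.inl i : BV k q r) ∉ S ∧
      (Sum.inr (Sum.inl (b, i)) : BV k q r) ∉ S ∧ (Sum.inr (Sum.inl (b', i)) : BV k q r) ∉ S := by
    intro b b'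
    by_contra hcon
    push Not at hcon
    have h1 : ∀ i : Fin k, ∃ x ∈ S, x = Sum.inl i ∨ x = Sum.inr (Sum.inl (b, i)) ∨
        x = Sum.inr (Sum.inl (b', i)) := by
      intro i
      by_cases h2 : (Sum.inl i : BV k q r) ∈ S
      · exact ⟨_, h2, Or.inl rfl⟩
      · by_cases h3 : (Sum.inr (Sum.inl (b, i)) : BV k q r) ∈ S
        · exact ⟨_, h3, Or.inr (Or.inl rfl)⟩
        · exact ⟨_, hcon i h2 h3, Or.inr (Or.inr rfl)⟩
    choose f hf1 hf2 using h1
    have hinj : Function.Injective f := by
      intro i j hij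
      rcases hf2 i with h | h | h <;> rcases hf2 j with h' | h' | h' <;>
        rw [hij, h'] at h <;> simp at h
      · exact h.symm
      · exact h.symm
      · exact h.2.symm
      · exact h.2.symm
      · exact h.symm
    have h2 := Finset.card_le_card_of_injOn f (s := Finset.univ) (t := S)
      (fun i _ => hf1 i) (fun i _ j _ h => hinj h)
    rw [Finset.card_univ, Fintype.card_fin] at h2
    omega
  obtain ⟨i₀, hi₀⟩ : ∃ i : Fin k, (Sum.inl i : BV k q r) ∉ S := by
    by_contra hcon
    push Not at hcon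
    have h1 : (Finset.univ.map (Function.Embedding.inl (α := Fin k)
        (β := (Fin q × Fin k) ⊕ Fin r))) ⊆ S := by
      intro x hx
      rw [Finset.mem_map] at hx
      obtain ⟨i, -, rfl⟩ := hx
      exact hcon i
    have h2 := Finset.card_le_card h1
    rw [Finset.card_map, Finset.card_univ, Fintype.card_fin] at h2
    omega
  have hhub : ∀ i j : Fin k, (Sum.inl i : BV k q r) = Sum.inl j ∨
      (bGraph k q r).Adj (Sum.inl i) (Sum.inl j) := by
    intro i j
    by_cases h : i = j
    · left; rw [h]
    · right; exact h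
  have hblock : ∀ (b : Fin q) (i j : Fin k), (Sum.inr (Sum.inl (b, i)) : BV k q r) =
      Sum.inr (Sum.inl (b, j)) ∨
      (bGraph k q r).Adj (Sum.inr (Sum.inl (b, i))) (Sum.inr (Sum.inl (b, j))) := by
    intro b i j
    by_cases h : i = j
    · left; rw [h]
    · right; exact ⟨rfl, h⟩
  rcases u with a | ⟨b, a⟩ | c <;> rcases v with a' | ⟨b', a'⟩ | c'
  · exact ((Conn.refl hv).cons hu (hhub _ _)).mono (by omega)
  · obtain ⟨i, h1, h2, -⟩ := key b' b'
    exact ((((Conn.refl hv).cons h2 (hblock _ _ _)).cons h1 (Or.inr rfl)).cons hu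
      (hhub _ _)).mono (by omega)
  · exact ((Conn.refl hv).cons hu (Or.inr trivial)).mono (by omega)
  · obtain ⟨i, h1, h2, -⟩ := key b b
    exact ((((Conn.refl hv).cons h1 (hhub _ _)).cons h2 (Or.inr rfl)).cons hu
      (hblock _ _ _)).mono (by omega)
  · obtain ⟨i, h1, h2, h3⟩ := key b b'
    exact ((((Conn.refl hv).cons h3 (hblock _ _ _)).cons h1 (Or.inr rfl)).cons h2
      (Or.inr rfl)).cons hu (hblock _ _ _)
  · obtain ⟨i, h1, h2, -⟩ := key b b
    exact ((((Conn.refl hv).cons h1 (Or.inr trivial)).cons h2 (Or.inr rfl)).cons hu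
      (hblock _ _ _)).mono (by omega)
  · exact ((Conn.refl hv).cons hu (Or.inr trivial)).mono (by omega)
  · obtain ⟨i, h1, h2, -⟩ := key b' b'
    exact ((((Conn.refl hv).cons h2 (hblock _ _ _)).cons h1 (Or.inr rfl)).cons hu
      (Or.inr trivial)).mono (by omega)
  · exact (((Conn.refl hv).cons hi₀ (Or.inr trivial)).cons hu (Or.inr trivial)).mono (by omega)

theorem bGraph_edges (k q r : ℕ) :
    (bGraph k q r).edgeSet.ncard ≤ k * k + q * k + q * k.choose 2 + k * r := by
  classical
  have h1 : (bGraph k q r).edgeSet ⊆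
      (((((Finset.univ : Finset (Fin k × Fin k)).image
          (fun x => (s(Sum.inl x.1, Sum.inl x.2) : Sym2 (BV k q r)))) ∪
        ((Finset.univ : Finset (Fin q × Fin k)).image
          (fun x => s(Sum.inl x.2, Sum.inr (Sum.inl x))))) ∪
        (((Finset.univ : Finset (Fin q)) ×ˢ (⊤ : SimpleGraph (Fin k)).edgeFinset).image
          (fun x => x.2.map (fun i => Sum.inr (Sum.inl (x.1, i)))))) ∪
        ((Finset.univ : Finset (Fin k × Fin r)).image
          (fun x => s(Sum.inl x.1, Sum.inr (Sum.inr x.2)))) : Finset (Sym2 (BV k q r))) := by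
    intro e he
    induction e using Sym2.ind with
    | _ x y =>
      rw [SimpleGraph.mem_edgeSet] at he
      change bAdj k q r x y at he
      rw [Finset.mem_coe]
      rcases x with a | ⟨b, a⟩ | c <;> rcases y with a' | ⟨b', a'⟩ | c' <;>
        simp only [bAdj] at he
      · refine Finset.mem_union_left _ (Finset.mem_union_left _ (Finset.mem_union_left _ ?_))
        rw [Finset.mem_image]
        exact ⟨(a, a'), Finset.mem_univ _, rfl⟩
      · refine Finset.mem_union_left _ (Finset.mem_union_left _ (Finset.mem_union_right _ ?_))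
        rw [Finset.mem_image]
        subst he
        exact ⟨(b', a), Finset.mem_univ _, rfl⟩
      · refine Finset.mem_union_right _ ?_
        rw [Finset.mem_image]
        exact ⟨(a, c'), Finset.mem_univ _, rfl⟩
      · refine Finset.mem_union_left _ (Finset.mem_union_left _ (Finset.mem_union_right _ ?_))
        rw [Finset.mem_image]
        subst he
        exact ⟨(b, a'), Finset.mem_univ _, Sym2.eq_swap⟩
      · refine Finset.mem_union_left _ (Finset.mem_union_right _ ?_)
        rw [Finset.mem_image]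
        obtain ⟨rfl, h2⟩ := he
        refine ⟨(b, s(a, a')), ?_, rfl⟩
        rw [Finset.mem_product]
        refine ⟨Finset.mem_univ _, ?_⟩
        rw [SimpleGraph.mem_edgeFinset, SimpleGraph.mem_edgeSet, SimpleGraph.top_adj]
        exact h2
      · refine Finset.mem_union_right _ ?_
        rw [Finset.mem_image]
        exact ⟨(a', c), Finset.mem_univ _, Sym2.eq_swap⟩
  refine (Set.ncard_le_ncard h1 (Finset.finite_toSet _)).trans ?_
  rw [Set.ncard_coe_finset]
  refine (Finset.card_union_le _ _).trans (Nat.add_le_add ((Finset.card_union_le _ _).trans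
    (Nat.add_le_add ((Finset.card_union_le _ _).trans (Nat.add_le_add ?_ ?_)) ?_)) ?_)
  · exact Finset.card_image_le.trans (by simp)
  · exact Finset.card_image_le.trans (by simp)
  · refine Finset.card_image_le.trans ?_
    rw [Finset.card_product, SimpleGraph.card_edgeFinset_top_eq_card_choose_two]
    simp
  · exact Finset.card_image_le.trans (by simp)

/-- the upper bound for `d = 4` -/
theorem fhat_four_le {n k : ℕ} (hk : 1 ≤ k) (hn : k ≤ n) :
    2 * fhat n 4 k ≤ (k + 1) * n + 4 * (k * k) := by
  classical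
  have hdiv := Nat.div_add_mod (n - k) k
  have hmod := Nat.mod_lt (n - k) (show 0 < k by omega)
  generalize (n - k) / k = q at hdiv
  generalize (n - k) % k = r at hdiv hmod
  have hcard : Fintype.card (BV k q r) = n := by
    simp only [Fintype.card_sum, Fintype.card_fin, Fintype.card_prod]
    rw [Nat.mul_comm q k]
    omega
  have h1 := fhat_le (d := 4) (k := k) hcard (bGraph_conn hk) (bGraph_edges k q r)
  have h2 : 2 * k.choose 2 = k * (k - 1) := by
    rw [Nat.choose_two_right]
    exact Nat.mul_div_cancel' (Nat.even_mul_pred_self k).two_dvd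
  obtain ⟨k', rfl⟩ : ∃ k', k = k' + 1 := ⟨k - 1, by omega⟩
  simp only [Nat.add_sub_cancel] at h2
  have h3 : 2 * (q * (k' + 1).choose 2) = q * ((k' + 1) * k') := by
    rw [← h2]; ring
  have h4 : (k' + 1) * q ≤ n := by omega
  have h5 : (k' + 1) * r ≤ (k' + 1) * (k' + 1) := Nat.mul_le_mul_left _ hmod.le
  have h6 : (k' + 1 + 1) * ((k' + 1) * q) ≤ (k' + 1 + 1) * n := Nat.mul_le_mul_left _ h4
  nlinarith

end blocks

end Pool.Agent.Helper68
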