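import Pool.Agent.Helper68.FTLower5
import Pool.Agent.Helper68.FTUpper

/-!
# Limits
-/

namespace Pool.Agent.Helper68

open Filter Topology

section exists_opt

theorem exists_opt {n d k : ℕ} (hd : 1 ≤ d) :
    ∃ G : SimpleGraph (Fin n), FaultTolerant G d k ∧ G.edgeSet.ncard = fhat n d k := by
  have hne : {e : ℕ | ∃ G : SimpleGraph (Fin n), FaultTolerant G d k ∧
      G.edgeSet.ncard = e}.Nonempty := by
    refine ⟨_, ⊤, ?_, rfl⟩
    apply faultTolerant_of_conn
    intro S _ u v hu hv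
    refine ((Conn.refl hv).cons hu ?_).mono hd
    by_cases h : u = v
    · exact Or.inl h
    · exact Or.inr h
  exact Nat.sInf_mem hne

theorem fhat_anti {n d d' k : ℕ} (hd : 1 ≤ d) (hdd : d ≤ d') : fhat n d' k ≤ fhat n d k := by
  obtain ⟨G, h1, h2⟩ := exists_opt (n := n) (k := k) hd
  rw [← h2]
  exact Nat.sInf_le ⟨G, h1.mono hdd, rfl⟩

end exists_opt

section lower

theorem fhat_three_lower {n k N : ℕ} (hk : 1 ≤ k) (hn : k + 1 ≤ n) (hN : 1 ≤ N) :
    N * (k * n) ≤ (N + 2 * k) * fhat n 3 k + N * (k * (4 * N ^ 3 + 1) ^ k) := by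
  classical
  obtain ⟨G, h1, h2⟩ := exists_opt (n := n) (d := 3) (k := k) (by omega)
  have h3 : G.edgeFinset.card = fhat n 3 k := by
    rw [← h2, ← SimpleGraph.coe_edgeFinset, Set.ncard_coe_finset]
  have h4 := lower3 (D := N) h1 hk (by simpa using hn) hN
  have h5 := card_hubs_mul_le (G := G) N
  rw [h3] at h4 h5
  rw [Fintype.card_fin] at h4
  generalize (4 * N ^ 3 + 1) ^ k = C at h4 ⊢
  generalize (hubs G N).card = h at h4 h5
  nlinarith [Nat.mul_le_mul_left N h4, Nat.mul_le_mul_left k h5]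

/-- the thresholds -/
def thr (k N : ℕ) : ℕ → ℕ
  | 0 => N
  | i + 1 => N * (6 * (thr k N i) ^ 5 + 1) ^ (k + 1)

theorem thr_le_succ {k N : ℕ} (hN : 1 ≤ N) (i : ℕ) : thr k N i ≤ thr k N (i + 1) := by
  simp only [thr]
  generalize thr k N i = x
  have h1 : x ≤ 6 * x ^ 5 + 1 := by
    rcases Nat.eq_zero_or_pos x with h | h
    · omega
    · have : x ^ 1 ≤ x ^ 5 := Nat.pow_le_pow_right h (by omega)
      rw [pow_one] at this
      omega
  have h2 : (6 * x ^ 5 + 1) ^ 1 ≤ (6 * x ^ 5 + 1) ^ (k + 1) :=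
    Nat.pow_le_pow_right (by omega) (by omega)
  rw [pow_one] at h2
  calc x ≤ (6 * x ^ 5 + 1) ^ (k + 1) := h1.trans h2
    _ = 1 * (6 * x ^ 5 + 1) ^ (k + 1) := (one_mul _).symm
    _ ≤ N * (6 * x ^ 5 + 1) ^ (k + 1) := Nat.mul_le_mul_right _ hN

theorem thr_mono {k N : ℕ} (hN : 1 ≤ N) : Monotone (thr k N) :=
  monotone_nat_of_le_succ (thr_le_succ hN)

variable {V : Type} [Fintype V] [DecidableEq V] {G : SimpleGraph V} [DecidableRel G.Adj]

theorem hubs_anti {D M : ℕ} (h : D ≤ M) : hubs G M ⊆ hubs G D := by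
  intro v hv
  unfold hubs at hv ⊢
  simp only [Finset.mem_filter, Finset.mem_univ, true_and] at hv ⊢
  omega

theorem sum_windows {k N : ℕ} (hN : 1 ≤ N) (L : ℕ) :
    ∑ i ∈ Finset.range L, ∑ v ∈ hubs G (thr k N i) \ hubs G (thr k N (i + 1)), G.degree v +
      ∑ v ∈ hubs G (thr k N L), G.degree v = ∑ v ∈ hubs G (thr k N 0), G.degree v := by
  induction L with
  | zero => simp
  | succ L ih =>
    rw [Finset.sum_range_succ, ← ih, add_assoc]
    congr 1
    exact Finset.sum_sdiff (hubs_anti (thr_le_succ hN L))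

theorem exists_window {k N : ℕ} (hN : 1 ≤ N) :
    ∃ i < N, N * ∑ v ∈ hubs G (thr k N i) \ hubs G (thr k N (i + 1)), G.degree v ≤
      2 * G.edgeFinset.card := by
  by_contra hcon
  push Not at hcon
  have h1 := sum_windows (G := G) (k := k) hN N
  have h2 : ∑ v ∈ hubs G (thr k N 0), G.degree v ≤ 2 * G.edgeFinset.card := by
    rw [← G.sum_degrees_eq_twice_card_edges]
    exact Finset.sum_le_sum_of_subset (Finset.subset_univ _)
  have h3 : ∑ i ∈ Finset.range N, (2 * G.edgeFinset.card + 1) ≤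
      ∑ i ∈ Finset.range N, N * ∑ v ∈ hubs G (thr k N i) \ hubs G (thr k N (i + 1)), G.degree v :=
    Finset.sum_le_sum fun i hi => hcon i (Finset.mem_range.mp hi)
  rw [← Finset.mul_sum, Finset.sum_const, Finset.card_range, smul_eq_mul] at h3
  have h4 := Nat.le_of_mul_le_mul_left h3 (by omega)
  omega

theorem fhat_five_lower {n k N : ℕ} (hk : 1 ≤ k) (hn : k + 1 ≤ n) (hN : 1 ≤ N) :
    N * ((k + 1) * n) ≤ (N + (k + 3)) * (2 * fhat n 5 k) +
      N * (6 * (thr k N N) ^ 5 + 1) ^ (k + 1) := by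
  classical
  obtain ⟨G, h1, h2⟩ := exists_opt (n := n) (d := 5) (k := k) (by omega)
  have h3 : G.edgeFinset.card = fhat n 5 k := by
    rw [← h2, ← SimpleGraph.coe_edgeFinset, Set.ncard_coe_finset]
  obtain ⟨i, hi, hw⟩ := exists_window (G := G) (k := k) hN
  have hD1 : 1 ≤ thr k N i := by
    have h4 := thr_mono (k := k) hN (Nat.zero_le i)
    have h5 : thr k N 0 = N := rfl
    omega
  have hDN : N ≤ thr k N i := by
    have h4 := thr_mono (k := k) hN (Nat.zero_le i)
    have h5 : thr k N 0 = N := rfl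
    omega
  have h4 := card_viol_le (M := thr k N (i + 1)) (D := thr k N i) h1 hk (by simpa using hn) hD1
  have h5 := lower5_viol (H := hubs G (thr k N i)) h1 hk (by simpa using hn)
  have h6 := card_hubs_mul_le (G := G) (thr k N i)
  have h7 : (hubs G (thr k N (i + 1))).card * (N * (6 * (thr k N i) ^ 5 + 1) ^ (k + 1)) ≤
      2 * G.edgeFinset.card := card_hubs_mul_le (G := G) (thr k N (i + 1))
  rw [h3] at h5 h6 h7 hw
  rw [Fintype.card_fin] at h5
  have h9 : (6 * (thr k N i) ^ 5 + 1) ^ (k + 1) ≤ (6 * (thr k N N) ^ 5 + 1) ^ (k + 1) := by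
    have := thr_mono (k := k) hN hi.le
    gcongr
  have h10 : (hubs G (thr k N i)).card * N ≤ 2 * fhat n 5 k :=
    (Nat.mul_le_mul_left _ hDN).trans h6
  generalize (6 * (thr k N i) ^ 5 + 1) ^ (k + 1) = C at h4 h7 h9
  generalize (6 * (thr k N N) ^ 5 + 1) ^ (k + 1) = C' at h9 ⊢
  generalize (hubs G (thr k N i)).card = a at h5 h10
  generalize (hubs G (thr k N (i + 1))).card = b at h4 h7
  generalize ∑ v ∈ hubs G (thr k N i) \ hubs G (thr k N (i + 1)), G.degree v = W at h4 hw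
  generalize (Viol G (hubs G (thr k N i)) k).card = v at h4 h5
  have e1 : N * ((k + 1) * n) ≤ N * (2 * fhat n 5 k + (k + 1) * a + (C' + (W + b * C))) := by
    apply Nat.mul_le_mul_left
    omega
  have e2 : (k + 1) * (a * N) ≤ (k + 1) * (2 * fhat n 5 k) := Nat.mul_le_mul_left _ h10
  nlinarith

end lower

section limit

/-- a squeeze criterion -/
theorem tendsto_of_bounds {f : ℕ → ℝ} {L U c : ℝ} (hL : 0 ≤ L) (hc : 0 ≤ c)
    (hU : ∀ᶠ n : ℕ in atTop, f n ≤ L * n + U)
    (hlow : ∀ N : ℕ, 1 ≤ N → ∃ C : ℝ, ∀ᶠ n : ℕ in atTop,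
      (N : ℝ) * (L * n) ≤ (N + c) * f n + C) :
    Tendsto (fun n : ℕ => f n / n) atTop (𝓝 L) := by
  rw [Metric.tendsto_nhds]
  intro ε hε
  obtain ⟨N, hN⟩ := exists_nat_gt ((c * L + 1) / ε + 1)
  have hN1 : 1 ≤ N := by
    have h1 : 0 ≤ (c * L + 1) / ε := by positivity
    have h2 : (1 : ℝ) < N := by linarith
    exact_mod_cast h2.le
  have hNε : c * L + 1 ≤ ε * N := by
    have h1 : (c * L + 1) / ε < N := by linarith
    rw [div_lt_iff₀ hε] at h1
    linarith
  obtain ⟨C, hC⟩ := hlow N hN1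
  have hev1 : ∀ᶠ n : ℕ in atTop, C < (n : ℝ) :=
    tendsto_natCast_atTop_atTop.eventually_gt_atTop C
  have hev2 : ∀ᶠ n : ℕ in atTop, U / ε < (n : ℝ) :=
    tendsto_natCast_atTop_atTop.eventually_gt_atTop _
  filter_upwards [hU, hC, hev1, hev2, eventually_gt_atTop 0] with n h1 h2 h3 h4 h5
  have hn : (0 : ℝ) < n := by exact_mod_cast h5
  rw [Real.dist_eq, abs_sub_lt_iff]
  constructor
  · rw [sub_lt_iff_lt_add, div_lt_iff₀ hn]
    rw [div_lt_iff₀ hε] at h4
    nlinarith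
  · rw [sub_lt_comm, lt_div_iff₀ hn]
    by_contra hcon
    push Not at hcon
    have hNc : (0 : ℝ) ≤ N + c := by positivity
    have h6 : ((N : ℝ) + c) * f n ≤ (N + c) * ((L - ε) * n) := mul_le_mul_of_nonneg_left hcon hNc
    nlinarith [mul_nonneg hc hn.le, mul_nonneg (mul_nonneg hc hε.le) hn.le]

theorem phihat_div (n d k : ℕ) (hn : 0 < n) :
    phihat n d k / n = (fhat n d k : ℝ) / n - k / 2 := by
  unfold phihat
  have : (0 : ℝ) < n := by exact_mod_cast hn
  field_simp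

theorem tendsto_phihat_of_fhat {d k : ℕ} {L : ℝ}
    (h : Tendsto (fun n : ℕ => (fhat n d k : ℝ) / n) atTop (𝓝 L)) :
    Tendsto (fun n : ℕ => phihat n d k / n) atTop (𝓝 (L - k / 2)) := by
  refine (h.sub_const ((k : ℝ) / 2)).congr' ?_
  filter_upwards [eventually_gt_atTop 0] with n hn
  exact (phihat_div n d k hn).symm

theorem tendsto_three {k : ℕ} (hk : 1 ≤ k) :
    Tendsto (fun n : ℕ => phihat n 3 k / n) atTop (𝓝 ((k : ℝ) / 2)) := by
  have h : Tendsto (fun n : ℕ => (fhat n 3 k : ℝ) / n) atTop (𝓝 (k : ℝ)) := by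
    refine tendsto_of_bounds (U := 0) (c := 2 * k) (by positivity) (by positivity) ?_ ?_
    · filter_upwards [eventually_ge_atTop (2 * k)] with n hn
      have h1 : fhat n 3 k ≤ k * n :=
        (fhat_anti (by omega) (by omega)).trans ((fhat_two_le hk hn).trans
          (Nat.mul_le_mul_left _ (Nat.sub_le _ _)))
      have h2 : (fhat n 3 k : ℝ) ≤ k * n := by exact_mod_cast h1
      linarith
    · intro N hN
      refine ⟨N * (k * (4 * N ^ 3 + 1) ^ k), ?_⟩
      filter_upwards [eventually_ge_atTop (k + 1)] with n hn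
      exact_mod_cast fhat_three_lower hk hn hN
  have h2 := tendsto_phihat_of_fhat h
  have h3 : (k : ℝ) - k / 2 = k / 2 := by ring
  rw [h3] at h2
  exact h2

theorem tendsto_four_five {d k : ℕ} (hd4 : 4 ≤ d) (hd5 : d ≤ 5) (hk : 1 ≤ k) :
    Tendsto (fun n : ℕ => phihat n d k / n) atTop (𝓝 (1 / 2)) := by
  have h : Tendsto (fun n : ℕ => (fhat n d k : ℝ) / n) atTop (𝓝 (((k : ℝ) + 1) / 2)) := by
    refine tendsto_of_bounds (U := 2 * (k * k)) (c := k + 3) (by positivity) (by positivity) ?_ ?_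
    · filter_upwards [eventually_ge_atTop k] with n hn
      have h1 : 2 * fhat n d k ≤ (k + 1) * n + 4 * (k * k) :=
        (Nat.mul_le_mul_left 2 (fhat_anti (by omega) hd4)).trans (fhat_four_le hk hn)
      have h2 : (2 : ℝ) * fhat n d k ≤ (k + 1) * n + 4 * (k * k) := by exact_mod_cast h1
      linarith
    · intro N hN
      refine ⟨N * (6 * (thr k N N) ^ 5 + 1) ^ (k + 1) / 2, ?_⟩
      filter_upwards [eventually_ge_atTop (k + 1)] with n hn
      have h1 := fhat_five_lower hk hn hN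
      have h2 : N * ((k + 1) * n) ≤ (N + (k + 3)) * (2 * fhat n d k) +
          N * (6 * (thr k N N) ^ 5 + 1) ^ (k + 1) :=
        h1.trans (Nat.add_le_add_right (Nat.mul_le_mul_left _ (Nat.mul_le_mul_left 2
          (fhat_anti (by omega) hd5))) _)
      have h3 : (N : ℝ) * ((k + 1) * n) ≤ (N + (k + 3)) * (2 * fhat n d k) +
          N * (6 * (thr k N N) ^ 5 + 1) ^ (k + 1) := by exact_mod_cast h2
      linarith
  have h2 := tendsto_phihat_of_fhat h
  have h3 : ((k : ℝ) + 1) / 2 - k / 2 = 1 / 2 := by ring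
  rw [h3] at h2
  exact h2

end limit

end Pool.Agent.Helper68
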