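import Pool.Agent.Helper68.TemporalBasic

/-!
# The chain of paths and digons

Junctions `J 0, ..., J (2m)`; between `J (2j)` and `J (2j+1)` there is a path with interior
vertices `P j 1, ..., P j (2q)`; between `J (2j+1)` and `J (2j+2)` there are two arms with interior
vertices `A s j 1, ..., A s j (2q)`, `s : Bool`; every junction `J i`, `1 ≤ i < 2m`, carries a
pendant vertex `H i`.  In the snapshot with bit `b` the middle edge `A s j q - A s j (q+1)` is
present iff `b = s`.
-/

namespace Pool.Agent.Helper68

/-- a criterion for being a tree -/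
theorem isTree_of_rank {V : Type} [Finite V] (G : SimpleGraph V) (root : V) (rank : V → ℕ)
    (hroot : ∀ u, G.Adj root u → rank root < rank u)
    (hne : ∀ u v, G.Adj u v → rank u ≠ rank v)
    (hex : ∀ v, v ≠ root → ∃ u, G.Adj v u ∧ rank u < rank v)
    (huniq : ∀ v u u', G.Adj v u → G.Adj v u' → rank u < rank v → rank u' < rank v → u = u') :
    G.IsTree := by
  classical
  have hconn : G.Connected := by
    rw [SimpleGraph.connected_iff_exists_forall_reachable]
    refine ⟨root, ?_⟩
    have : ∀ n, ∀ w, rank w = n → G.Reachable root w := by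
      intro n
      induction n using Nat.strong_induction_on with
      | _ n ih =>
        intro w hw
        by_cases h : w = root
        · rw [h]
        · obtain ⟨u, hu1, hu2⟩ := hex w h
          have := ih (rank u) (by omega) u rfl
          exact this.trans hu1.symm.reachable
    intro w
    exact this _ w rfl
  rw [SimpleGraph.isTree_iff_connected_and_card]
  refine ⟨hconn, ?_⟩
  apply le_antisymm ?_ hconn.card_vert_le_card_edgeSet_add_one
  choose! par hpar1 hpar2 using hex
  have hsurj : Function.Surjective (fun v : {v : V // v ≠ root} =>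
      (⟨s(v.1, par v.1), hpar1 v.1 v.2⟩ : G.edgeSet)) := by
    rintro ⟨e, he⟩
    induction e using Sym2.ind with
    | _ x y =>
      have hxy : G.Adj x y := he
      rcases lt_or_gt_of_ne (hne x y hxy) with h | h
      · have hy : y ≠ root := by
          rintro rfl
          have := hroot x hxy.symm
          omega
        refine ⟨⟨y, hy⟩, ?_⟩
        have : par y = x := huniq y _ _ (hpar1 y hy) hxy.symm (hpar2 y hy) h
        simp only [this]
        exact Subtype.ext (Sym2.eq_swap)
      · have hx : x ≠ root := by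
          rintro rfl
          have := hroot y hxy
          omega
        refine ⟨⟨x, hx⟩, ?_⟩
        have : par x = y := huniq x _ _ (hpar1 x hx) hxy (hpar2 x hx) h
        simp only [this]
  have h1 : Nat.card G.edgeSet ≤ Nat.card {v : V // v ≠ root} :=
    Nat.card_le_card_of_surjective _ hsurj
  have h2 : Nat.card {v : V // v ≠ root} + 1 = Nat.card V := by
    have := Fintype.ofFinite V
    rw [Nat.card_eq_fintype_card, Nat.card_eq_fintype_card, Fintype.card_subtype_compl,
      Fintype.card_subtype_eq]
    have : 0 < Fintype.card V := Fintype.card_pos_iff.mpr ⟨root⟩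
    omega
  omega

/-- vertices of the chain -/
inductive Vx
  | J (i : ℕ)
  | P (j r : ℕ)
  | A (s : Bool) (j r : ℕ)
  | H (i : ℕ)
  deriving DecidableEq

/-- validity of a vertex -/
def Valid (m q : ℕ) : Vx → Prop
  | .J i => i ≤ 2 * m
  | .P j r => j < m ∧ 1 ≤ r ∧ r ≤ 2 * q
  | .A _ j r => j < m ∧ 1 ≤ r ∧ r ≤ 2 * q
  | .H i => 1 ≤ i ∧ i < 2 * m

/-- directed edges of the snapshot with bit `b` -/
def E (q : ℕ) (b : Bool) : Vx → Vx → Prop
  | .J i, .P j r => i = 2 * j ∧ r = 1
  | .P j r, .P j' r' => j' = j ∧ r' = r + 1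
  | .P j r, .J i => r = 2 * q ∧ i = 2 * j + 1
  | .J i, .A _ j r => i = 2 * j + 1 ∧ r = 1
  | .A s j r, .A s' j' r' => s' = s ∧ j' = j ∧ r' = r + 1 ∧ (r = q → b = s)
  | .A _ j r, .J i => r = 2 * q ∧ i = 2 * j + 2
  | .J i, .H i' => i' = i
  | _, _ => False

/-- the vertex set of the chain -/
abbrev CV (m q : ℕ) := {v : Vx // Valid m q v}

theorem E_irrefl (q : ℕ) (b : Bool) (v : Vx) : ¬ E q b v v := by
  cases v <;> simp [E]

/-- the snapshot with bit `b` -/
def snap (m q : ℕ) (b : Bool) : SimpleGraph (CV m q) where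
  Adj u v := E q b u.1 v.1 ∨ E q b v.1 u.1
  symm := ⟨fun _ _ h => h.symm⟩
  loopless := ⟨fun v h => by rcases h with h | h <;> exact E_irrefl q b _ h⟩

/-- coding of vertices -/
def code : Vx → Fin 5 × ℕ × ℕ
  | .J i => (0, i, 0)
  | .P j r => (1, j, r)
  | .A true j r => (2, j, r)
  | .A false j r => (3, j, r)
  | .H i => (4, i, 0)

theorem code_injective : Function.Injective code := by
  intro u v h
  rcases u with i | ⟨j, r⟩ | ⟨s, j, r⟩ | i <;> rcases v with i' | ⟨j', r'⟩ | ⟨s', j', r'⟩ | i' <;>
    (try cases s) <;> (try cases s') <;> simp_all [code]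

theorem code_bound {m q : ℕ} (v : Vx) (h : Valid m q v) :
    (code v).2.1 < 2 * m + 1 ∧ (code v).2.2 < 2 * q + 1 := by
  rcases v with i | ⟨j, r⟩ | ⟨s, j, r⟩ | i <;> (try cases s) <;> simp_all [code, Valid] <;> omega

/-- bounded code -/
def codeFin (m q : ℕ) (v : CV m q) : Fin 5 × Fin (2 * m + 1) × Fin (2 * q + 1) :=
  ((code v.1).1, ⟨(code v.1).2.1, (code_bound v.1 v.2).1⟩,
    ⟨(code v.1).2.2, (code_bound v.1 v.2).2⟩)

theorem codeFin_injective (m q : ℕ) : Function.Injective (codeFin m q) := by
  intro u v h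
  apply Subtype.ext
  apply code_injective
  simp only [codeFin, Prod.mk.injEq, Fin.mk.injEq] at h
  exact Prod.ext h.1 (Prod.ext h.2.1 h.2.2)

instance (m q : ℕ) : Finite (CV m q) := Finite.of_injective _ (codeFin_injective m q)

theorem card_CV_le (m q : ℕ) : Nat.card (CV m q) ≤ 5 * ((2 * m + 1) * (2 * q + 1)) := by
  have := Nat.card_le_card_of_injective _ (codeFin_injective m q)
  simpa [Nat.card_eq_fintype_card] using this

theorem le_card_CV (m q : ℕ) (hm : 0 < m) : 2 * q ≤ Nat.card (CV m q) := by
  have : Function.Injective (fun r : Fin (2 * q) =>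
      (⟨Vx.P 0 (r.1 + 1), ⟨hm, by omega, by omega⟩⟩ : CV m q)) := by
    intro a b h
    simp only [Subtype.mk.injEq, Vx.P.injEq, true_and] at h
    exact Fin.ext (by omega)
  have := Nat.card_le_card_of_injective _ this
  simpa [Nat.card_eq_fintype_card] using this

/-- rank function witnessing that the snapshots are trees -/
def rk (w q : ℕ) (b : Bool) : Vx → ℕ
  | .J i => i * w
  | .P j r => 2 * (j * w) + r
  | .A s j r => if s ≠ b ∧ q < r then 2 * (j * w) + 2 * w + (w - r) else 2 * (j * w) + w + r
  | .H i => i * w + 1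

section tree

variable {m q w : ℕ}

theorem rk_ne (hw : w = 2 * q + 1) (hq : 1 ≤ q) (b : Bool) (u v : Vx) (hu : Valid m q u)
    (hv : Valid m q v) (h : E q b u v) : rk w q b u ≠ rk w q b v := by
  rcases u with i | ⟨j, r⟩ | ⟨s, j, r⟩ | i <;> rcases v with i' | ⟨j', r'⟩ | ⟨s', j', r'⟩ | i' <;>
    simp only [E] at h <;> simp only [Valid] at hu hv <;> simp only [rk]
  · obtain ⟨rfl, rfl⟩ := h
    simp only [Nat.mul_assoc]
    omega
  · obtain ⟨rfl, rfl⟩ := h
    split_ifs
    · simp only [Nat.add_mul, Nat.mul_assoc, one_mul]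
      omega
    · simp only [Nat.add_mul, Nat.mul_assoc, one_mul]
      omega
  · subst h
    omega
  · obtain ⟨rfl, rfl⟩ := h
    simp only [Nat.add_mul, Nat.mul_assoc, one_mul]
    omega
  · obtain ⟨rfl, rfl⟩ := h
    omega
  · obtain ⟨rfl, rfl⟩ := h
    split_ifs
    · simp only [Nat.add_mul, Nat.mul_assoc, one_mul]
      omega
    · simp only [Nat.add_mul, Nat.mul_assoc, one_mul]
      omega
  · obtain ⟨rfl, rfl, rfl, h4⟩ := h
    split_ifs <;> omega

/-- the parent of a vertex -/
def par (q : ℕ) (b : Bool) : Vx → Vx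
  | .J i => if i % 2 = 1 then .P (i / 2) (2 * q) else .A b (i / 2 - 1) (2 * q)
  | .P j r => if r = 1 then .J (2 * j) else .P j (r - 1)
  | .A s j r => if s ≠ b ∧ q < r then (if r = 2 * q then .J (2 * j + 2) else .A s j (r + 1))
      else (if r = 1 then .J (2 * j + 1) else .A s j (r - 1))
  | .H i => .J i

theorem par_valid (hq : 1 ≤ q) (b : Bool) (v : Vx) (hv : Valid m q v) (h0 : v ≠ .J 0) :
    Valid m q (par q b v) := by
  rcases v with i | ⟨j, r⟩ | ⟨s, j, r⟩ | i <;> simp only [par]
  · have hi : i ≠ 0 := fun h => h0 (by rw [h])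
    simp only [Valid] at hv
    split_ifs <;> simp only [Valid] <;> omega
  · simp only [Valid] at hv
    split_ifs <;> simp only [Valid] <;> omega
  · simp only [Valid] at hv
    split_ifs <;> simp only [Valid] <;> omega
  · simp only [Valid] at hv ⊢
    omega

theorem par_adj (hq : 1 ≤ q) (b : Bool) (v : Vx) (hv : Valid m q v) (h0 : v ≠ .J 0) :
    E q b v (par q b v) ∨ E q b (par q b v) v := by
  rcases v with i | ⟨j, r⟩ | ⟨s, j, r⟩ | i <;> simp only [par]
  · have hi : i ≠ 0 := fun h => h0 (by rw [h])
    simp only [Valid] at hv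
    split_ifs with h
    · right
      simp only [E, true_and, and_true]
      omega
    · right
      simp only [E, true_and, and_true]
      omega
  · simp only [Valid] at hv
    split_ifs with h
    · right
      simp only [E, true_and, and_true]
      omega
    · right
      simp only [E, true_and, and_true]
      omega
  · simp only [Valid] at hv
    split_ifs with h1 h2 h3
    · left
      simp only [E, true_and, and_true]
      omega
    · left
      simp only [E, true_and, and_true]
      
      intro h4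
      omega
    · right
      simp only [E, true_and, and_true]
      omega
    · right
      simp only [E, true_and, and_true]
      refine ⟨by omega, ?_⟩
      intro h4
      by_contra h5
      exact h1 ⟨fun h => h5 h.symm, by omega⟩
  · right
    simp only [E, true_and, and_true]

theorem par_rk (hw : w = 2 * q + 1) (hq : 1 ≤ q) (b : Bool) (v : Vx) (hv : Valid m q v)
    (h0 : v ≠ .J 0) : rk w q b (par q b v) < rk w q b v := by
  rcases v with i | ⟨j, r⟩ | ⟨s, j, r⟩ | i <;> simp only [par]
  · have hi : i ≠ 0 := fun h => h0 (by rw [h])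
    simp only [Valid] at hv
    split_ifs with h
    · obtain ⟨j, rfl⟩ : ∃ j, i = 2 * j + 1 := ⟨i / 2, by omega⟩
      have h2 : (2 * j + 1) / 2 = j := by omega
      simp only [rk, h2, Nat.add_mul, Nat.mul_assoc, one_mul]
      omega
    · obtain ⟨j, rfl⟩ : ∃ j, i = 2 * j + 2 := ⟨i / 2 - 1, by omega⟩
      have h2 : (2 * j + 2) / 2 - 1 = j := by omega
      simp only [rk, h2, Nat.add_mul, Nat.mul_assoc, ne_eq, not_true_eq_false, false_and,
        if_false]
      omega
  · simp only [Valid] at hv
    split_ifs with h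
    · simp only [rk, Nat.mul_assoc]
      omega
    · simp only [rk]
      omega
  · simp only [Valid] at hv
    split_ifs with h1 h2 h3
    · simp only [rk]
      rw [if_pos h1]
      simp only [Nat.add_mul, Nat.mul_assoc]
      omega
    · have h4 : s ≠ b ∧ q < r + 1 := ⟨h1.1, by omega⟩
      simp only [rk]
      rw [if_pos h1, if_pos h4]
      omega
    · simp only [rk]
      rw [if_neg h1]
      simp only [Nat.add_mul, Nat.mul_assoc, one_mul]
      omega
    · have h4 : ¬ (s ≠ b ∧ q < r - 1) := by
        rintro ⟨h5, h6⟩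
        exact h1 ⟨h5, by omega⟩
      simp only [rk]
      rw [if_neg h1, if_neg h4]
      omega
  · simp only [rk]
    omega

theorem par_unique (hw : w = 2 * q + 1) (hq : 1 ≤ q) (b : Bool) (u v : Vx) (hu : Valid m q u)
    (hv : Valid m q v) (h : E q b u v) :
    (rk w q b u < rk w q b v → u = par q b v) ∧ (rk w q b v < rk w q b u → v = par q b u) := by
  rcases u with i | ⟨j, r⟩ | ⟨s, j, r⟩ | i <;> rcases v with i' | ⟨j', r'⟩ | ⟨s', j', r'⟩ | i' <;>
    simp only [E] at h <;> simp only [Valid] at hu hv
  · obtain ⟨rfl, rfl⟩ := h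
    refine ⟨fun _ => by simp [par], fun h => ?_⟩
    simp only [rk, Nat.mul_assoc] at h
    omega
  · obtain ⟨rfl, rfl⟩ := h
    refine ⟨fun _ => ?_, fun h => ?_⟩
    · simp only [par]
      rw [if_neg (by omega)]
      simp
    · exfalso
      simp only [rk] at h
      rw [if_neg (by omega)] at h
      simp only [Nat.add_mul, Nat.mul_assoc, one_mul] at h
      omega
  · subst h
    refine ⟨fun _ => by simp [par], fun h => ?_⟩
    simp only [rk] at h
    omega
  · obtain ⟨rfl, rfl⟩ := h
    refine ⟨fun _ => ?_, fun h => ?_⟩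
    · simp only [par]
      rw [if_pos (by omega)]
      have : (2 * j + 1) / 2 = j := by omega
      rw [this]
    · simp only [rk, Nat.add_mul, Nat.mul_assoc, one_mul] at h
      omega
  · obtain ⟨rfl, rfl⟩ := h
    refine ⟨fun _ => ?_, fun h => ?_⟩
    · simp only [par]
      rw [if_neg (by omega)]
      simp
    · simp only [rk] at h
      omega
  · obtain ⟨rfl, rfl⟩ := h
    refine ⟨fun h => ?_, fun h => ?_⟩
    · simp only [par]
      rw [if_neg (by omega)]
      have h2 : (2 * j + 2) / 2 - 1 = j := by omega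
      rw [h2]
      by_cases hs : s = b
      · rw [hs]
      · exfalso
        simp only [rk] at h
        rw [if_pos ⟨hs, by omega⟩] at h
        simp only [Nat.add_mul, Nat.mul_assoc, one_mul] at h
        omega
    · simp only [par]
      by_cases hs : s = b
      · exfalso
        simp only [rk] at h
        rw [if_neg (fun h5 => h5.1 hs)] at h
        simp only [Nat.add_mul, Nat.mul_assoc, one_mul] at h
        omega
      · rw [if_pos ⟨hs, by omega⟩]
        simp
  · obtain ⟨rfl, rfl, rfl, h4⟩ := h
    by_cases h5 : s' ≠ b ∧ q < r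
    · have h6 : s' ≠ b ∧ q < r + 1 := ⟨h5.1, by omega⟩
      refine ⟨fun h => ?_, fun h => ?_⟩
      · simp only [rk] at h
        rw [if_pos h5, if_pos h6] at h
        omega
      · simp only [par]
        rw [if_pos h5, if_neg (by omega)]
    · have h6 : ¬ (s' ≠ b ∧ q < r + 1) := by
        rintro ⟨h7, h8⟩
        by_cases h9 : r = q
        · exact h7 (h4 h9).symm
        · exact h5 ⟨h7, by omega⟩
      refine ⟨fun h => ?_, fun h => ?_⟩
      · simp only [par]
        rw [if_neg h6, if_neg (by omega)]
        simp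
      · simp only [rk] at h
        rw [if_neg h5, if_neg h6] at h
        omega

theorem snap_isTree (hq : 1 ≤ q) (b : Bool) : (snap m q b).IsTree := by
  obtain ⟨w, hw⟩ : ∃ w, w = 2 * q + 1 := ⟨_, rfl⟩
  refine isTree_of_rank (snap m q b) ⟨.J 0, Nat.zero_le _⟩ (fun v => rk w q b v.1) ?_ ?_ ?_ ?_
  · rintro ⟨u, hu⟩ h
    have h1 : rk w q b (.J 0) = 0 := by simp [rk]
    have h2 : Valid m q (.J 0) := Nat.zero_le _
    simp only [h1]
    rw [Nat.pos_iff_ne_zero, ← h1]
    rcases h with h | h
    · exact (rk_ne hw hq b _ _ h2 hu h).symm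
    · exact (rk_ne hw hq b _ _ hu h2 h)
  · rintro ⟨u, hu⟩ ⟨v, hv⟩ h
    rcases h with h | h
    · exact rk_ne hw hq b _ _ hu hv h
    · exact (rk_ne hw hq b _ _ hv hu h).symm
  · rintro ⟨v, hv⟩ h0
    have h1 : v ≠ .J 0 := fun h => h0 (Subtype.ext h)
    exact ⟨⟨par q b v, par_valid hq b v hv h1⟩, par_adj hq b v hv h1, par_rk hw hq b v hv h1⟩
  · rintro ⟨v, hv⟩ ⟨u, hu⟩ ⟨u', hu'⟩ h h' h1 h2
    apply Subtype.ext
    have key : ∀ x, Valid m q x → (E q b v x ∨ E q b x v) → rk w q b x < rk w q b v →
        x = par q b v := by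
      intro x hx h3 h4
      rcases h3 with h3 | h3
      · exact (par_unique hw hq b v x hv hx h3).2 h4
      · exact (par_unique hw hq b x v hx hv h3).1 h4
    exact (key u hu h h1).trans (key u' hu' h' h2).symm

end tree

end Pool.Agent.Helper68
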