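import Pool.Agent.Helper68.ChainWalks

/-!
# Greedy exploration of the chain
-/

namespace Pool.Agent.Helper68

section defs

/-- horizontal coordinate -/
def X (w : ℕ) : Vx → ℕ
  | .J i => i * w
  | .P j r => (2 * j) * w + r
  | .A _ j r => (2 * j + 1) * w + r
  | .H i => i * w

/-- indicator of pendant vertices -/
def hair : Vx → ℕ
  | .H _ => 1
  | _ => 0

/-- coarse preference order -/
def pri0 : Vx → ℕ
  | .J _ => 0
  | .P j _ => 2 * padicValNat 2 (2 * j) + 2
  | .A true _ _ => 0
  | .A false _ _ => 1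
  | .H i => 2 * padicValNat 2 i + 3

/-- `i + 2 ^ ν(i)` -/
def ee (i : ℕ) : ℕ := i + 2 ^ padicValNat 2 i

/-- visited sets -/
def vis (J Pj Pr Aj Ar Af He Hi : ℕ) : Vx → Prop
  | .J i => i ≤ J
  | .P j r => j < Pj ∨ (j = Pj ∧ r ≤ Pr)
  | .A true j r => j < Aj ∨ (j = Aj ∧ r ≤ Ar)
  | .A false j r => j < Aj ∨ (j = Aj ∧ Af ≤ r)
  | .H i => ee i ≤ He ∨ (ee i = He + 2 ∧ Hi ≤ i)

end defs

theorem X_edge {q w : ℕ} (hw : w = 2 * q + 1) {b : Bool} {u v : Vx} (h : E q b u v) :
    (X w u + 1 = X w v ∧ hair u = 0 ∧ hair v = 0) ∨ (X w u = X w v ∧ hair u = 0 ∧ hair v = 1) := by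
  rcases u with i | ⟨j, r⟩ | ⟨s, j, r⟩ | i <;> rcases v with i' | ⟨j', r'⟩ | ⟨s', j', r'⟩ | i' <;>
    simp only [E] at h <;> simp only [X, hair] <;> try omega
  · obtain ⟨rfl, rfl⟩ := h
    simp
  · left
    obtain ⟨rfl, rfl⟩ := h
    simp
  · right
    simp [h]
  · left
    obtain ⟨rfl, rfl⟩ := h
    simp only [Nat.add_mul, Nat.mul_assoc, one_mul, and_self, and_true]
    omega
  · left
    obtain ⟨rfl, rfl⟩ := h
    simp
    omega
  · left
    obtain ⟨rfl, rfl⟩ := h
    simp only [Nat.add_mul, Nat.mul_assoc, one_mul, and_self, and_true]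
    omega
  · left
    obtain ⟨rfl, rfl, rfl, -⟩ := h
    simp
    omega

theorem X_adj {m q w : ℕ} (hw : w = 2 * q + 1) {b : Bool} {u v : CV m q}
    (h : (snap m q b).Adj u v) :
    (X w u.1 + 1 = X w v.1 ∧ hair u.1 = 0 ∧ hair v.1 = 0) ∨
    (X w v.1 + 1 = X w u.1 ∧ hair u.1 = 0 ∧ hair v.1 = 0) ∨
    (X w u.1 = X w v.1 ∧ hair u.1 + hair v.1 = 1) := by
  rcases h with h | h <;> rcases X_edge hw h with h' | h' <;> omega

section lower

variable {m q w : ℕ} {β : ℕ → Bool}

theorem lb_gen (hw : w = 2 * q + 1) {s t : ℕ} {v x : CV m q} (hv : hair v.1 = 0)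
    (h : Arrives (chainG m q β) s v t x) (hst : s ≤ t) :
    (X w x.1 - X w v.1) + (X w v.1 - X w x.1) + hair x.1 ≤ t - s := by
  refine h.lipschitz (fun x => (X w x.1 - X w v.1) + (X w v.1 - X w x.1) + hair x.1) ?_ ?_ hst
  · simp [hv]
  · intro r x y hxy
    have := X_adj hw hxy
    omega

theorem lb_hair (hw : w = 2 * q + 1) {s t : ℕ} {i : ℕ} {v x : CV m q} (hv : v.1 = .H i)
    (hx : x ≠ v)
    (h : Arrives (chainG m q β) s v t x) (hst : s ≤ t) :
    (X w x.1 - i * w) + (i * w - X w x.1) + 1 + hair x.1 ≤ t - s := by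
  classical
  have key := h.lipschitz (fun x => if x = v then 0 else
    (X w x.1 - i * w) + (i * w - X w x.1) + 1 + hair x.1) (by simp) ?_ hst
  · simpa [hx] using key
  · intro r x y hxy
    have h1 := X_adj hw hxy
    by_cases hx : x = v
    · have h2 : hair x.1 = 1 := by rw [hx, hv]; rfl
      have h3 : X w x.1 = i * w := by rw [hx, hv]; rfl
      by_cases hy : y = v
      · rw [if_pos hy]; omega
      · rw [if_neg hy, if_pos hx]
        omega
    · by_cases hy : y = v
      · rw [if_pos hy]; omega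
      · rw [if_neg hy, if_neg hx]
        omega

end lower

section stage

variable {m q : ℕ} {β : ℕ → Bool} {pri : CV m q → ℕ} {v₀ : CV m q} {T : ℕ}

/-- Either some state with time at least `T` is reached, or a state with visited set `S`,
position `x` and time at least `L` is reached. -/
def Stage (m q : ℕ) (β : ℕ → Bool) (pri : CV m q → ℕ) (v₀ : CV m q) (T : ℕ) (S : Vx → Prop)
    (x : Vx) (L : ℕ) : Prop :=
  (∃ σ, GreedyReached (chainG m q β) pri v₀ σ ∧ T ≤ σ.time) ∨
  ∃ σ, GreedyReached (chainG m q β) pri v₀ σ ∧ (∀ v, v ∈ σ.visited ↔ S v.1) ∧ σ.pos.1 = x ∧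
    L ≤ σ.time

theorem Stage.mono {S : Vx → Prop} {x : Vx} {L L' : ℕ} (h : Stage m q β pri v₀ T S x L)
    (hL : L' ≤ L) : Stage m q β pri v₀ T S x L' := by
  rcases h with h | ⟨σ, h1, h2, h3, h4⟩
  · exact Or.inl h
  · exact Or.inr ⟨σ, h1, h2, h3, by omega⟩

theorem Stage.congr {S S' : Vx → Prop} {x : Vx} {L : ℕ} (h : Stage m q β pri v₀ T S x L)
    (hS : ∀ v, Valid m q v → (S v ↔ S' v)) : Stage m q β pri v₀ T S' x L := by
  rcases h with h | ⟨σ, h1, h2, h3, h4⟩
  · exact Or.inl h
  · exact Or.inr ⟨σ, h1, fun v => (h2 v).trans (hS v.1 v.2), h3, h4⟩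

theorem Stage.step {S S' : Vx → Prop} {x y : Vx} {L d : ℕ}
    (h : Stage m q β pri v₀ T S x L) (hx : Valid m q x) (hy : Valid m q y) (hSy : ¬ S y)
    (hS' : ∀ v, Valid m q v → (S' v ↔ v = y ∨ S v))
    (H : ∀ s < T, ∃ D ≥ d, Arrives (chainG m q β) s ⟨x, hx⟩ (s + D) ⟨y, hy⟩ ∧
      ∀ (z : Vx) (hz : Valid m q z) (t : ℕ), ¬ S z →
        Arrives (chainG m q β) s ⟨x, hx⟩ t ⟨z, hz⟩ →
        s + D ≤ t ∧ (t = s + D → pri ⟨y, hy⟩ ≤ pri ⟨z, hz⟩)) :
    Stage m q β pri v₀ T S' y (L + d) := by
  rcases h with h | ⟨σ, h1, h2, h3, h4⟩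
  · exact Or.inl h
  · rcases Nat.lt_or_ge σ.time T with h5 | h5
    · obtain ⟨D, hD, h6, h7⟩ := H σ.time h5
      right
      have hpos : σ.pos = ⟨x, hx⟩ := Subtype.ext h3
      refine ⟨⟨insert ⟨y, hy⟩ σ.visited, ⟨y, hy⟩, σ.time + D⟩, h1.tail ⟨⟨?_, ?_, ?_⟩, ?_, rfl⟩,
        ?_, rfl, ?_⟩
      · rw [h2]; exact hSy
      · rw [hpos]; exact h6
      · rintro ⟨z, hz⟩ hz' t ht
        rw [hpos] at ht
        rw [h2] at hz'
        exact (h7 z hz t hz' ht).1
      · rintro ⟨z, hz⟩ ⟨hz1, hz2, -⟩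
        rw [hpos] at hz2
        rw [h2] at hz1
        exact (h7 z hz _ hz1 hz2).2 rfl
      · intro v
        rw [Set.mem_insert_iff, h2, hS' v.1 v.2]
        constructor
        · rintro (h | h)
          · left; rw [h]
          · right; exact h
        · rintro (h | h)
          · left; exact Subtype.ext h
          · right; exact h
      · simp only
        omega
    · exact Or.inl ⟨σ, h1, h5⟩

/-- preference orders refining `pri0` -/
def Refines (pri : CV m q → ℕ) : Prop :=
  ∀ u v : CV m q, pri0 u.1 < pri0 v.1 → pri u ≤ pri v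

theorem Stage.move {S S' : Vx → Prop} {x y : Vx} {L : ℕ} (hpri : Refines pri)
    (h : Stage m q β pri v₀ T S x L) (hx : Valid m q x) (hy : Valid m q y) (hSx : S x)
    (hSy : ¬ S y) (hS' : ∀ v, Valid m q v → (S' v ↔ v = y ∨ S v))
    (hadj : ∀ b, E q b x y ∨ E q b y x)
    (htie : ∀ b z, Valid m q z → ¬ S z → (E q b x z ∨ E q b z x) → z = y ∨ pri0 y < pri0 z) :
    Stage m q β pri v₀ T S' y L := by
  refine h.step (d := 0) hx hy hSy hS' ?_
  intro s _
  refine ⟨1, Nat.zero_le _, Arrives.edge (Nat.lt_succ_self s) (le_refl _) (hadj _), ?_⟩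
  intro z hz t hz' ht
  have hne : z ≠ x := by
    rintro rfl
    exact hz' hSx
  constructor
  · by_contra hcon
    have := ht.eq_of_le (by omega)
    exact hne (congrArg Subtype.val this)
  · rintro rfl
    rcases ht.one_step with h1 | h1
    · exact absurd (congrArg Subtype.val h1) hne
    · rcases htie _ z hz hz' h1 with h2 | h2
      · subst h2; exact le_refl _
      · exact hpri _ _ h2

/-! ### One block of the chain -/

theorem ee_gt (i : ℕ) : i < ee i := by
  unfold ee
  have : 0 < 2 ^ padicValNat 2 i := by positivity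
  omega

/-- from `P j r` to `P j (r+1)` -/
theorem stage_P {j : ℕ} (hpri : Refines pri) (hj : j < m) {L : ℕ}
    (h : Stage m q β pri v₀ T (vis (2 * j) j 1 j 0 (2 * q + 1) (2 * j) (2 * j + 2)) (.P j 1) L) :
    ∀ n, n + 1 ≤ 2 * q →
    Stage m q β pri v₀ T (vis (2 * j) j (n + 1) j 0 (2 * q + 1) (2 * j) (2 * j + 2))
      (.P j (n + 1)) L := by
  intro n
  induction n with
  | zero => intro _; exact h
  | succ n ih =>
    intro hn
    refine (ih (by omega)).move hpri ⟨hj, by omega, by omega⟩ ⟨hj, by omega, by omega⟩ ?_ ?_ ?_ ?_ ?_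
    · simp [vis]
    · simp [vis]
    · intro v hv
      rcases v with i | ⟨j', r⟩ | ⟨s, j', r⟩ | i <;> (try cases s) <;> simp [vis]
      omega
    · intro b; left; simp [E]
    · intro b z hz hz' hE
      rcases z with i | ⟨j', r⟩ | ⟨s, j', r⟩ | i <;> (try cases s) <;>
        simp only [E, or_false] at hE
      · exfalso
        apply hz'
        simp only [vis]
        omega
      · left
        simp only [vis] at hz'
        rcases hE with ⟨rfl, rfl⟩ | ⟨rfl, hE⟩
        · rfl
        · exfalso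
          apply hz'
          right
          exact ⟨rfl, by omega⟩

/-- from `P j (2q)` to `J (2j+1)` -/
theorem stage_PJ {j : ℕ} (hq : 1 ≤ q) (hpri : Refines pri) (hj : j < m) {L : ℕ}
    (h : Stage m q β pri v₀ T (vis (2 * j) j (2 * q) j 0 (2 * q + 1) (2 * j) (2 * j + 2))
      (.P j (2 * q)) L) :
    Stage m q β pri v₀ T (vis (2 * j + 1) j (2 * q) j 0 (2 * q + 1) (2 * j) (2 * j + 2))
      (.J (2 * j + 1)) L := by
  refine h.move hpri ⟨hj, by omega, by omega⟩ (by simp only [Valid]; omega) ?_ ?_ ?_ ?_ ?_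
  · simp [vis]
  · simp [vis]
  · intro v hv
    rcases v with i | ⟨j', r⟩ | ⟨s, j', r⟩ | i <;> (try cases s) <;> simp [vis]
    omega
  · intro b; left; simp [E]
  · intro b z hz hz' hE
    rcases z with i | ⟨j', r⟩ | ⟨s, j', r⟩ | i <;> (try cases s) <;>
      simp only [E, or_false] at hE
    · rcases hE with hE | hE
      · left
        rw [hE.2]
      · exfalso
        apply hz'
        simp only [vis]
        omega
    · simp only [vis] at hz'
      simp only [Valid] at hz
      exfalso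
      omega

/-- from `J (2j+1)` to `A true j 1` -/
theorem stage_JA {j : ℕ} (hq : 1 ≤ q) (hpri : Refines pri) (hj : j < m) {L : ℕ}
    (h : Stage m q β pri v₀ T (vis (2 * j + 1) j (2 * q) j 0 (2 * q + 1) (2 * j) (2 * j + 2))
      (.J (2 * j + 1)) L) :
    Stage m q β pri v₀ T (vis (2 * j + 1) j (2 * q) j 1 (2 * q + 1) (2 * j) (2 * j + 2))
      (.A true j 1) L := by
  refine h.move hpri (by simp only [Valid]; omega) ⟨hj, by omega, by omega⟩ ?_ ?_ ?_ ?_ ?_
  · simp [vis]
  · simp [vis]
  · intro v hv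
    rcases v with i | ⟨j', r⟩ | ⟨s, j', r⟩ | i <;> (try cases s) <;> simp [vis]
    simp only [Valid] at hv
    omega
  · intro b; left; simp [E]
  · intro b z hz hz' hE
    rcases z with i | ⟨j', r⟩ | ⟨s, j', r⟩ | i <;> (try cases s) <;>
      simp only [E, or_false] at hE
    · exfalso
      simp only [vis] at hz'
      simp only [Valid] at hz
      omega
    · right
      simp [pri0]
    · left
      rcases hE with hE | hE
      · have : j' = j := by omega
        rw [this, hE.2]
      · exfalso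
        simp only [vis] at hz'
        simp only [Valid] at hz
        omega
    · right
      simp [pri0]

/-- waiting at a closed middle edge -/
theorem Stage.wait {S S' : Vx → Prop} {x y : Vx} {L : ℕ} (bq : Bool)
    (hgood : ∀ s < T, ∀ b, ∃ δ, 1 ≤ δ ∧ δ ≤ q ∧ β (s + δ) = b)
    (h : Stage m q β pri v₀ T S x L) (hx : Valid m q x) (hy : Valid m q y) (hSx : S x)
    (hSy : ¬ S y) (hS' : ∀ v, Valid m q v → (S' v ↔ v = y ∨ S v))
    (hadj : E q bq x y ∨ E q bq y x)
    (R : ℕ → Vx → Prop) (hR0 : R 0 x) (hRS : ∀ d v, d < q → R d v → S v)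
    (hRmono : ∀ d v, R d v → R (d + 1) v)
    (hstep : ∀ d, d + 1 < q → ∀ b, b ≠ bq → ∀ u v, R d u → (E q b u v ∨ E q b v u) →
      R (d + 1) v)
    (hlast : ∀ d, d < q → ∀ b u v, R d u → Valid m q v → (E q b u v ∨ E q b v u) →
      S v ∨ v = y) :
    Stage m q β pri v₀ T S' y L := by
  classical
  refine h.step (d := 0) hx hy hSy hS' ?_
  intro s hs
  have hex : ∃ δ, 1 ≤ δ ∧ β (s + δ) = bq := by
    obtain ⟨δ, h1, -, h2⟩ := hgood s hs bq
    exact ⟨δ, h1, h2⟩
  obtain ⟨δ, hδ1, hδq, hδ, hmin⟩ : ∃ δ, 1 ≤ δ ∧ δ ≤ q ∧ β (s + δ) = bq ∧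
      ∀ δ', 1 ≤ δ' → δ' < δ → β (s + δ') ≠ bq := by
    refine ⟨Nat.find hex, (Nat.find_spec hex).1, ?_, (Nat.find_spec hex).2, ?_⟩
    · obtain ⟨δ, h1, h1', h2⟩ := hgood s hs bq
      exact (Nat.find_le ⟨h1, h2⟩).trans h1'
    · intro δ' h1 h2 h3
      exact Nat.find_min hex h2 ⟨h1, h3⟩
  refine ⟨δ, Nat.zero_le _, Arrives.edge (r := s + δ) (by omega) (le_refl _) ?_, ?_⟩
  · change E q (β (s + δ)) x y ∨ E q (β (s + δ)) y x
    rw [hδ]
    exact hadj
  intro z hz t hz' ht
  have hne : z ≠ x := by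
    rintro rfl
    exact hz' hSx
  have hst : s ≤ t := by
    by_contra hcon
    have := ht.eq_of_le (by omega)
    exact hne (congrArg Subtype.val this)
  have ball : ∀ d ≤ δ, Arrives (chainG m q β) s ⟨x, hx⟩ (s + d) ⟨z, hz⟩ →
      if d < δ then R d z else (S z ∨ z = y) := by
    intro d hd hzd
    have := Arrives.mem_ball (G := chainG m q β) (s := s) (D := δ) (v := ⟨x, hx⟩)
      (B := fun d => {v : CV m q | if d < δ then R d v.1 else (S v.1 ∨ v.1 = y)}) (by
        simp only [Set.mem_ofPred_eq]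
        rw [if_pos (by omega)]
        exact hR0) (by
        intro d hd v hv
        simp only [Set.mem_ofPred_eq] at hv ⊢
        rw [if_pos hd] at hv
        by_cases h1 : d + 1 < δ
        · rw [if_pos h1]
          exact hRmono _ _ hv
        · rw [if_neg h1]
          left
          exact hRS d _ (by omega) hv) (by
        intro d hd u hu v huv
        simp only [Set.mem_ofPred_eq] at hu ⊢
        rw [if_pos hd] at hu
        by_cases h1 : d + 1 < δ
        · rw [if_pos h1]
          refine hstep d (by omega) _ ?_ u.1 v.1 hu huv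
          have := hmin (d + 1) (by omega) h1
          rw [Nat.add_assoc]
          exact this
        · rw [if_neg h1]
          exact hlast d (by omega) _ u.1 v.1 hu v.2 huv) hd hzd
    exact this
  rcases Nat.lt_or_ge t (s + δ) with h1 | h1
  · exfalso
    have h2 : s + (t - s) = t := by omega
    have h3 := ball (t - s) (by omega) (by rw [h2]; exact ht)
    rw [if_pos (by omega)] at h3
    exact hz' (hRS _ _ (by omega) h3)
  · refine ⟨h1, ?_⟩
    rintro rfl
    have h3 := ball δ (le_refl _) ht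
    rw [if_neg (by omega)] at h3
    rcases h3 with h3 | h3
    · exact absurd h3 hz'
    · subst h3
      exact le_refl _

/-- from `A true j r` to `A true j (r+1)`, `r ≠ q` -/
theorem stage_A {j r : ℕ} (hr : 1 ≤ r) (hrq : r ≠ q) (hr2 : r + 1 ≤ 2 * q) (hpri : Refines pri)
    (hj : j < m) {L : ℕ}
    (h : Stage m q β pri v₀ T (vis (2 * j + 1) j (2 * q) j r (2 * q + 1) (2 * j) (2 * j + 2))
      (.A true j r) L) :
    Stage m q β pri v₀ T (vis (2 * j + 1) j (2 * q) j (r + 1) (2 * q + 1) (2 * j) (2 * j + 2))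
      (.A true j (r + 1)) L := by
  refine h.move hpri ⟨hj, by omega, by omega⟩ ⟨hj, by omega, by omega⟩ ?_ ?_ ?_ ?_ ?_
  · simp [vis]
  · simp [vis]
  · intro v hv
    rcases v with i | ⟨j', r⟩ | ⟨s, j', r⟩ | i <;> (try cases s) <;> simp [vis]
    omega
  · intro b; left; simp [E, hrq]
  · intro b z hz hz' hE
    rcases z with i | ⟨j', r⟩ | ⟨s, j', r⟩ | i <;> (try cases s) <;>
      simp only [E, or_false] at hE
    · exfalso
      simp only [vis] at hz'
      omega
    · exfalso
      simp at hE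
    · left
      rcases hE with hE | hE
      · rw [hE.2.1, hE.2.2.1]
      · exfalso
        simp only [vis] at hz'
        omega

/-- from `A true j q` to `A true j (q+1)` -/
theorem stage_Aq {j : ℕ} (hq : 1 ≤ q)
    (hgood : ∀ s < T, ∀ b, ∃ δ, 1 ≤ δ ∧ δ ≤ q ∧ β (s + δ) = b)
    (hj : j < m) {L : ℕ}
    (h : Stage m q β pri v₀ T (vis (2 * j + 1) j (2 * q) j q (2 * q + 1) (2 * j) (2 * j + 2))
      (.A true j q) L) :
    Stage m q β pri v₀ T (vis (2 * j + 1) j (2 * q) j (q + 1) (2 * q + 1) (2 * j) (2 * j + 2))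
      (.A true j (q + 1)) L := by
  refine h.wait true hgood ⟨hj, by omega, by omega⟩ ⟨hj, by omega, by omega⟩ ?_ ?_ ?_ ?_
    (fun d v => ∃ r, q - d ≤ r ∧ r ≤ q ∧ v = .A true j r) ⟨q, by omega, le_refl _, rfl⟩ ?_ ?_ ?_ ?_
  · simp [vis]
  · simp [vis]
  · intro v hv
    rcases v with i | ⟨j', r⟩ | ⟨s, j', r⟩ | i <;> (try cases s) <;> simp [vis]
    omega
  · left; simp [E]
  · rintro d v hd ⟨r, h1, h2, rfl⟩
    simp [vis, h2]
  · rintro d v ⟨r, h1, h2, rfl⟩
    exact ⟨r, by omega, h2, rfl⟩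
  · rintro d hd b hb u v ⟨r, h1, h2, rfl⟩ hE
    rcases v with i | ⟨j', r'⟩ | ⟨s, j', r'⟩ | i <;> (try cases s) <;>
      simp only [E, or_false] at hE
    · exfalso; omega
    · exfalso; simp at hE
    · rcases hE with ⟨-, rfl, rfl, h3⟩ | ⟨-, rfl, h3, h4⟩
      · refine ⟨r + 1, by omega, ?_, rfl⟩
        by_contra hcon
        exact hb (h3 (by omega))
      · exact ⟨r', by omega, by omega, rfl⟩
  · rintro d hd b u v ⟨r, h1, h2, rfl⟩ hv hE
    rcases v with i | ⟨j', r'⟩ | ⟨s, j', r'⟩ | i <;> (try cases s) <;>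
      simp only [E, or_false] at hE
    · left
      simp only [vis]
      omega
    · exfalso; simp at hE
    · rcases hE with ⟨-, rfl, rfl, h3⟩ | ⟨-, rfl, h3, h4⟩
      · by_cases h5 : r = q
        · right; rw [h5]
        · left
          exact Or.inr ⟨rfl, by omega⟩
      · left
        exact Or.inr ⟨rfl, by omega⟩

/-- from `A true j (2q)` to `J (2j+2)` -/
theorem stage_AJ {j : ℕ} (hq : 1 ≤ q) (hpri : Refines pri) (hj : j < m) {L : ℕ}
    (h : Stage m q β pri v₀ T (vis (2 * j + 1) j (2 * q) j (2 * q) (2 * q + 1) (2 * j) (2 * j + 2))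
      (.A true j (2 * q)) L) :
    Stage m q β pri v₀ T (vis (2 * j + 2) j (2 * q) j (2 * q) (2 * q + 1) (2 * j) (2 * j + 2))
      (.J (2 * j + 2)) L := by
  refine h.move hpri ⟨hj, by omega, by omega⟩ (by simp only [Valid]; omega) ?_ ?_ ?_ ?_ ?_
  · simp [vis]
  · simp [vis]
  · intro v hv
    rcases v with i | ⟨j', r⟩ | ⟨s, j', r⟩ | i <;> (try cases s) <;> simp [vis]
    omega
  · intro b; left; simp [E]
  · intro b z hz hz' hE
    rcases z with i | ⟨j', r⟩ | ⟨s, j', r⟩ | i <;> (try cases s) <;>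
      simp only [E, or_false] at hE
    · rcases hE with hE | hE
      · left
        rw [hE.2]
      · exfalso
        apply hz'
        simp only [vis]
        omega
    · exfalso
      simp at hE
    · exfalso
      simp only [vis] at hz'
      simp only [Valid] at hz
      omega

/-- from `J (2j+2)` to `A false j (2q)` -/
theorem stage_JB {j : ℕ} (hq : 1 ≤ q) (hpri : Refines pri) (hj : j < m) {L : ℕ}
    (h : Stage m q β pri v₀ T (vis (2 * j + 2) j (2 * q) j (2 * q) (2 * q + 1) (2 * j) (2 * j + 2))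
      (.J (2 * j + 2)) L) :
    Stage m q β pri v₀ T (vis (2 * j + 2) j (2 * q) j (2 * q) (2 * q) (2 * j) (2 * j + 2))
      (.A false j (2 * q)) L := by
  refine h.move hpri (by simp only [Valid]; omega) ⟨hj, by omega, by omega⟩ ?_ ?_ ?_ ?_ ?_
  · simp [vis]
  · simp [vis]
  · intro v hv
    rcases v with i | ⟨j', r⟩ | ⟨s, j', r⟩ | i <;> (try cases s) <;> simp [vis]
    simp only [Valid] at hv
    omega
  · intro b; right; simp [E]
  · intro b z hz hz' hE
    rcases z with i | ⟨j', r⟩ | ⟨s, j', r⟩ | i <;> (try cases s) <;>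
      simp only [E, or_false] at hE
    · right
      simp [pri0]
    · left
      rcases hE with hE | hE
      · exfalso
        omega
      · have : j' = j := by omega
        rw [this, hE.1]
    · exfalso
      simp only [vis] at hz'
      simp only [Valid] at hz
      omega
    · right
      simp [pri0]

/-- from `A false j (r+1)` to `A false j r`, `r ≠ q` -/
theorem stage_B {j r : ℕ} (hr : 1 ≤ r) (hrq : r ≠ q) (hr2 : r + 1 ≤ 2 * q) (hpri : Refines pri)
    (hj : j < m) {L : ℕ}
    (h : Stage m q β pri v₀ T (vis (2 * j + 2) j (2 * q) j (2 * q) (r + 1) (2 * j) (2 * j + 2))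
      (.A false j (r + 1)) L) :
    Stage m q β pri v₀ T (vis (2 * j + 2) j (2 * q) j (2 * q) r (2 * j) (2 * j + 2))
      (.A false j r) L := by
  refine h.move hpri ⟨hj, by omega, by omega⟩ ⟨hj, by omega, by omega⟩ ?_ ?_ ?_ ?_ ?_
  · simp [vis]
  · simp [vis]
  · intro v hv
    rcases v with i | ⟨j', r⟩ | ⟨s, j', r⟩ | i <;> (try cases s) <;> simp [vis]
    omega
  · intro b; right; simp [E, hrq]
  · intro b z hz hz' hE
    rcases z with i | ⟨j', r'⟩ | ⟨s, j', r'⟩ | i <;> (try cases s) <;>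
      simp only [E, or_false] at hE
    · exfalso
      simp only [vis] at hz'
      omega
    · left
      rcases hE with hE | hE
      · exfalso
        simp only [vis] at hz'
        omega
      · have h1 : j = j' := by omega
        have h2 : r = r' := by omega
        rw [h1, h2]
    · exfalso
      simp at hE

/-- from `A false j (q+1)` to `A false j q` -/
theorem stage_Bq {j : ℕ} (hq : 1 ≤ q)
    (hgood : ∀ s < T, ∀ b, ∃ δ, 1 ≤ δ ∧ δ ≤ q ∧ β (s + δ) = b)
    (hj : j < m) {L : ℕ}
    (h : Stage m q β pri v₀ T (vis (2 * j + 2) j (2 * q) j (2 * q) (q + 1) (2 * j) (2 * j + 2))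
      (.A false j (q + 1)) L) :
    Stage m q β pri v₀ T (vis (2 * j + 2) j (2 * q) j (2 * q) q (2 * j) (2 * j + 2))
      (.A false j q) L := by
  refine h.wait false hgood ⟨hj, by omega, by omega⟩ ⟨hj, by omega, by omega⟩ ?_ ?_ ?_ ?_
    (fun d v => ∃ r, q + 1 ≤ r ∧ r ≤ q + 1 + d ∧ v = .A false j r)
    ⟨q + 1, by omega, le_refl _, rfl⟩ ?_ ?_ ?_ ?_
  · simp [vis]
  · simp [vis]
  · intro v hv
    rcases v with i | ⟨j', r⟩ | ⟨s, j', r⟩ | i <;> (try cases s) <;> simp [vis]
    omega
  · right; simp [E]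
  · rintro d v hd ⟨r, h1, h2, rfl⟩
    simp [vis, h1]
  · rintro d v ⟨r, h1, h2, rfl⟩
    exact ⟨r, by omega, by omega, rfl⟩
  · rintro d hd b hb u v ⟨r, h1, h2, rfl⟩ hE
    rcases v with i | ⟨j', r'⟩ | ⟨s, j', r'⟩ | i <;> (try cases s) <;>
      simp only [E, or_false] at hE
    · exfalso; omega
    · rcases hE with ⟨-, rfl, rfl, h3⟩ | ⟨-, rfl, h3, h4⟩
      · exact ⟨r + 1, by omega, by omega, rfl⟩
      · refine ⟨r', ?_, by omega, rfl⟩
        by_contra hcon
        exact hb (h4 (by omega))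
    · exfalso; simp at hE
  · rintro d hd b u v ⟨r, h1, h2, rfl⟩ hv hE
    rcases v with i | ⟨j', r'⟩ | ⟨s, j', r'⟩ | i <;> (try cases s) <;>
      simp only [E, or_false] at hE
    · left
      simp only [vis]
      omega
    · rcases hE with ⟨-, rfl, rfl, h3⟩ | ⟨-, rfl, h3, h4⟩
      · left
        exact Or.inr ⟨rfl, by omega⟩
      · by_cases h5 : r' = q
        · right; rw [h5]
        · left
          exact Or.inr ⟨rfl, by omega⟩
    · exfalso; simp at hE

/-! ### Arithmetic of `ee` -/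

theorem val_spec {i : ℕ} (hi : 0 < i) : ∃ c, i = 2 ^ padicValNat 2 i * (2 * c + 1) := by
  obtain ⟨k, n, hn, h⟩ := Nat.exists_eq_two_pow_mul_odd (n := i) (by omega)
  obtain ⟨c, rfl⟩ := hn
  have h1 : padicValNat 2 i = k := by
    rw [h, padicValNat.mul (by positivity) (by omega), padicValNat.prime_pow,
      padicValNat.eq_zero_of_not_dvd (by omega), Nat.add_zero]
  exact ⟨c, by rw [h1]; exact h⟩

theorem val_eq {i a c : ℕ} (h : i = 2 ^ a * (2 * c + 1)) : padicValNat 2 i = a := by
  rw [h, padicValNat.mul (by positivity) (by omega), padicValNat.prime_pow,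
      padicValNat.eq_zero_of_not_dvd (by omega), Nat.add_zero]

theorem le_val {i a : ℕ} (hi : 0 < i) (h : 2 ^ a ∣ i) : a ≤ padicValNat 2 i :=
  (padicValNat_dvd_iff_le (p := 2) (by omega)).1 h

theorem two_dvd_ee {i : ℕ} (hi : 0 < i) : 2 ∣ ee i := by
  obtain ⟨c, hc⟩ := val_spec hi
  unfold ee
  generalize padicValNat 2 i = a at hc ⊢
  refine ⟨2 ^ a * (c + 1), ?_⟩
  rw [hc]
  ring

theorem ee_eq {i N : ℕ} (hi : 0 < i) (h : ee i = N) :
    padicValNat 2 i < padicValNat 2 N ∧ i + 2 ^ padicValNat 2 i = N := by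
  refine ⟨?_, h⟩
  obtain ⟨c, hc⟩ := val_spec hi
  unfold ee at h
  generalize padicValNat 2 i = a at hc h ⊢
  have h2 : 2 ^ (a + 1) ∣ N := by
    refine ⟨c + 1, ?_⟩
    rw [← h, hc]
    ring
  have := le_val (by have : 0 < 2 ^ a := by positivity
                     omega) h2
  omega

theorem ee_sub {N t : ℕ} (hN : 0 < N) (ht : t < padicValNat 2 N) :
    2 ^ (t + 1) ≤ N ∧ padicValNat 2 (N - 2 ^ t) = t ∧ ee (N - 2 ^ t) = N := by
  have h1 : 2 ^ (t + 1) ∣ N := (padicValNat_dvd_iff_le (p := 2) (by omega)).2 ht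
  obtain ⟨c, hc⟩ := h1
  have hc0 : 0 < c := by
    rcases Nat.eq_zero_or_pos c with h | h
    · subst h; omega
    · exact h
  obtain ⟨c, rfl⟩ : ∃ c', c = c' + 1 := ⟨c - 1, by omega⟩
  have h2 : N - 2 ^ t = 2 ^ t * (2 * c + 1) := by
    rw [hc, pow_succ]
    have : 2 ^ t * 2 * (c + 1) = 2 ^ t * (2 * c + 1) + 2 ^ t := by ring
    omega
  have h3 : padicValNat 2 (N - 2 ^ t) = t := val_eq h2
  have h4 : 2 ^ (t + 1) ≤ N := by
    rw [hc]
    exact Nat.le_mul_of_pos_right _ (by omega)
  refine ⟨h4, h3, ?_⟩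
  unfold ee
  rw [h3]
  have : 2 ^ t ≤ 2 ^ (t + 1) := Nat.pow_le_pow_right (by omega) (by omega)
  omega

theorem ee_far {i N : ℕ} (hi : 0 < i) (hiN : i < N) (h : N < ee i) :
    i + 2 ^ padicValNat 2 N ≤ N := by
  obtain ⟨c, hc⟩ := val_spec hi
  unfold ee at h
  have hval : padicValNat 2 N < padicValNat 2 i := by
    by_contra hcon
    have h1 : 2 ^ padicValNat 2 i ∣ N :=
      (padicValNat_dvd_iff_le (p := 2) (by omega)).2 (by omega)
    obtain ⟨d, hd⟩ := h1
    generalize padicValNat 2 i = a at *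
    have h2 : 2 * c + 1 < d := by
      by_contra h3
      have : 2 ^ a * d ≤ 2 ^ a * (2 * c + 1) := Nat.mul_le_mul_left _ (by omega)
      omega
    have h3 : 2 ^ a * (2 * c + 2) ≤ 2 ^ a * d := Nat.mul_le_mul_left _ (by omega)
    have h4 : 2 ^ a * (2 * c + 2) = 2 ^ a * (2 * c + 1) + 2 ^ a := by ring
    omega
  have h1 : 2 ^ padicValNat 2 N ∣ N := (padicValNat_dvd_iff_le (p := 2) (by omega)).2 (le_refl _)
  have h2 : 2 ^ padicValNat 2 N ∣ i :=
    (padicValNat_dvd_iff_le (p := 2) (by omega)).2 (by omega)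
  have h3 := Nat.le_of_dvd (by omega) (Nat.dvd_sub h1 h2)
  omega

theorem val_sub_self {N : ℕ} (hN : 0 < N) (h : 0 < N - 2 ^ padicValNat 2 N) :
    padicValNat 2 N < padicValNat 2 (N - 2 ^ padicValNat 2 N) := by
  obtain ⟨c, hc⟩ := val_spec hN
  have h1 : 2 ^ (padicValNat 2 N + 1) ∣ N - 2 ^ padicValNat 2 N := by
    refine ⟨c, ?_⟩
    generalize padicValNat 2 N = a at *
    have : 2 ^ a * (2 * c + 1) = 2 ^ (a + 1) * c + 2 ^ a := by ring
    omega
  have := le_val h h1
  omega

/-- unvisited hairs during the hair-hopping phase -/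
theorem unvisited_hair {i j t : ℕ} (hi : 0 < i) (ht : t < padicValNat 2 (2 * j + 2))
    (h1 : ¬ ee i ≤ 2 * j)
    (h2 : ¬ (ee i = 2 * j + 2 ∧ 2 * j + 2 - 2 ^ t ≤ i)) :
    2 * j + 2 ≤ i ∨ i + 2 ^ (t + 1) ≤ 2 * j + 2 := by
  obtain ⟨c, hc⟩ := two_dvd_ee hi
  have hpow : 2 ^ (t + 1) = 2 * 2 ^ t := by ring
  rcases Nat.lt_or_ge i (2 * j + 2) with h3 | h3
  · right
    by_cases h4 : ee i = 2 * j + 2
    · obtain ⟨h5, h6⟩ := ee_eq hi h4
      have h7 : i < 2 * j + 2 - 2 ^ t := by
        by_contra hcon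
        exact h2 ⟨h4, by omega⟩
      have h8 : t < padicValNat 2 i := by
        by_contra hcon
        have : 2 ^ padicValNat 2 i ≤ 2 ^ t := Nat.pow_le_pow_right (by omega) (by omega)
        omega
      have h9 : 2 ^ (t + 1) ≤ 2 ^ padicValNat 2 i := Nat.pow_le_pow_right (by omega) h8
      omega
    · have h5 : 2 * j + 2 < ee i := by omega
      have h6 := ee_far hi h3 h5
      have h7 : 2 ^ (t + 1) ≤ 2 ^ padicValNat 2 (2 * j + 2) :=
        Nat.pow_le_pow_right (by omega) ht
      omega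
  · left; exact h3

/-- from `A false j 1` to `H (2j+1)` -/
theorem stage_BH {j : ℕ} (hq : 1 ≤ q) (hj : j < m) {L : ℕ}
    (h : Stage m q β pri v₀ T (vis (2 * j + 2) j (2 * q) j (2 * q) 1 (2 * j) (2 * j + 2))
      (.A false j 1) L) :
    Stage m q β pri v₀ T (vis (2 * j + 2) j (2 * q) j (2 * q) 1 (2 * j) (2 * j + 2 - 2 ^ 0))
      (.H (2 * j + 1)) L := by
  obtain ⟨w, hw⟩ : ∃ w, w = 2 * q + 1 := ⟨_, rfl⟩
  have hx : Valid m q (.A false j 1) := ⟨hj, by omega, by omega⟩
  have hy : Valid m q (.H (2 * j + 1)) := ⟨by omega, by omega⟩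
  have hJ : Valid m q (.J (2 * j + 1)) := by simp only [Valid]; omega
  have hval : 0 < padicValNat 2 (2 * j + 2) :=
    le_val (by omega) (by rw [pow_one]; exact ⟨j + 1, by ring⟩)
  have hee : ee (2 * j + 1) = 2 * j + 2 := (ee_sub (by omega) hval).2.2
  refine (h.step (d := 0) hx hy ?_ ?_ ?_).mono (by omega)
  · simp only [vis, hee]
    omega
  · intro v hv
    rcases v with i | ⟨j', r⟩ | ⟨s, j', r⟩ | i <;> (try cases s) <;> simp only [vis] <;> simp
    constructor
    · rintro (h1 | ⟨h1, h2⟩)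
      · omega
      · have := ee_gt i
        omega
    · rintro (h1 | h1 | ⟨h1, h2⟩)
      · subst h1
        omega
      · omega
      · omega
  · intro s hs
    refine ⟨2, Nat.zero_le _, ?_, ?_⟩
    · have h1 : Arrives (chainG m q β) s ⟨.A false j 1, hx⟩ (s + 1) ⟨.J (2 * j + 1), hJ⟩ :=
        Arrives.edge (Nat.lt_succ_self s) (le_refl _) (Or.inr (by simp [E]))
      have h2 : Arrives (chainG m q β) (s + 1) ⟨.J (2 * j + 1), hJ⟩ (s + 2)
          ⟨.H (2 * j + 1), hy⟩ :=
        Arrives.edge (r := s + 2) (by omega) (le_refl _) (Or.inl (by simp [E]))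
      exact h1.trans h2 (by omega) (by omega)
    · intro z hz t hz' ht
      have hne : z ≠ .A false j 1 := by
        rintro rfl
        exact hz' (by simp [vis])
      have hst : s ≤ t := by
        by_contra hcon
        have := ht.eq_of_le (by omega)
        exact hne (congrArg Subtype.val this)
      have hlb := lb_gen hw rfl ht hst
      have hX : X w (.A false j 1) = 2 * (j * w) + w + 1 := by
        simp only [X, Nat.add_mul, Nat.mul_assoc, one_mul]
      simp only [hX] at hlb
      have key : z = .H (2 * j + 1) ∨ 3 ≤ t - s := by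
        rcases z with i | ⟨j', r⟩ | ⟨b, j', r⟩ | i <;> (try cases b) <;>
          simp only [vis] at hz' <;> simp only [Valid] at hz <;> simp only [X, hair] at hlb
        · right
          have h1 : (2 * j + 3) * w ≤ i * w := Nat.mul_le_mul_right w (by omega)
          simp only [Nat.add_mul, Nat.mul_assoc] at h1
          omega
        · right
          have h1 : (j + 1) * w ≤ j' * w := Nat.mul_le_mul_right w (by omega)
          simp only [Nat.add_mul, Nat.mul_assoc, one_mul] at h1 hlb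
          omega
        · right
          have h1 : (j + 1) * w ≤ j' * w := Nat.mul_le_mul_right w (by omega)
          simp only [Nat.add_mul, Nat.mul_assoc, one_mul] at h1 hlb
          omega
        · right
          have h1 : (j + 1) * w ≤ j' * w := Nat.mul_le_mul_right w (by omega)
          simp only [Nat.add_mul, Nat.mul_assoc, one_mul] at h1 hlb
          omega
        · by_cases h2 : i = 2 * j + 1
          · left; rw [h2]
          · right
            rcases Nat.lt_or_ge i (2 * j + 1) with h3 | h3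
            · have h1 : i * w ≤ (2 * j) * w := Nat.mul_le_mul_right w (by omega)
              simp only [Nat.add_mul, Nat.mul_assoc, one_mul] at h1 hlb
              omega
            · have h1 : (2 * j + 2) * w ≤ i * w := Nat.mul_le_mul_right w (by omega)
              simp only [Nat.add_mul, Nat.mul_assoc, one_mul] at h1 hlb
              omega
      rcases key with key | key
      · subst key
        have hX2 : X w (.H (2 * j + 1)) = 2 * (j * w) + w := by
          simp only [X, Nat.add_mul, Nat.mul_assoc, one_mul]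
        simp only [hX2, hair] at hlb
        exact ⟨by omega, fun _ => le_refl _⟩
      · exact ⟨by omega, fun h => by omega⟩

theorem hop_lb {j t w : ℕ} (hw : w = 2 * q + 1) (hq : 1 ≤ q)
    (ht : t < padicValNat 2 (2 * j + 2)) {z : Vx}
    (hz : Valid m q z)
    (hz' : ¬ vis (2 * j + 2) j (2 * q) j (2 * q) 1 (2 * j) (2 * j + 2 - 2 ^ t) z) :
    2 ^ t * w + 2 ≤ (X w z - (2 * j + 2 - 2 ^ t) * w) + ((2 * j + 2 - 2 ^ t) * w - X w z) + 1
      + hair z ∧
    ((X w z - (2 * j + 2 - 2 ^ t) * w) + ((2 * j + 2 - 2 ^ t) * w - X w z) + 1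
      + hair z ≤ 2 ^ t * w + 2 → z = .P (j + 1) 1 ∨ z = .H (2 * j + 2) ∨
        z = .H (2 * j + 2 - 2 ^ (t + 1))) := by
  obtain ⟨hle, -, -⟩ := ee_sub (by omega) ht
  have hpow : 2 ^ (t + 1) = 2 * 2 ^ t := by ring
  have hpos : 0 < 2 ^ t := by positivity
  obtain ⟨i0, hi0⟩ : ∃ i0, i0 = 2 * j + 2 - 2 ^ t := ⟨_, rfl⟩
  rw [← hi0] at hz' ⊢
  have hsum : i0 * w + 2 ^ t * w = 2 * (j * w) + 2 * w := by
    rw [← Nat.add_mul]
    have : i0 + 2 ^ t = 2 * j + 2 := by omega
    rw [this]
    ring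
  rcases z with i | ⟨j', r⟩ | ⟨b, j', r⟩ | i
  · simp only [vis] at hz'
    simp only [X, hair]
    have h1 : (2 * j + 3) * w ≤ i * w := Nat.mul_le_mul_right w (by omega)
    simp only [Nat.add_mul, Nat.mul_assoc] at h1
    omega
  · simp only [vis] at hz'
    simp only [Valid] at hz
    simp only [X, hair]
    rcases Nat.lt_or_ge (j + 1) j' with h3 | h3
    · have h1 : (j + 2) * w ≤ j' * w := Nat.mul_le_mul_right w (by omega)
      simp only [Nat.add_mul, Nat.mul_assoc] at h1 ⊢
      omega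
    · have h4 : j' = j + 1 := by omega
      subst h4
      simp only [Nat.add_mul, Nat.mul_assoc, one_mul, Nat.mul_add]
      refine ⟨by omega, fun h5 => ?_⟩
      have h6 : r = 1 := by omega
      left
      rw [h6]
  · have h2 : j + 1 ≤ j' := by
      cases b <;> simp only [vis] at hz' <;> simp only [Valid] at hz <;> omega
    simp only [Valid] at hz
    simp only [X, hair]
    have h1 : (j + 1) * w ≤ j' * w := Nat.mul_le_mul_right w (by omega)
    simp only [Nat.add_mul, Nat.mul_assoc, one_mul] at h1 ⊢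
    omega
  · simp only [Valid] at hz
    simp only [vis, hi0] at hz'
    simp only [X, hair]
    have h1 := unvisited_hair (i := i) (by omega) ht (fun h => hz' (Or.inl h))
      (fun h => hz' (Or.inr h))
    rcases h1 with h1 | h1
    · rcases Nat.lt_or_ge (2 * j + 2) i with h2 | h2
      · have h3 : (2 * j + 3) * w ≤ i * w := Nat.mul_le_mul_right w (by omega)
        simp only [Nat.add_mul, Nat.mul_assoc] at h3 ⊢
        omega
      · have h4 : i = 2 * j + 2 := by omega
        subst h4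
        simp only [Nat.add_mul, Nat.mul_assoc, one_mul]
        refine ⟨by omega, fun h5 => ?_⟩
        right; left; trivial
    · have h3 : i * w + 2 ^ (t + 1) * w ≤ 2 * (j * w) + 2 * w := by
        rw [← Nat.add_mul]
        have : 2 * (j * w) + 2 * w = (2 * j + 2) * w := by ring
        rw [this]
        exact Nat.mul_le_mul_right w (by omega)
      have h4 : 2 ^ (t + 1) * w = 2 * (2 ^ t * w) := by rw [hpow]; ring
      refine ⟨by omega, fun h5 => ?_⟩
      right; right
      have h6 : ¬ (i + 2 ^ (t + 1) < 2 * j + 2) := by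
        intro h7
        have h8 : i * w + 2 ^ (t + 1) * w + w ≤ 2 * (j * w) + 2 * w := by
          have h9 : i * w + 2 ^ (t + 1) * w + w = (i + 2 ^ (t + 1) + 1) * w := by ring
          have : 2 * (j * w) + 2 * w = (2 * j + 2) * w := by ring
          rw [this, h9]
          exact Nat.mul_le_mul_right w (by omega)
        omega
      have : i = 2 * j + 2 - 2 ^ (t + 1) := by omega
      rw [← this]

theorem hair_left (hq : 1 ≤ q) {i n : ℕ} (hi : 1 ≤ i) (hn : i + n < 2 * m) (s : ℕ) :
    Arrives (chainG m q β) s ⟨.H (i + n), ⟨by omega, hn⟩⟩ (s + (n * (2 * q + 1) + 2))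
      ⟨.H i, ⟨hi, by omega⟩⟩ := by
  have h1 : Arrives (chainG m q β) s ⟨.H (i + n), ⟨by omega, hn⟩⟩ (s + 1)
      ⟨.J (i + n), by simp only [Valid]; omega⟩ :=
    Arrives.edge (Nat.lt_succ_self s) (le_refl _) (Or.inr (by simp [E]))
  have h2 := h1.trans (cross_left_many (m := m) (β := β) hq n (i := i) (by omega) (s + 1))
    (by omega) (by omega)
  have h3 : Arrives (chainG m q β) (s + 1 + n * (2 * q + 1))
      ⟨.J i, by simp only [Valid]; omega⟩ (s + 1 + n * (2 * q + 1) + 1) ⟨.H i, ⟨hi, by omega⟩⟩ :=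
    Arrives.edge (Nat.lt_succ_self _) (le_refl _) (Or.inl (by simp [E]))
  have h4 := h2.trans h3 (by omega) (by omega)
  have h5 : s + 1 + n * (2 * q + 1) + 1 = s + (n * (2 * q + 1) + 2) := by ring
  rw [h5] at h4
  exact h4

theorem hair_right (hq : 1 ≤ q) {i n j' : ℕ} (hi : 1 ≤ i) (hn : i + n = 2 * j') (hj : j' < m)
    (s : ℕ) :
    Arrives (chainG m q β) s ⟨.H i, ⟨by omega, by omega⟩⟩ (s + (n * (2 * q + 1) + 2))
      ⟨.P j' 1, ⟨hj, by omega, by omega⟩⟩ := by
  have h1 : Arrives (chainG m q β) s ⟨.H i, ⟨by omega, by omega⟩⟩ (s + 1)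
      ⟨.J i, by simp only [Valid]; omega⟩ :=
    Arrives.edge (Nat.lt_succ_self s) (le_refl _) (Or.inr (by simp [E]))
  have h2 := h1.trans (cross_right_many (m := m) (β := β) hq (i := i) (s + 1) n (by omega))
    (by omega) (by omega)
  have h3 : Arrives (chainG m q β) (s + 1 + n * (2 * q + 1))
      ⟨.J (i + n), by simp only [Valid]; omega⟩ (s + 1 + n * (2 * q + 1) + 1)
      ⟨.P j' 1, ⟨hj, by omega, by omega⟩⟩ :=
    Arrives.edge (Nat.lt_succ_self _) (le_refl _) (Or.inl (by simp [E, hn]))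
  have h4 := h2.trans h3 (by omega) (by omega)
  have h5 : s + 1 + n * (2 * q + 1) + 1 = s + (n * (2 * q + 1) + 2) := by ring
  rw [h5] at h4
  exact h4

/-- from `H (N - 2^t)` to `H (N - 2^(t+1))`, where `N = 2j+2`, `t + 1 < ν(N)` -/
theorem stage_hop {j t : ℕ} (hq : 1 ≤ q) (hpri : Refines pri) (hj : j < m)
    (ht : t + 1 < padicValNat 2 (2 * j + 2)) {L : ℕ}
    (h : Stage m q β pri v₀ T (vis (2 * j + 2) j (2 * q) j (2 * q) 1 (2 * j) (2 * j + 2 - 2 ^ t))
      (.H (2 * j + 2 - 2 ^ t)) L) :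
    Stage m q β pri v₀ T (vis (2 * j + 2) j (2 * q) j (2 * q) 1 (2 * j) (2 * j + 2 - 2 ^ (t + 1)))
      (.H (2 * j + 2 - 2 ^ (t + 1))) (L + 2 ^ t * (2 * q + 1)) := by
  obtain ⟨w, hw⟩ : ∃ w, w = 2 * q + 1 := ⟨_, rfl⟩
  rw [← hw]
  obtain ⟨hle, hval, hee⟩ := ee_sub (by omega) ht
  obtain ⟨hle0, hval0, hee0⟩ := ee_sub (N := 2 * j + 2) (t := t) (by omega) (by omega)
  have hpow : 2 ^ (t + 1) = 2 * 2 ^ t := by ring
  have hpow2 : 2 ^ (t + 1 + 1) = 4 * 2 ^ t := by ring
  have hpos : 0 < 2 ^ t := by positivity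
  have hx : Valid m q (.H (2 * j + 2 - 2 ^ t)) := ⟨by omega, by omega⟩
  have hy : Valid m q (.H (2 * j + 2 - 2 ^ (t + 1))) := ⟨by omega, by omega⟩
  refine h.step hx hy ?_ ?_ ?_
  · simp only [vis, hee]
    omega
  · intro v hv
    rcases v with i | ⟨j', r⟩ | ⟨s, j', r⟩ | i <;> (try cases s) <;> simp only [vis] <;>
      try simp
    constructor
    · rintro (h1 | ⟨h1, h2⟩)
      · omega
      · simp only [Valid] at hv
        obtain ⟨h3, h4⟩ := ee_eq (by omega) h1
        rcases Nat.lt_or_ge t (padicValNat 2 i) with h5 | h5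
        · have h6 : 2 ^ (t + 1) ≤ 2 ^ padicValNat 2 i := Nat.pow_le_pow_right (by omega) h5
          left
          omega
        · have h6 : 2 ^ padicValNat 2 i ≤ 2 ^ t := Nat.pow_le_pow_right (by omega) h5
          right; right
          exact ⟨h1, by omega⟩
    · rintro (h1 | h1 | ⟨h1, h2⟩)
      · subst h1
        rw [hee]
        omega
      · omega
      · omega
  · intro s hs
    refine ⟨2 ^ t * w + 2, by omega, ?_, ?_⟩
    · have h1 := hair_left (m := m) (β := β) hq (i := 2 * j + 2 - 2 ^ (t + 1)) (n := 2 ^ t)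
        (by omega) (by omega) s
      have h2 : 2 * j + 2 - 2 ^ (t + 1) + 2 ^ t = 2 * j + 2 - 2 ^ t := by omega
      rw [← hw] at h1
      simp only [h2] at h1
      exact h1
    · intro z hz t' hz' ht'
      have hne : z ≠ .H (2 * j + 2 - 2 ^ t) := by
        rintro rfl
        exact hz' (by simp [vis, hee0])
      have hst : s ≤ t' := by
        by_contra hcon
        have := ht'.eq_of_le (by omega)
        exact hne (congrArg Subtype.val this)
      have hlb := lb_hair hw rfl (fun h => hne (congrArg Subtype.val h)) ht' hst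
      obtain ⟨h1, h2⟩ := hop_lb hw hq (by omega) hz hz'
      simp only at hlb
      refine ⟨by omega, fun h3 => ?_⟩
      rcases h2 (by omega) with h4 | h4 | h4
      · subst h4
        apply hpri
        simp only [pri0, hval]
        have : 2 * (j + 1) = 2 * j + 2 := by ring
        rw [this]
        omega
      · subst h4
        apply hpri
        simp only [pri0, hval]
        omega
      · subst h4
        exact le_refl _

/-- from `H (N - 2^t)` to `P (j+1) 1`, where `N = 2j+2`, `t + 1 = ν(N)` -/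
theorem stage_next {j t : ℕ} (hq : 1 ≤ q) (hpri : Refines pri) (hj : j + 1 < m)
    (ht : t + 1 = padicValNat 2 (2 * j + 2)) {L : ℕ}
    (h : Stage m q β pri v₀ T (vis (2 * j + 2) j (2 * q) j (2 * q) 1 (2 * j) (2 * j + 2 - 2 ^ t))
      (.H (2 * j + 2 - 2 ^ t)) L) :
    Stage m q β pri v₀ T (vis (2 * (j + 1)) (j + 1) 1 (j + 1) 0 (2 * q + 1) (2 * (j + 1))
      (2 * (j + 1) + 2)) (.P (j + 1) 1) (L + 2 ^ t * (2 * q + 1)) := by
  obtain ⟨w, hw⟩ : ∃ w, w = 2 * q + 1 := ⟨_, rfl⟩
  rw [← hw]
  obtain ⟨hle0, hval0, hee0⟩ := ee_sub (N := 2 * j + 2) (t := t) (by omega) (by omega)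
  have hpow : 2 ^ (t + 1) = 2 * 2 ^ t := by ring
  have hpos : 0 < 2 ^ t := by positivity
  have hx : Valid m q (.H (2 * j + 2 - 2 ^ t)) := ⟨by omega, by omega⟩
  have hy : Valid m q (.P (j + 1) 1) := ⟨by omega, by omega, by omega⟩
  refine h.step hx hy ?_ ?_ ?_
  · simp [vis]
  · intro v hv
    rcases v with i | ⟨j', r⟩ | ⟨s, j', r⟩ | i
    · simp only [vis]
      simp
      omega
    · simp only [vis]
      simp only [Valid] at hv
      simp
      omega
    · simp only [Valid] at hv
      cases s <;> simp only [vis] <;> simp <;> omega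
    · simp only [Valid] at hv
      simp only [vis]
      simp only [reduceCtorEq, false_or]
      constructor
      · rintro (h1 | ⟨h1, h2⟩)
        · rcases Nat.lt_or_ge (2 * j) (ee i) with h3 | h3
          · right
            obtain ⟨c, hc⟩ := two_dvd_ee (i := i) (by omega)
            have h4 : ee i = 2 * j + 2 := by omega
            obtain ⟨h5, h6⟩ := ee_eq (by omega) h4
            refine ⟨h4, ?_⟩
            have h7 : 2 ^ padicValNat 2 i ≤ 2 ^ t := Nat.pow_le_pow_right (by omega) (by omega)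
            omega
          · left; exact h3
        · have := ee_gt i
          omega
      · rintro (h1 | ⟨h1, h2⟩)
        · left; omega
        · left; omega
  · intro s hs
    refine ⟨2 ^ t * w + 2, by omega, ?_, ?_⟩
    · have h1 := hair_right (m := m) (β := β) hq (i := 2 * j + 2 - 2 ^ t) (n := 2 ^ t)
        (j' := j + 1) (by omega) (by omega) (by omega) s
      rw [← hw] at h1
      exact h1
    · intro z hz t' hz' ht'
      have hne : z ≠ .H (2 * j + 2 - 2 ^ t) := by
        rintro rfl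
        exact hz' (by simp [vis, hee0])
      have hst : s ≤ t' := by
        by_contra hcon
        have := ht'.eq_of_le (by omega)
        exact hne (congrArg Subtype.val this)
      have hlb := lb_hair hw rfl (fun h => hne (congrArg Subtype.val h)) ht' hst
      obtain ⟨h1, h2⟩ := hop_lb hw hq (by omega) hz hz'
      simp only at hlb
      have h5 : 2 * (j + 1) = 2 * j + 2 := by ring
      refine ⟨by omega, fun h3 => ?_⟩
      rcases h2 (by omega) with h4 | h4 | h4
      · subst h4
        exact le_refl _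
      · subst h4
        apply hpri
        simp only [pri0, h5]
        omega
      · subst h4
        apply hpri
        simp only [Valid] at hz
        have h6 := val_sub_self (N := 2 * j + 2) (by omega) (by rw [← ht]; omega)
        rw [← ht] at h6
        simp only [pri0, h5]
        rw [← ht]
        omega

/-- one block: from `P j 1` to `H (2j+1)` -/
theorem stage_block {j : ℕ} (hq : 1 ≤ q) (hpri : Refines pri)
    (hgood : ∀ s < T, ∀ b, ∃ δ, 1 ≤ δ ∧ δ ≤ q ∧ β (s + δ) = b) (hj : j < m) {L : ℕ}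
    (h : Stage m q β pri v₀ T (vis (2 * j) j 1 j 0 (2 * q + 1) (2 * j) (2 * j + 2)) (.P j 1) L) :
    Stage m q β pri v₀ T (vis (2 * j + 2) j (2 * q) j (2 * q) 1 (2 * j) (2 * j + 2 - 2 ^ 0))
      (.H (2 * j + 2 - 2 ^ 0)) L := by
  have h1 := stage_P hpri hj h (2 * q - 1) (by omega)
  have e1 : 2 * q - 1 + 1 = 2 * q := by omega
  rw [e1] at h1
  have h2 := stage_JA hq hpri hj (stage_PJ hq hpri hj h1)
  have h3 : ∀ n, n + 1 ≤ q →
      Stage m q β pri v₀ T (vis (2 * j + 1) j (2 * q) j (n + 1) (2 * q + 1) (2 * j) (2 * j + 2))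
      (.A true j (n + 1)) L := by
    intro n
    induction n with
    | zero => intro _; exact h2
    | succ n ih =>
      intro hn
      exact stage_A (by omega) (by omega) (by omega) hpri hj (ih (by omega))
  have h4 := h3 (q - 1) (by omega)
  have e2 : q - 1 + 1 = q := by omega
  rw [e2] at h4
  have h5 := stage_Aq hq hgood hj h4
  have h6 : ∀ n, q + 1 + n ≤ 2 * q →
      Stage m q β pri v₀ T (vis (2 * j + 1) j (2 * q) j (q + 1 + n) (2 * q + 1) (2 * j)
        (2 * j + 2)) (.A true j (q + 1 + n)) L := by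
    intro n
    induction n with
    | zero => intro _; exact h5
    | succ n ih =>
      intro hn
      exact stage_A (r := q + 1 + n) (by omega) (by omega) (by omega) hpri hj (ih (by omega))
  have h7 := h6 (q - 1) (by omega)
  have e3 : q + 1 + (q - 1) = 2 * q := by omega
  rw [e3] at h7
  have h8 := stage_JB hq hpri hj (stage_AJ hq hpri hj h7)
  have h9 : ∀ n, n + 1 ≤ q →
      Stage m q β pri v₀ T (vis (2 * j + 2) j (2 * q) j (2 * q) (2 * q - n) (2 * j)
        (2 * j + 2)) (.A false j (2 * q - n)) L := by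
    intro n
    induction n with
    | zero => intro _; exact h8
    | succ n ih =>
      intro hn
      have h10 := ih (by omega)
      have e4 : 2 * q - n = 2 * q - (n + 1) + 1 := by omega
      rw [e4] at h10
      exact stage_B (by omega) (by omega) (by omega) hpri hj h10
  have h10 := h9 (q - 1) (by omega)
  have e5 : 2 * q - (q - 1) = q + 1 := by omega
  rw [e5] at h10
  have h11 := stage_Bq hq hgood hj h10
  have h12 : ∀ n, n + 1 ≤ q →
      Stage m q β pri v₀ T (vis (2 * j + 2) j (2 * q) j (2 * q) (q - n) (2 * j)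
        (2 * j + 2)) (.A false j (q - n)) L := by
    intro n
    induction n with
    | zero => intro _; exact h11
    | succ n ih =>
      intro hn
      have h10 := ih (by omega)
      have e4 : q - n = q - (n + 1) + 1 := by omega
      rw [e4] at h10
      exact stage_B (by omega) (by omega) (by omega) hpri hj h10
  have h13 := h12 (q - 1) (by omega)
  have e6 : q - (q - 1) = 1 := by omega
  rw [e6] at h13
  exact stage_BH hq hj h13

/-- hair-hopping -/
theorem stage_hops {j : ℕ} (hq : 1 ≤ q) (hpri : Refines pri) (hj : j < m) {L : ℕ}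
    (h : Stage m q β pri v₀ T (vis (2 * j + 2) j (2 * q) j (2 * q) 1 (2 * j) (2 * j + 2 - 2 ^ 0))
      (.H (2 * j + 2 - 2 ^ 0)) L) : ∀ t, t < padicValNat 2 (2 * j + 2) →
    Stage m q β pri v₀ T (vis (2 * j + 2) j (2 * q) j (2 * q) 1 (2 * j) (2 * j + 2 - 2 ^ t))
      (.H (2 * j + 2 - 2 ^ t)) (L + (2 ^ t - 1) * (2 * q + 1)) := by
  intro t
  induction t with
  | zero =>
    intro _
    simpa using h
  | succ t ih =>
    intro ht
    have h1 := stage_hop hq hpri hj ht (ih (by omega))
    refine h1.mono ?_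
    have hpos : 0 < 2 ^ t := by positivity
    have e1 : 2 ^ (t + 1) - 1 = (2 ^ t - 1) + 2 ^ t := by
      rw [pow_succ]; omega
    rw [e1, Nat.add_mul]
    omega

/-- the first step -/
theorem stage_start (hq : 1 ≤ q) (hpri : Refines pri) (hm : 0 < m) :
    Stage m q β pri ⟨.J 0, Nat.zero_le _⟩ T
      (vis (2 * 0) 0 1 0 0 (2 * q + 1) (2 * 0) (2 * 0 + 2)) (.P 0 1) 0 := by
  have h : Stage m q β pri ⟨.J 0, Nat.zero_le _⟩ T (fun v => v = .J 0) (.J 0) 0 := by
    right
    refine ⟨_, Relation.ReflTransGen.refl, ?_, rfl, le_refl _⟩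
    intro v
    simp only [Set.mem_singleton_iff]
    constructor
    · rintro rfl; rfl
    · intro h; exact Subtype.ext h
  refine h.move hpri (Nat.zero_le _) ⟨hm, by omega, by omega⟩ rfl ?_ ?_ ?_ ?_
  · simp
  · intro v hv
    rcases v with i | ⟨j', r⟩ | ⟨s, j', r⟩ | i <;> simp only [Valid] at hv
    · simp [vis]
    · simp only [vis]
      simp
      omega
    · cases s <;> simp only [vis] <;> simp <;> omega
    · simp only [vis]
      simp
      have := ee_gt i
      have h2 := two_dvd_ee (i := i) (by omega)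
      obtain ⟨c, hc⟩ := h2
      omega
  · intro b; left; simp [E]
  · intro b z hz hz' hE
    rcases z with i | ⟨j', r⟩ | ⟨s, j', r⟩ | i <;> simp only [E, or_false] at hE
    · left
      simp only [Valid] at hz
      rcases hE with hE | hE
      · have : j' = 0 := by omega
        rw [this, hE.2]
      · omega
    · omega
    · simp only [Valid] at hz
      omega

/-- accumulated lower bound for the time at which block `j` is entered -/
def blockTime (w : ℕ) : ℕ → ℕ
  | 0 => 0
  | j + 1 => blockTime w j + (2 ^ padicValNat 2 (2 * j + 2) - 1) * w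

theorem stage_all (hq : 1 ≤ q) (hpri : Refines pri) (hm : 0 < m)
    (hgood : ∀ s < T, ∀ b, ∃ δ, 1 ≤ δ ∧ δ ≤ q ∧ β (s + δ) = b) : ∀ j, j < m →
    Stage m q β pri ⟨.J 0, Nat.zero_le _⟩ T
      (vis (2 * j) j 1 j 0 (2 * q + 1) (2 * j) (2 * j + 2)) (.P j 1)
      (blockTime (2 * q + 1) j) := by
  intro j
  induction j with
  | zero =>
    intro _
    exact stage_start hq hpri hm
  | succ j ih =>
    intro hj
    have h1 := stage_block hq hpri hgood (by omega) (ih (by omega))
    have hval : 0 < padicValNat 2 (2 * j + 2) :=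
      le_val (by omega) (by rw [pow_one]; exact ⟨j + 1, by ring⟩)
    obtain ⟨t, ht⟩ : ∃ t, t + 1 = padicValNat 2 (2 * j + 2) :=
      ⟨padicValNat 2 (2 * j + 2) - 1, by omega⟩
    have h2 := stage_hops hq hpri (by omega) h1 t (by omega)
    have h3 := stage_next hq hpri hj ht h2
    refine h3.mono ?_
    simp only [blockTime]
    rw [← ht]
    have hpos : 0 < 2 ^ t := by positivity
    have e1 : 2 ^ (t + 1) - 1 = (2 ^ t - 1) + 2 ^ t := by
      rw [pow_succ]; omega
    rw [e1, Nat.add_mul]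
    omega

/-- the sum of `2 ^ ν(n)` over `1 ≤ n ≤ N` -/
def valSum : ℕ → ℕ
  | 0 => 0
  | n + 1 => valSum n + 2 ^ padicValNat 2 (n + 1)

theorem valSum_double (n : ℕ) : valSum (2 * n) = n + 2 * valSum n := by
  induction n with
  | zero => rfl
  | succ n ih =>
    have e1 : 2 * (n + 1) = 2 * n + 1 + 1 := by ring
    rw [e1]
    simp only [valSum]
    rw [ih]
    have h1 : padicValNat 2 (2 * n + 1) = 0 := padicValNat.eq_zero_of_not_dvd (by omega)
    have h2 : padicValNat 2 (2 * n + 1 + 1) = padicValNat 2 (n + 1) + 1 := by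
      rw [← e1, padicValNat.mul (by omega) (by omega), padicValNat.self (by omega)]
      ring
    rw [h1, h2]
    ring

theorem valSum_pow (k : ℕ) : 2 * valSum (2 ^ k) = (k + 2) * 2 ^ k := by
  induction k with
  | zero => simp [valSum]
  | succ k ih =>
    have e1 : 2 ^ (k + 1) = 2 * 2 ^ k := by ring
    rw [e1, valSum_double]
    have : 2 * (2 ^ k + 2 * valSum (2 ^ k)) = 2 * 2 ^ k + 2 * (2 * valSum (2 ^ k)) := by ring
    rw [this, ih]
    ring

theorem blockTime_eq (w j : ℕ) : blockTime w j + j * w = 2 * valSum j * w := by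
  induction j with
  | zero => simp [blockTime, valSum]
  | succ j ih =>
    simp only [blockTime, valSum]
    have h2 : padicValNat 2 (2 * j + 2) = padicValNat 2 (j + 1) + 1 := by
      have e1 : 2 * j + 2 = 2 * (j + 1) := by ring
      rw [e1, padicValNat.mul (by omega) (by omega), padicValNat.self (by omega)]
      ring
    rw [h2]
    generalize padicValNat 2 (j + 1) = a
    have hpos : 0 < 2 ^ a := by positivity
    have h3 : (2 ^ (a + 1) - 1) * w + w = 2 * 2 ^ a * w := by
      have : 2 ^ (a + 1) - 1 + 1 = 2 * 2 ^ a := by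
        rw [pow_succ]; omega
      rw [← this]
      ring
    have h4 : (j + 1) * w = j * w + w := by ring
    have h5 : 2 * (valSum j + 2 ^ a) * w = 2 * valSum j * w + 2 * 2 ^ a * w := by ring
    rw [h4, h5]
    omega

/-- The lower bound for greedy exploration of the chain with `m = 2 ^ k`. -/
theorem chain_greedy {k : ℕ} (hq : 1 ≤ q) (hm : m = 2 ^ k) (hpri : Refines pri)
    (hT : k * (m * (2 * q + 1)) ≤ T)
    (hgood : ∀ s < T, ∀ b, ∃ δ, 1 ≤ δ ∧ δ ≤ q ∧ β (s + δ) = b) :
    ∃ σ, GreedyReached (chainG m q β) pri ⟨.J 0, Nat.zero_le _⟩ σ ∧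
      k * (m * (2 * q + 1)) ≤ σ.time := by
  have hm0 : 0 < m := by rw [hm]; positivity
  have h1 := stage_all hq hpri hm0 hgood (m - 1) (by omega)
  have h2 := stage_block hq hpri hgood (by omega) h1
  have h3 : padicValNat 2 (2 * (m - 1) + 2) = k + 1 := by
    have : 2 * (m - 1) + 2 = 2 ^ (k + 1) * (2 * 0 + 1) := by
      rw [pow_succ, ← hm]; omega
    exact val_eq this
  have h4 := stage_hops hq hpri (by omega) h2 k (by omega)
  have h5 : k * (m * (2 * q + 1)) ≤ blockTime (2 * q + 1) (m - 1) + (2 ^ k - 1) * (2 * q + 1) := by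
    generalize hw : 2 * q + 1 = w
    have e1 := blockTime_eq w (m - 1)
    have e2 : valSum m = valSum (m - 1) + 2 ^ k := by
      obtain ⟨m', hm'⟩ : ∃ m', m = m' + 1 := ⟨m - 1, by omega⟩
      rw [hm']
      simp only [valSum, Nat.add_sub_cancel]
      have : padicValNat 2 (m' + 1) = k := by
        rw [← hm', hm]
        exact padicValNat.prime_pow k
      rw [this]
    have e3 := valSum_pow k
    rw [← hm] at e3
    rw [← hm] at e2 ⊢
    have e4 : (m - 1) * w + w = m * w := by
      have : m = m - 1 + 1 := by omega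
      nth_rewrite 2 [this]
      ring
    have e5 : 2 * valSum m * w = 2 * valSum (m - 1) * w + 2 * (m * w) := by
      rw [e2]; ring
    have e6 : 2 * valSum m * w = k * (m * w) + 2 * (m * w) := by
      rw [e3]; ring
    omega
  rcases h4 with ⟨σ, h6, h7⟩ | ⟨σ, h6, -, -, h7⟩
  · exact ⟨σ, h6, by omega⟩
  · exact ⟨σ, h6, by omega⟩

end stage

end Pool.Agent.Helper68
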