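import Pool.Agent.Helper68.ChainWalks

/-!
# A fast exploration of the chain
-/

namespace Pool.Agent.Helper68

section tour

variable {m q T : ℕ} {β : ℕ → Bool}

theorem armRight_good {j : ℕ} (hq : 1 ≤ q) (hj : j < m) (b : Bool) (s : ℕ)
    (hgood : ∀ s < T, ∀ b, ∃ δ, 1 ≤ δ ∧ δ ≤ q ∧ β (s + δ) = b) (hs : s + q < T) :
    Tour (chainG m q β) s ⟨.J (2 * j + 1), by simp only [Valid]; omega⟩ (s + 3 * q)
      ⟨.J (2 * j + 2), by simp only [Valid]; omega⟩
      {v | v.1 = .J (2 * j + 1) ∨ v.1 = .J (2 * j + 2) ∨ ∃ r, v.1 = .A b j r} := by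
  obtain ⟨δ, h1, h2, h3⟩ := hgood (s + q) hs b
  exact (armRight hq hj b s δ h1 h3).mono (le_refl _) (by omega)

theorem armLeft_good {j : ℕ} (hq : 1 ≤ q) (hj : j < m) (b : Bool) (s : ℕ)
    (hgood : ∀ s < T, ∀ b, ∃ δ, 1 ≤ δ ∧ δ ≤ q ∧ β (s + δ) = b) (hs : s + q < T) :
    Tour (chainG m q β) s ⟨.J (2 * j + 2), by simp only [Valid]; omega⟩ (s + 3 * q)
      ⟨.J (2 * j + 1), by simp only [Valid]; omega⟩
      {v | v.1 = .J (2 * j + 1) ∨ v.1 = .J (2 * j + 2) ∨ ∃ r, v.1 = .A b j r} := by
  obtain ⟨δ, h1, h2, h3⟩ := hgood (s + q) hs b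
  exact (armLeft hq hj b s δ h1 h3).mono (le_refl _) (by omega)

/-- visit a pendant vertex and come back -/
theorem hair_tour {i : ℕ} (hi : i ≤ 2 * m) (s : ℕ) :
    Tour (chainG m q β) s ⟨.J i, hi⟩ (s + 2) ⟨.J i, hi⟩ {v | v.1 = .H i} := by
  by_cases h : 1 ≤ i ∧ i < 2 * m
  · have h1 : Tour (chainG m q β) s ⟨.J i, hi⟩ (s + 1) ⟨.H i, h⟩ {⟨.J i, hi⟩, ⟨.H i, h⟩} :=
      chain_edge (Or.inl (by simp [E]))
    have h2 := h1.snoc (by omega) (y := ⟨.J i, hi⟩) (Or.inr (by simp [E]))
    refine h2.mono_set ?_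
    rintro ⟨v, hv⟩ hv'
    left; right
    exact Subtype.ext hv'
  · refine ((Tour.refl s (s + 2) _).mono_set ?_)
    rintro ⟨v, hv⟩ hv'
    simp only [Set.mem_ofPred_eq] at hv'
    subst hv'
    exact absurd hv h

theorem forward (hq : 1 ≤ q)
    (hgood : ∀ s < T, ∀ b, ∃ δ, 1 ≤ δ ∧ δ ≤ q ∧ β (s + δ) = b) : ∀ n, (hn : n ≤ m) →
    n * (2 * q + 1 + 3 * q) < T →
    Tour (chainG m q β) 0 ⟨.J 0, Nat.zero_le _⟩ (n * (2 * q + 1 + 3 * q))
      ⟨.J (2 * n), by simp only [Valid]; omega⟩
      {v | (∃ i ≤ 2 * n, v.1 = .J i) ∨ (∃ j < n, ∃ r, v.1 = .P j r) ∨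
        (∃ j < n, ∃ r, v.1 = .A true j r)} := by
  intro n
  induction n with
  | zero =>
    intro hn _
    refine (Tour.refl _ _ _).mono_set ?_
    rintro ⟨v, hv⟩ (⟨i, hi, h⟩ | ⟨j, hj, -⟩ | ⟨j, hj, -⟩)
    · have : i = 0 := by omega
      subst this
      exact Subtype.ext h
    · omega
    · omega
  | succ n ih =>
    intro hn hT
    have hmul : (n + 1) * (2 * q + 1 + 3 * q) = n * (2 * q + 1 + 3 * q) + (2 * q + 1) + 3 * q := by
      ring
    have h1 := ih (by omega) (by omega)
    have h2 := h1.trans (pathRight (m := m) (β := β) hq (j := n) (by omega)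
      (n * (2 * q + 1 + 3 * q))) (by omega) (by omega)
    have h3 := h2.trans (armRight_good (m := m) (β := β) hq (j := n) (by omega) true
      (n * (2 * q + 1 + 3 * q) + (2 * q + 1)) hgood (by omega)) (by omega) (by omega)
    rw [hmul]
    refine h3.mono_set ?_
    rintro ⟨v, hv⟩ (⟨i, hi, h⟩ | ⟨j, hj, r, h⟩ | ⟨j, hj, r, h⟩)
    · simp only at h
      subst h
      rcases Nat.lt_or_ge (2 * n) i with h4 | h4
      · right
        by_cases h5 : i = 2 * n + 1
        · left; simp only [h5]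
        · right; left
          have h6 : i = 2 * n + 2 := by omega
          simp only [h6]
      · left; left; left
        exact ⟨i, h4, rfl⟩
    · simp only at h
      subst h
      rcases Nat.lt_or_ge j n with h4 | h4
      · left; left; right; left
        exact ⟨j, h4, r, rfl⟩
      · left; right; right; right
        have : j = n := by omega
        subst this
        exact ⟨r, rfl⟩
    · simp only at h
      subst h
      rcases Nat.lt_or_ge j n with h4 | h4
      · left; left; right; right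
        exact ⟨j, h4, r, rfl⟩
      · right; right; right
        have : j = n := by omega
        subst this
        exact ⟨r, rfl⟩

theorem backward (hq : 1 ≤ q) (s : ℕ)
    (hgood : ∀ s < T, ∀ b, ∃ δ, 1 ≤ δ ∧ δ ≤ q ∧ β (s + δ) = b) : ∀ n j, (hn : j + n = m) →
    s + n * (2 * q + 1 + 3 * q + 4) < T →
    Tour (chainG m q β) s ⟨.J (2 * m), le_refl _⟩ (s + n * (2 * q + 1 + 3 * q + 4))
      ⟨.J (2 * j), by simp only [Valid]; omega⟩
      {v | (∃ i > 2 * j, v.1 = .H i) ∨ (∃ j' ≥ j, ∃ r, v.1 = .A false j' r)} := by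
  intro n
  induction n with
  | zero =>
    intro j hn _
    have hj : j = m := by omega
    subst hj
    refine (Tour.refl _ _ _).mono_set ?_
    rintro ⟨v, hv⟩ (⟨i, hi, h⟩ | ⟨j', hj', r, h⟩)
    · simp only at h
      subst h
      have := hv.2
      omega
    · simp only at h
      subst h
      have := hv.1
      omega
  | succ n ih =>
    intro j hn hT
    have hmul : (n + 1) * (2 * q + 1 + 3 * q + 4) =
        n * (2 * q + 1 + 3 * q + 4) + (2 * q + 1) + 3 * q + 4 := by
      ring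
    have h1 := ih (j + 1) (by omega) (by omega)
    have h2 := h1.trans (hair_tour (m := m) (q := q) (β := β) (i := 2 * (j + 1)) (by omega)
      (s + n * (2 * q + 1 + 3 * q + 4))) (by omega) (by omega)
    have h3 := h2.trans (armLeft_good (m := m) (β := β) hq (j := j) (by omega) false
      (s + n * (2 * q + 1 + 3 * q + 4) + 2) hgood (by omega)) (by omega) (by omega)
    have h4 := h3.trans (hair_tour (m := m) (q := q) (β := β) (i := 2 * j + 1) (by omega)
      (s + n * (2 * q + 1 + 3 * q + 4) + 2 + 3 * q)) (by omega) (by omega)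
    have h5 := h4.trans (pathLeft (m := m) (β := β) hq (j := j) (by omega)
      (s + n * (2 * q + 1 + 3 * q + 4) + 2 + 3 * q + 2)) (by omega) (by omega)
    have e1 : s + n * (2 * q + 1 + 3 * q + 4) + 2 + 3 * q + 2 + (2 * q + 1) =
        s + (n + 1) * (2 * q + 1 + 3 * q + 4) := by
      rw [hmul]; omega
    rw [e1] at h5
    refine h5.mono_set ?_
    rintro ⟨v, hv⟩ (⟨i, hi, h⟩ | ⟨j', hj', r, h⟩)
    · simp only at h
      subst h
      by_cases h6 : i = 2 * j + 1
      · subst h6
        left; right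
        rfl
      · by_cases h7 : i = 2 * (j + 1)
        · subst h7
          left; left; left; right
          rfl
        · left; left; left; left; left
          exact ⟨i, by omega, rfl⟩
    · simp only at h
      subst h
      by_cases h6 : j' = j
      · subst h6
        left; left; right; right; right
        exact ⟨r, rfl⟩
      · left; left; left; left; right
        exact ⟨j', by omega, r, rfl⟩

theorem chain_texp (hq : 1 ≤ q) (hm : 0 < m)
    (hgood : ∀ s < T, ∀ b, ∃ δ, 1 ≤ δ ∧ δ ≤ q ∧ β (s + δ) = b)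
    (hT : 6 * (m * (2 * q + 1)) ≤ T) :
    ∃ v u, Tour (chainG m q β) 0 v (6 * (m * (2 * q + 1))) u Set.univ := by
  have e1 : m * (2 * q + 1 + 3 * q) + m * (2 * q + 1 + 3 * q + 4) + m * (2 * q + 1) =
      6 * (m * (2 * q + 1)) + m * 1 := by ring
  have e2 : m * 1 < m * (2 * q + 1) := Nat.mul_lt_mul_of_pos_left (by omega) hm
  have h1 := forward (m := m) (β := β) hq hgood m (le_refl _) (by omega)
  have h2 := backward (m := m) (β := β) hq (m * (2 * q + 1 + 3 * q)) hgood m 0 (by omega)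
    (by omega)
  have h3 := h1.trans h2 (by omega) (by omega)
  refine ⟨_, _, (h3.mono_set ?_).mono (le_refl _) (by omega)⟩
  rintro ⟨v, hv⟩ -
  rcases v with i | ⟨j, r⟩ | ⟨b, j, r⟩ | i
  · left; left
    exact ⟨i, hv, rfl⟩
  · left; right; left
    exact ⟨j, hv.1, r, rfl⟩
  · cases b
    · right; right
      exact ⟨j, Nat.zero_le _, r, rfl⟩
    · left; right; right
      exact ⟨j, hv.1, r, rfl⟩
  · right; left
    exact ⟨i, by have := hv.1; omega, rfl⟩

end tour

end Pool.Agent.Helper68
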