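import Pool.Agent.Helper68.ChainGreedy
import Pool.Agent.Helper68.ChainTour

/-!
# The random spanning tree model of the chain
-/

namespace Pool.Agent.Helper68

open MeasureTheory

section prob

variable {m q N : ℕ}

/-- the two trees on `Fin N` -/
def TT (e : CV m q ≃ Fin N) (b : Bool) : SimpleGraph (Fin N) := (snap m q b).comap e.symm

theorem TT_isTree (hq : 1 ≤ q) (e : CV m q ≃ Fin N) (b : Bool) : (TT e b).IsTree :=
  (SimpleGraph.Iso.comap e.symm (snap m q b)).isTree_iff.2 (snap_isTree hq b)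

theorem TT_ne (hq : 1 ≤ q) (hm : 0 < m) (e : CV m q ≃ Fin N) : TT e false ≠ TT e true := by
  intro h
  have h1 : (TT e true).Adj (e ⟨.A true 0 q, ⟨hm, hq, by omega⟩⟩)
      (e ⟨.A true 0 (q + 1), ⟨hm, by omega, by omega⟩⟩) := by
    unfold TT
    rw [SimpleGraph.comap_adj, e.symm_apply_apply, e.symm_apply_apply]
    left
    simp [E]
  rw [← h] at h1
  unfold TT at h1
  rw [SimpleGraph.comap_adj, e.symm_apply_apply, e.symm_apply_apply] at h1
  rcases h1 with h1 | h1
  · simp [E] at h1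
  · simp [E] at h1
    omega

/-- the random spanning tree model: one of the two trees, each with probability `1/2` -/
noncomputable def chainModel (hq : 1 ≤ q) (e : CV m q ≃ Fin N) : RSTModel N where
  trees := Set.range (TT e)
  isTree := by rintro _ ⟨b, rfl⟩; exact TT_isTree hq e b
  law := (PMF.uniformOfFintype Bool).map (TT e)
  law_mem := by
    intro T hT
    rw [PMF.support_map] at hT
    obtain ⟨b, -, hb⟩ := hT
    exact ⟨b, hb⟩

theorem law_ne (hq : 1 ≤ q) (hm : 0 < m) (e : CV m q ≃ Fin N) (b : Bool) :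
    (chainModel hq e).law.toMeasure {T | T ≠ TT e b} = 2⁻¹ := by
  change ((PMF.uniformOfFintype Bool).map (TT e)).toMeasure {T | T ≠ TT e b} = 2⁻¹
  rw [PMF.toMeasure_map_apply _ _ _ (Measurable.of_discrete) (MeasurableSet.of_discrete)]
  have h1 : TT e ⁻¹' {T | T ≠ TT e b} = {!b} := by
    ext b'
    have := TT_ne hq hm e
    cases b <;> cases b' <;> simp [this, this.symm]
  rw [h1, PMF.toMeasure_apply_singleton _ _ (MeasurableSet.of_discrete)]
  simp

theorem bad_window (hq : 1 ≤ q) (hm : 0 < m) (e : CV m q ≃ Fin N) (b : Bool) (s : ℕ) :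
    (chainModel hq e).seqLaw {G | ∀ δ, 1 ≤ δ → δ ≤ q → G (s + δ) ≠ TT e b} = (2⁻¹) ^ q := by
  have h1 : {G : ℕ → SimpleGraph (Fin N) | ∀ δ, 1 ≤ δ → δ ≤ q → G (s + δ) ≠ TT e b} =
      Set.pi (Finset.Icc (s + 1) (s + q)) (fun _ => {T | T ≠ TT e b}) := by
    ext G
    simp only [Set.mem_ofPred_eq, Set.mem_pi, Finset.coe_Icc, Set.mem_Icc]
    constructor
    · intro h t ht
      have := h (t - s) (by omega) (by omega)
      have h2 : s + (t - s) = t := by omega
      rw [h2] at this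
      exact this
    · intro h δ h1 h2
      exact h (s + δ) ⟨by omega, by omega⟩
  unfold RSTModel.seqLaw
  rw [h1, Measure.infinitePi_pi _ (fun _ _ => MeasurableSet.of_discrete)]
  simp only [law_ne hq hm e b, Finset.prod_const, Nat.card_Icc]
  congr 1
  omega

theorem not_mem_trees_null (hq : 1 ≤ q) (e : CV m q ≃ Fin N) :
    (chainModel hq e).seqLaw {G | ∃ t, G t ∉ Set.range (TT e)} = 0 := by
  have h1 : {G : ℕ → SimpleGraph (Fin N) | ∃ t, G t ∉ Set.range (TT e)} =
      ⋃ t, {G : ℕ → SimpleGraph (Fin N) | G t ∉ Set.range (TT e)} := by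
    ext G
    simp
  rw [h1]
  refine measure_iUnion_null fun t => ?_
  have h2 : {G : ℕ → SimpleGraph (Fin N) | G t ∉ Set.range (TT e)} =
      Set.pi ({t} : Finset ℕ) (fun _ => (Set.range (TT e))ᶜ) := by
    ext G
    simp
  unfold RSTModel.seqLaw
  rw [h2, Measure.infinitePi_pi _ (fun _ _ => MeasurableSet.of_discrete)]
  rw [Finset.prod_singleton, PMF.toMeasure_apply_eq_zero_iff _ (MeasurableSet.of_discrete)]
  rw [Set.disjoint_compl_right_iff_subset]
  exact (chainModel hq e).law_mem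

/-- the bad event -/
def badSet (e : CV m q ≃ Fin N) (T : ℕ) : Set (ℕ → SimpleGraph (Fin N)) :=
  {G | ∃ t, G t ∉ Set.range (TT e)} ∪
    ⋃ x ∈ (Finset.range T ×ˢ (Finset.univ : Finset Bool)),
      {G | ∀ δ, 1 ≤ δ → δ ≤ q → G (x.1 + δ) ≠ TT e x.2}

theorem badSet_le (hq : 1 ≤ q) (hm : 0 < m) (e : CV m q ≃ Fin N) (T : ℕ) :
    (chainModel hq e).seqLaw (badSet e T) ≤ (T * 2 : ℕ) * (2⁻¹) ^ q := by
  refine (measure_union_le _ _).trans ?_
  rw [not_mem_trees_null, zero_add]
  refine (measure_biUnion_finset_le _ _).trans ?_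
  simp only [bad_window hq hm e]
  rw [Finset.sum_const, Finset.card_product, Finset.card_range]
  simp

theorem good_of_not_bad (hq : 1 ≤ q) (hm : 0 < m) (e : CV m q ≃ Fin N) (T : ℕ)
    (G : ℕ → SimpleGraph (Fin N)) (hG : G ∉ badSet e T) :
    ∃ β : ℕ → Bool, G = transportG e (chainG m q β) ∧
      ∀ s < T, ∀ b, ∃ δ, 1 ≤ δ ∧ δ ≤ q ∧ β (s + δ) = b := by
  classical
  simp only [badSet, Set.mem_union, not_or] at hG
  obtain ⟨h1, h2⟩ := hG
  simp only [Set.mem_ofPred_eq, not_exists, not_not] at h1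
  choose β hβ using h1
  refine ⟨β, ?_, ?_⟩
  · funext t
    exact (hβ t).symm
  · intro s hs b
    by_contra hcon
    apply h2
    simp only [Set.mem_iUnion]
    refine ⟨(s, b), by simp [hs], ?_⟩
    intro δ h3 h4 h5
    apply hcon
    refine ⟨δ, h3, h4, ?_⟩
    rw [← hβ] at h5
    have := TT_ne hq hm e
    by_contra h6
    cases b <;> cases h7 : β (s + δ) <;> simp_all

/-- the preference order -/
noncomputable def chainPri (e : CV m q ≃ Fin N) : CV m q → ℕ :=
  fun v => pri0 v.1 * N + (e v : ℕ)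

theorem chainPri_injective (e : CV m q ≃ Fin N) : Function.Injective (chainPri e) := by
  intro u v h
  unfold chainPri at h
  have hu := (e u).2
  have hv := (e v).2
  have h1 : (e u : ℕ) = (e v : ℕ) := by
    have h2 : (pri0 u.1 * N + (e u : ℕ)) % N = (pri0 v.1 * N + (e v : ℕ)) % N := by rw [h]
    rw [Nat.add_comm, Nat.add_mul_mod_self_right, Nat.add_comm (pri0 v.1 * N),
      Nat.add_mul_mod_self_right, Nat.mod_eq_of_lt hu, Nat.mod_eq_of_lt hv] at h2
    exact h2
  exact e.injective (Fin.ext h1)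

theorem chainPri_refines (e : CV m q ≃ Fin N) : Refines (chainPri e) := by
  intro u v h
  unfold chainPri
  have hu := (e u).2
  have h1 : (pri0 u.1 + 1) * N ≤ pri0 v.1 * N := Nat.mul_le_mul_right N h
  have h2 : (pri0 u.1 + 1) * N = pri0 u.1 * N + N := by ring
  omega

theorem main_bound {k : ℕ} (hk : 6 ≤ k) (hq : 1 ≤ q) (hm : m = 2 ^ k) (e : CV m q ≃ Fin N) :
    (chainModel hq e).seqLaw {G |
      ((k * (m * (2 * q + 1)) : ℕ) : ℕ∞) ≤ greedyTime G (fun x => chainPri e (e.symm x))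
        (e ⟨.J 0, Nat.zero_le _⟩) ∧ texp G ≤ ((6 * (m * (2 * q + 1)) : ℕ) : ℕ∞)}ᶜ ≤
      ((k * (m * (2 * q + 1)) * 2 : ℕ)) * (2⁻¹) ^ q := by
  have hm0 : 0 < m := by rw [hm]; positivity
  refine (measure_mono ?_).trans (badSet_le hq hm0 e (k * (m * (2 * q + 1))))
  rw [Set.compl_subset_comm]
  intro G hG
  obtain ⟨β, rfl, hgood⟩ := good_of_not_bad hq hm0 e _ G hG
  constructor
  · obtain ⟨σ, h1, h2⟩ := chain_greedy hq hm (chainPri_refines e) (le_refl _) hgood
    have h3 := h1.transport e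
    have hinj : Function.Injective (fun x => chainPri e (e.symm x)) :=
      (chainPri_injective e).comp e.symm.injective
    refine le_trans ?_ (le_greedyTime_of_reached hinj h3)
    exact_mod_cast h2
  · obtain ⟨v, u, h1⟩ := chain_texp hq hm0 hgood (Nat.mul_le_mul_right _ hk)
    have h2 := h1.transport e
    rw [Set.image_univ, e.range_eq_univ] at h2
    exact texp_le_of_tour h2

end prob

end Pool.Agent.Helper68
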