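import Pool.Agent.Helper68.Chain

/-!
# Walks along the chain
-/

namespace Pool.Agent.Helper68

/-- the temporal graph given by a sequence of bits -/
def chainG (m q : ℕ) (β : ℕ → Bool) : ℕ → SimpleGraph (CV m q) := fun t => snap m q (β t)

section walks

variable {m q : ℕ} {β : ℕ → Bool}

theorem chain_edge {s : ℕ} {x y : CV m q} (h : E q (β (s + 1)) x.1 y.1 ∨ E q (β (s + 1)) y.1 x.1) :
    Tour (chainG m q β) s x (s + 1) y {x, y} :=
  Tour.edge (Nat.lt_succ_self s) (le_refl _) h

/-- extend a tour by one edge -/
theorem Tour.snoc {s t : ℕ} {v x y : CV m q} {S : Set (CV m q)}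
    (h : Tour (chainG m q β) s v t x S) (hst : s ≤ t)
    (hxy : E q (β (t + 1)) x.1 y.1 ∨ E q (β (t + 1)) y.1 x.1) :
    Tour (chainG m q β) s v (t + 1) y (S ∪ {y}) := by
  refine (h.trans (chain_edge hxy) hst (Nat.le_succ t)).mono_set ?_
  intro z hz
  rcases hz with hz | hz
  · exact Or.inl hz
  · exact Or.inr (Or.inr hz)

theorem pathRight_aux {j : ℕ} (hj : j < m) (s : ℕ) : ∀ n, (h1 : 1 ≤ n) → (h2 : n ≤ 2 * q) →
    Tour (chainG m q β) s ⟨.J (2 * j), by simp only [Valid]; omega⟩ (s + n)
      ⟨.P j n, ⟨hj, h1, h2⟩⟩ {v | v.1 = .J (2 * j) ∨ ∃ r ≤ n, v.1 = .P j r} := by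
  intro n
  induction n with
  | zero => intro h; omega
  | succ n ih =>
    intro h1 h2
    rcases Nat.eq_zero_or_pos n with h0 | h0
    · subst h0
      refine (chain_edge (s := s) ?_).mono_set ?_
      · left
        simp [E]
      · rintro ⟨v, hv⟩ h
        rcases h with h | ⟨r, hr, h⟩
        · left
          exact Subtype.ext h
        · right
          simp only at h
          subst h
          simp only [Valid] at hv
          have : r = 1 := by omega
          subst this
          rfl
    · refine ((ih h0 (by omega)).snoc (by omega) (y := ⟨.P j (n + 1), ⟨hj, h1, h2⟩⟩) ?_).mono_set ?_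
      · left
        simp [E]
      · rintro ⟨v, hv⟩ h
        rcases h with h | ⟨r, hr, h⟩
        · left; left; exact h
        · simp only at h
          subst h
          rcases Nat.lt_or_ge n r with h3 | h3
          · right
            have : r = n + 1 := by omega
            subst this
            rfl
          · left; right
            exact ⟨r, h3, rfl⟩

theorem pathRight {j : ℕ} (hq : 1 ≤ q) (hj : j < m) (s : ℕ) :
    Tour (chainG m q β) s ⟨.J (2 * j), by simp only [Valid]; omega⟩ (s + (2 * q + 1))
      ⟨.J (2 * j + 1), by simp only [Valid]; omega⟩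
      {v | v.1 = .J (2 * j) ∨ v.1 = .J (2 * j + 1) ∨ ∃ r, v.1 = .P j r} := by
  have h := (pathRight_aux (β := β) hj s (2 * q) (by omega) (le_refl _)).snoc (by omega)
    (y := ⟨.J (2 * j + 1), by simp only [Valid]; omega⟩) (by left; simp [E])
  refine h.mono_set ?_
  rintro ⟨v, hv⟩ h
  rcases h with h | h | ⟨r, h⟩
  · left; left; exact h
  · right; exact Subtype.ext h
  · left; right
    simp only at h
    subst h
    exact ⟨r, hv.2.2, rfl⟩

theorem pathLeft_aux {j : ℕ} (hj : j < m) (s : ℕ) : ∀ n, (h1 : 1 ≤ n) → (h2 : n ≤ 2 * q) →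
    Tour (chainG m q β) s ⟨.J (2 * j + 1), by simp only [Valid]; omega⟩ (s + n)
      ⟨.P j (2 * q + 1 - n), by simp only [Valid]; omega⟩
      {v | v.1 = .J (2 * j + 1) ∨ ∃ r, 2 * q + 1 - n ≤ r ∧ v.1 = .P j r} := by
  intro n
  induction n with
  | zero => intro h; omega
  | succ n ih =>
    intro h1 h2
    rcases Nat.eq_zero_or_pos n with h0 | h0
    · subst h0
      refine (chain_edge (s := s) ?_).mono_set ?_
      · right
        simp [E]
      · rintro ⟨v, hv⟩ h
        rcases h with h | ⟨r, hr, h⟩
        · left
          exact Subtype.ext h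
        · right
          simp only at h
          subst h
          simp only [Valid] at hv
          have : r = 2 * q + 1 - (0 + 1) := by omega
          subst this
          rfl
    · refine ((ih h0 (by omega)).snoc (by omega)
        (y := ⟨.P j (2 * q + 1 - (n + 1)), by simp only [Valid]; omega⟩) ?_).mono_set ?_
      · right
        simp only [E, true_and]
        omega
      · rintro ⟨v, hv⟩ h
        rcases h with h | ⟨r, hr, h⟩
        · left; left; exact h
        · simp only at h
          subst h
          rcases Nat.lt_or_ge r (2 * q + 1 - n) with h3 | h3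
          · right
            have : r = 2 * q + 1 - (n + 1) := by omega
            subst this
            rfl
          · left; right
            exact ⟨r, h3, rfl⟩

theorem pathLeft {j : ℕ} (hq : 1 ≤ q) (hj : j < m) (s : ℕ) :
    Tour (chainG m q β) s ⟨.J (2 * j + 1), by simp only [Valid]; omega⟩ (s + (2 * q + 1))
      ⟨.J (2 * j), by simp only [Valid]; omega⟩
      {v | v.1 = .J (2 * j) ∨ v.1 = .J (2 * j + 1) ∨ ∃ r, v.1 = .P j r} := by
  have h := (pathLeft_aux (β := β) hj s (2 * q) (by omega) (le_refl _)).snoc (by omega)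
    (y := ⟨.J (2 * j), by simp only [Valid]; omega⟩) (by
      right
      simp only [E, true_and]
      omega)
  refine h.mono_set ?_
  rintro ⟨v, hv⟩ h
  rcases h with h | h | ⟨r, h⟩
  · right; exact Subtype.ext h
  · left; left; exact h
  · left; right
    simp only at h
    subst h
    exact ⟨r, by have := hv.2.1; omega, rfl⟩

/-- first half of an arm, to the right -/
theorem armRight_aux {j : ℕ} (hj : j < m) (b : Bool) (s : ℕ) :
    ∀ n, (h1 : 1 ≤ n) → (h2 : n ≤ q) →
    Tour (chainG m q β) s ⟨.J (2 * j + 1), by simp only [Valid]; omega⟩ (s + n)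
      ⟨.A b j n, ⟨hj, h1, by omega⟩⟩ {v | v.1 = .J (2 * j + 1) ∨ ∃ r ≤ n, v.1 = .A b j r} := by
  intro n
  induction n with
  | zero => intro h; omega
  | succ n ih =>
    intro h1 h2
    rcases Nat.eq_zero_or_pos n with h0 | h0
    · subst h0
      refine (chain_edge (s := s) ?_).mono_set ?_
      · left
        simp [E]
      · rintro ⟨v, hv⟩ h
        rcases h with h | ⟨r, hr, h⟩
        · left
          exact Subtype.ext h
        · right
          simp only at h
          subst h
          simp only [Valid] at hv
          have : r = 1 := by omega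
          subst this
          rfl
    · refine ((ih h0 (by omega)).snoc (by omega)
        (y := ⟨.A b j (n + 1), ⟨hj, h1, by omega⟩⟩) ?_).mono_set ?_
      · left
        simp only [E, true_and]
        intro h
        omega
      · rintro ⟨v, hv⟩ h
        rcases h with h | ⟨r, hr, h⟩
        · left; left; exact h
        · simp only at h
          subst h
          rcases Nat.lt_or_ge n r with h3 | h3
          · right
            have : r = n + 1 := by omega
            subst this
            rfl
          · left; right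
            exact ⟨r, h3, rfl⟩

/-- second half of an arm, to the right -/
theorem armRight_aux2 {j : ℕ} (hj : j < m) (b : Bool) (s : ℕ) :
    ∀ n, (h1 : q + 1 + n ≤ 2 * q) →
    Tour (chainG m q β) s ⟨.A b j (q + 1), ⟨hj, by omega, by omega⟩⟩ (s + n)
      ⟨.A b j (q + 1 + n), ⟨hj, by omega, by omega⟩⟩
      {v | ∃ r, q + 1 ≤ r ∧ r ≤ q + 1 + n ∧ v.1 = .A b j r} := by
  intro n
  induction n with
  | zero =>
    intro h1
    refine (Tour.refl s s _).mono_set ?_
    rintro ⟨v, hv⟩ ⟨r, h3, h4, h5⟩
    simp only at h5
    subst h5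
    have : r = q + 1 := by omega
    subst this
    rfl
  | succ n ih =>
    intro h1
    refine ((ih (by omega)).snoc (by omega)
        (y := ⟨.A b j (q + 1 + (n + 1)), ⟨hj, by omega, by omega⟩⟩) ?_).mono_set ?_
    · left
      simp only [E, true_and]
      constructor
      · omega
      · intro h
        omega
    · rintro ⟨v, hv⟩ ⟨r, h3, h4, h5⟩
      simp only at h5
      subst h5
      rcases Nat.lt_or_ge (q + 1 + n) r with h6 | h6
      · right
        have : r = q + 1 + (n + 1) := by omega
        subst this
        rfl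
      · left
        exact ⟨r, h3, h6, rfl⟩

theorem armRight {j : ℕ} (hq : 1 ≤ q) (hj : j < m) (b : Bool) (s δ : ℕ) (hδ : 1 ≤ δ)
    (hβ : β (s + q + δ) = b) :
    Tour (chainG m q β) s ⟨.J (2 * j + 1), by simp only [Valid]; omega⟩ (s + (2 * q + δ))
      ⟨.J (2 * j + 2), by simp only [Valid]; omega⟩
      {v | v.1 = .J (2 * j + 1) ∨ v.1 = .J (2 * j + 2) ∨ ∃ r, v.1 = .A b j r} := by
  have h1 := armRight_aux (β := β) hj b s q hq (le_refl _)
  have h2 : Tour (chainG m q β) s ⟨.J (2 * j + 1), by simp only [Valid]; omega⟩ (s + q + (δ - 1))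
      ⟨.A b j q, ⟨hj, hq, by omega⟩⟩ {v | v.1 = .J (2 * j + 1) ∨ ∃ r ≤ q, v.1 = .A b j r} :=
    h1.mono (le_refl _) (by omega)
  have h3 := h2.snoc (by omega) (y := ⟨.A b j (q + 1), ⟨hj, by omega, by omega⟩⟩) (by
    left
    simp only [E, true_and]
    intro _
    have : s + q + (δ - 1) + 1 = s + q + δ := by omega
    rw [this]
    exact hβ)
  have h4 := h3.trans (armRight_aux2 (β := β) hj b (s + q + (δ - 1) + 1) (q - 1) (by omega))
    (by omega) (by omega)
  have h5 := h4.snoc (by omega) (y := ⟨.J (2 * j + 2), by simp only [Valid]; omega⟩) (by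
    left
    simp only [E, and_true]
    omega)
  have h6 : s + q + (δ - 1) + 1 + (q - 1) + 1 = s + (2 * q + δ) := by omega
  rw [h6] at h5
  refine h5.mono_set ?_
  rintro ⟨v, hv⟩ h
  rcases h with h | h | ⟨r, h⟩
  · left; left; left; left; exact h
  · right; exact Subtype.ext h
  · simp only at h
    subst h
    rcases Nat.lt_or_ge q r with h7 | h7
    · left; right
      exact ⟨r, h7, by have := hv.2.2; omega, rfl⟩
    · left; left; left; right
      exact ⟨r, h7, rfl⟩

/-- second half of an arm, to the left -/
theorem armLeft_aux {j : ℕ} (hj : j < m) (b : Bool) (s : ℕ) :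
    ∀ n, (h1 : 1 ≤ n) → (h2 : n ≤ q) →
    Tour (chainG m q β) s ⟨.J (2 * j + 2), by simp only [Valid]; omega⟩ (s + n)
      ⟨.A b j (2 * q + 1 - n), by simp only [Valid]; omega⟩
      {v | v.1 = .J (2 * j + 2) ∨ ∃ r, 2 * q + 1 - n ≤ r ∧ v.1 = .A b j r} := by
  intro n
  induction n with
  | zero => intro h; omega
  | succ n ih =>
    intro h1 h2
    rcases Nat.eq_zero_or_pos n with h0 | h0
    · subst h0
      refine (chain_edge (s := s) ?_).mono_set ?_
      · right
        simp [E]
      · rintro ⟨v, hv⟩ h
        rcases h with h | ⟨r, hr, h⟩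
        · left
          exact Subtype.ext h
        · right
          simp only at h
          subst h
          simp only [Valid] at hv
          have : r = 2 * q + 1 - (0 + 1) := by omega
          subst this
          rfl
    · refine ((ih h0 (by omega)).snoc (by omega)
        (y := ⟨.A b j (2 * q + 1 - (n + 1)), by simp only [Valid]; omega⟩) ?_).mono_set ?_
      · right
        simp only [E, true_and]
        constructor
        · omega
        · intro h
          omega
      · rintro ⟨v, hv⟩ h
        rcases h with h | ⟨r, hr, h⟩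
        · left; left; exact h
        · simp only at h
          subst h
          rcases Nat.lt_or_ge r (2 * q + 1 - n) with h3 | h3
          · right
            have : r = 2 * q + 1 - (n + 1) := by omega
            subst this
            rfl
          · left; right
            exact ⟨r, h3, rfl⟩

/-- first half of an arm, to the left -/
theorem armLeft_aux2 {j : ℕ} (hq : 1 ≤ q) (hj : j < m) (b : Bool) (s : ℕ) :
    ∀ n, (h1 : n < q) →
    Tour (chainG m q β) s ⟨.A b j q, ⟨hj, by omega, by omega⟩⟩ (s + n)
      ⟨.A b j (q - n), by simp only [Valid]; omega⟩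
      {v | ∃ r, q - n ≤ r ∧ r ≤ q ∧ v.1 = .A b j r} := by
  intro n
  induction n with
  | zero =>
    intro h1
    refine (Tour.refl s s _).mono_set ?_
    rintro ⟨v, hv⟩ ⟨r, h3, h4, h5⟩
    simp only at h5
    subst h5
    have : r = q := by omega
    subst this
    rfl
  | succ n ih =>
    intro h1
    refine ((ih (by omega)).snoc (by omega)
        (y := ⟨.A b j (q - (n + 1)), by simp only [Valid]; omega⟩) ?_).mono_set ?_
    · right
      simp only [E, true_and]
      constructor
      · omega
      · intro h
        omega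
    · rintro ⟨v, hv⟩ ⟨r, h3, h4, h5⟩
      simp only at h5
      subst h5
      rcases Nat.lt_or_ge r (q - n) with h6 | h6
      · right
        have : r = q - (n + 1) := by omega
        subst this
        rfl
      · left
        exact ⟨r, h6, h4, rfl⟩

theorem armLeft {j : ℕ} (hq : 1 ≤ q) (hj : j < m) (b : Bool) (s δ : ℕ) (hδ : 1 ≤ δ)
    (hβ : β (s + q + δ) = b) :
    Tour (chainG m q β) s ⟨.J (2 * j + 2), by simp only [Valid]; omega⟩ (s + (2 * q + δ))
      ⟨.J (2 * j + 1), by simp only [Valid]; omega⟩
      {v | v.1 = .J (2 * j + 1) ∨ v.1 = .J (2 * j + 2) ∨ ∃ r, v.1 = .A b j r} := by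
  have h1 := armLeft_aux (β := β) hj b s q hq (le_refl _)
  have h2 : Tour (chainG m q β) s ⟨.J (2 * j + 2), by simp only [Valid]; omega⟩ (s + q + (δ - 1))
      ⟨.A b j (2 * q + 1 - q), by simp only [Valid]; omega⟩
      {v | v.1 = .J (2 * j + 2) ∨ ∃ r, 2 * q + 1 - q ≤ r ∧ v.1 = .A b j r} :=
    h1.mono (le_refl _) (by omega)
  have h3 := h2.snoc (by omega) (y := ⟨.A b j q, ⟨hj, by omega, by omega⟩⟩) (by
    right
    simp only [E, true_and]
    constructor
    · omega
    · intro _
      have : s + q + (δ - 1) + 1 = s + q + δ := by omega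
      rw [this]
      exact hβ)
  have h4 := h3.trans (armLeft_aux2 (β := β) hq hj b (s + q + (δ - 1) + 1) (q - 1) (by omega))
    (by omega) (by omega)
  have h5 := h4.snoc (by omega) (y := ⟨.J (2 * j + 1), by simp only [Valid]; omega⟩) (by
    right
    simp only [E, true_and]
    omega)
  have h6 : s + q + (δ - 1) + 1 + (q - 1) + 1 = s + (2 * q + δ) := by omega
  rw [h6] at h5
  refine h5.mono_set ?_
  rintro ⟨v, hv⟩ h
  rcases h with h | h | ⟨r, h⟩
  · right; exact Subtype.ext h
  · left; left; left; left; exact h
  · simp only at h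
    subst h
    rcases Nat.lt_or_ge q r with h7 | h7
    · left; left; left; right
      exact ⟨r, by omega, rfl⟩
    · left; right
      exact ⟨r, by have := hv.2.1; omega, h7, rfl⟩

/-- visited territory is crossed at unit speed -/
theorem cross_right (hq : 1 ≤ q) {i : ℕ} (hi : i < 2 * m) (s : ℕ) :
    Arrives (chainG m q β) s ⟨.J i, by simp only [Valid]; omega⟩ (s + (2 * q + 1))
      ⟨.J (i + 1), by simp only [Valid]; omega⟩ := by
  rcases Nat.even_or_odd' i with ⟨j, h | h⟩
  · subst h
    exact (pathRight hq (by omega) s).arrives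
  · subst h
    exact (armRight hq (by omega) (β (s + q + 1)) s 1 (le_refl _) rfl).arrives

theorem cross_left (hq : 1 ≤ q) {i : ℕ} (hi : i < 2 * m) (s : ℕ) :
    Arrives (chainG m q β) s ⟨.J (i + 1), by simp only [Valid]; omega⟩ (s + (2 * q + 1))
      ⟨.J i, by simp only [Valid]; omega⟩ := by
  rcases Nat.even_or_odd' i with ⟨j, h | h⟩
  · subst h
    exact (pathLeft hq (by omega) s).arrives
  · subst h
    exact (armLeft hq (by omega) (β (s + q + 1)) s 1 (le_refl _) rfl).arrives

theorem cross_right_many (hq : 1 ≤ q) {i : ℕ} (s : ℕ) : ∀ n, (hi : i + n ≤ 2 * m) →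
    Arrives (chainG m q β) s ⟨.J i, by simp only [Valid]; omega⟩ (s + n * (2 * q + 1))
      ⟨.J (i + n), by simp only [Valid]; omega⟩ := by
  intro n
  induction n with
  | zero => intro hi; exact Arrives.refl _ _ _
  | succ n ih =>
    intro hi
    have h1 := (ih (by omega)).trans (cross_right (m := m) (β := β) hq (i := i + n) (by omega)
      (s + n * (2 * q + 1))) (by omega) (by omega)
    have h2 : s + n * (2 * q + 1) + (2 * q + 1) = s + (n + 1) * (2 * q + 1) := by ring
    rw [h2] at h1
    exact h1

theorem cross_left_many (hq : 1 ≤ q) {i : ℕ} : ∀ n, (hi : i + n ≤ 2 * m) → ∀ s : ℕ,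
    Arrives (chainG m q β) s ⟨.J (i + n), by simp only [Valid]; omega⟩ (s + n * (2 * q + 1))
      ⟨.J i, by simp only [Valid]; omega⟩ := by
  intro n
  induction n with
  | zero => intro hi s; exact Arrives.refl _ _ _
  | succ n ih =>
    intro hi s
    have h1 := cross_left (m := m) (β := β) hq (i := i + n) (by omega) s
    have h7 := h1.trans (ih (by omega) (s + (2 * q + 1))) (by omega) (by omega)
    have h2 : s + (2 * q + 1) + n * (2 * q + 1) = s + (n + 1) * (2 * q + 1) := by ring
    rw [h2] at h7
    exact h7

end walks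

end Pool.Agent.Helper68
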