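import Pool.Agent.Helper68.FTDefs

/-!
# Paths in fault tolerant graphs
-/

namespace Pool.Agent.Helper68

section setpair

variable {ι α : Type*} [DecidableEq α] [DecidableEq ι]

/-- A set-pair inequality. -/
theorem setpair (f : ι → ℕ) (Z : ι → Finset α) (b : ℕ) : ∀ (a : ℕ) (A : ι → Finset α)
    (s : Finset ι), (∀ i ∈ s, (A i).card ≤ a) → (∀ i ∈ s, (Z i).card ≤ b) →
    (∀ i ∈ s, Disjoint (A i) (Z i)) →
    (∀ i ∈ s, ∀ j ∈ s, i ≠ j → f j ≤ f i → ¬ Disjoint (A j) (Z i)) →
    s.card ≤ (b + 1) ^ a := by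
  intro a
  induction a with
  | zero =>
    intro A s hA _ _ h4
    rw [pow_zero, Finset.card_le_one]
    intro i hi j hj
    by_contra hne
    have hAi : A i = ∅ := Finset.card_eq_zero.mp (Nat.le_zero.mp (hA i hi))
    have hAj : A j = ∅ := Finset.card_eq_zero.mp (Nat.le_zero.mp (hA j hj))
    rcases le_total (f j) (f i) with h | h
    · exact h4 i hi j hj hne h (by rw [hAj]; exact Finset.disjoint_empty_left _)
    · exact h4 j hj i hi (Ne.symm hne) h (by rw [hAi]; exact Finset.disjoint_empty_left _)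
  | succ a ih =>
    intro A s hA hZ h3 h4
    rcases s.eq_empty_or_nonempty with rfl | hs
    · simp
    · obtain ⟨i₀, hi₀, hmax⟩ := s.exists_max_image f hs
      have hsub : s ⊆ insert i₀ ((Z i₀).biUnion (fun z => s.filter (fun j => j ≠ i₀ ∧ z ∈ A j))) := by
        intro j hj
        rw [Finset.mem_insert]
        by_cases hji : j = i₀
        · left; exact hji
        · right
          have := h4 i₀ hi₀ j hj (fun h => hji h.symm) (hmax j hj)
          rw [Finset.not_disjoint_iff] at this
          obtain ⟨z, hz1, hz2⟩ := this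
          rw [Finset.mem_biUnion]
          exact ⟨z, hz2, by simp [hj, hji, hz1]⟩
      have hcard : ∀ z ∈ Z i₀, (s.filter (fun j => j ≠ i₀ ∧ z ∈ A j)).card ≤ (b + 1) ^ a := by
        intro z _
        refine ih (fun j => (A j).erase z) _ ?_ ?_ ?_ ?_
        · intro j hj
          rw [Finset.mem_filter] at hj
          rw [Finset.card_erase_of_mem hj.2.2]
          have := hA j hj.1
          omega
        · intro j hj
          rw [Finset.mem_filter] at hj
          exact hZ j hj.1
        · intro j hj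
          rw [Finset.mem_filter] at hj
          exact (h3 j hj.1).mono_left (Finset.erase_subset _ _)
        · intro i hi j hj hij hf
          rw [Finset.mem_filter] at hi hj
          have h5 := h4 i hi.1 j hj.1 hij hf
          rw [Finset.not_disjoint_iff] at h5 ⊢
          obtain ⟨y, hy1, hy2⟩ := h5
          refine ⟨y, ?_, hy2⟩
          rw [Finset.mem_erase]
          refine ⟨?_, hy1⟩
          rintro rfl
          exact Finset.disjoint_left.mp (h3 i hi.1) hi.2.2 hy2
      calc s.card ≤ (insert i₀ ((Z i₀).biUnion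
            (fun z => s.filter (fun j => j ≠ i₀ ∧ z ∈ A j)))).card := Finset.card_le_card hsub
        _ ≤ ((Z i₀).biUnion (fun z => s.filter (fun j => j ≠ i₀ ∧ z ∈ A j))).card + 1 :=
            Finset.card_insert_le _ _
        _ ≤ (Z i₀).card * (b + 1) ^ a + 1 := by
            gcongr
            exact Finset.card_biUnion_le_card_mul _ _ _ hcard
        _ ≤ b * (b + 1) ^ a + (b + 1) ^ a := by
            have := hZ i₀ hi₀
            have h6 : 1 ≤ (b + 1) ^ a := Nat.one_le_pow _ _ (by omega)
            gcongr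
        _ = (b + 1) ^ (a + 1) := by ring

end setpair

section paths

variable {V : Type} [Fintype V] [DecidableEq V] {G : SimpleGraph V} {d k : ℕ}

/-- a path given by a function, avoiding `S` -/
def PathAvoid (G : SimpleGraph V) (S : Finset V) (ℓ : ℕ) (p : ℕ → V) (u v : V) : Prop :=
  p 0 = u ∧ p ℓ = v ∧ (∀ i < ℓ, G.Adj (p i) (p (i + 1))) ∧ ∀ i ≤ ℓ, p i ∉ S

theorem PathAvoid.reverse {S : Finset V} {ℓ : ℕ} {p : ℕ → V} {u v : V}
    (h : PathAvoid G S ℓ p u v) : PathAvoid G S ℓ (fun i => p (ℓ - i)) v u := by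
  obtain ⟨h0, h1, h2, h3⟩ := h
  refine ⟨by simpa using h1, by simpa using h0, ?_, ?_⟩
  · intro i hi
    have := h2 (ℓ - (i + 1)) (by omega)
    have h4 : ℓ - (i + 1) + 1 = ℓ - i := by omega
    rw [h4] at this
    exact this.symm
  · intro i hi
    exact h3 _ (by omega)

theorem FaultTolerant.path (h : FaultTolerant G d k) (hk : 1 ≤ k)
    (hn : k + 1 ≤ Fintype.card V) {S : Finset V} (hS : S.card ≤ k - 1) {u v : V} (hu : u ∉ S)
    (hv : v ∉ S) : ∃ ℓ ≤ d, ∃ p, PathAvoid G S ℓ p u v := by
  obtain ⟨S', h1, h2, h3⟩ : ∃ S' : Finset V, S ⊆ S' ∧ S' ⊆ (Finset.univ \ {u, v}) ∧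
      S'.card = k - 1 := by
    apply Finset.exists_subsuperset_card_eq
    · intro x hx
      simp only [Finset.mem_sdiff, Finset.mem_univ, true_and, Finset.mem_insert,
        Finset.mem_singleton, not_or]
      constructor
      · rintro rfl; exact hu hx
      · rintro rfl; exact hv hx
    · exact hS
    · have h4 : (Finset.univ \ {u, v} : Finset V).card + ({u, v} : Finset V).card =
          Fintype.card V := by
        rw [Finset.card_sdiff_add_card_eq_card (Finset.subset_univ _), Finset.card_univ]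
      have h5 : ({u, v} : Finset V).card ≤ 2 := Finset.card_le_two
      omega
  have hu' : u ∉ S' := by
    intro hx
    have := h2 hx
    simp at this
  have hv' : v ∉ S' := by
    intro hx
    have := h2 hx
    simp at this
  have h4 : (G.induce {v | v ∉ S'}).edist ⟨u, hu'⟩ ⟨v, hv'⟩ ≤ (d : ℕ∞) :=
    SimpleGraph.edist_le_ediam.trans (h S' h3)
  have h5 : (G.induce {v | v ∉ S'}).edist ⟨u, hu'⟩ ⟨v, hv'⟩ ≠ ⊤ := by
    intro h6
    rw [h6] at h4
    exact absurd h4 (by simp)
  obtain ⟨q, hq⟩ := SimpleGraph.exists_walk_of_edist_ne_top h5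
  rw [← hq] at h4
  refine ⟨q.length, by exact_mod_cast h4, fun i => (q.getVert i).1, ?_, ?_, ?_, ?_⟩
  · simp
  · simp
  · intro i hi
    exact q.adj_getVert_succ hi
  · intro i _ hx
    exact (q.getVert i).2 (h1 hx)

end paths

section reach

variable {V : Type} [Fintype V] [DecidableEq V] (G : SimpleGraph V) [DecidableRel G.Adj]
  (H : Finset V)

/-- vertices reached by a walk of length exactly `m` from `u` such that all vertices of the walk
except possibly the last one lie outside `H` -/
def R : ℕ → V → Finset V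
  | 0, u => {u}
  | m + 1, u => ((R m u) \ H).biUnion (fun x => G.neighborFinset x)

variable {G H}

theorem card_R_le {D : ℕ} (hD : ∀ x ∉ H, G.degree x ≤ D) (m : ℕ) (u : V) :
    (R G H m u).card ≤ D ^ m := by
  induction m with
  | zero => simp [R]
  | succ m ih =>
    calc (R G H (m + 1) u).card ≤ ((R G H m u) \ H).card * D := by
          refine Finset.card_biUnion_le_card_mul _ _ _ ?_
          intro x hx
          rw [Finset.mem_sdiff] at hx
          rw [SimpleGraph.card_neighborFinset_eq_degree]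
          exact hD x hx.2
      _ ≤ D ^ m * D := by
          gcongr
          exact (Finset.card_le_card Finset.sdiff_subset).trans ih
      _ = D ^ (m + 1) := by ring

theorem mem_R_of_path {S : Finset V} {ℓ : ℕ} {p : ℕ → V} {u v : V}
    (h : PathAvoid G S ℓ p u v) {t : ℕ} (ht : t ≤ ℓ) (hlow : ∀ i < t, p i ∉ H) :
    p t ∈ R G H t u := by
  induction t with
  | zero => simp [R, h.1]
  | succ t ih =>
    have h1 := ih (by omega) (fun i hi => hlow i (by omega))
    simp only [R, Finset.mem_biUnion, Finset.mem_sdiff, SimpleGraph.mem_neighborFinset]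
    exact ⟨p t, ⟨h1, hlow t (by omega)⟩, h.2.2.1 t (by omega)⟩

/-- the first hub on a path, if any -/
theorem first_hub {S : Finset V} {ℓ : ℕ} {p : ℕ → V} {u v : V}
    (h : PathAvoid G S ℓ p u v) :
    (∀ i ≤ ℓ, p i ∉ H) ∨ ∃ t ≤ ℓ, p t ∈ H ∧ (∀ i < t, p i ∉ H) ∧ p t ∈ R G H t u := by
  classical
  by_cases hex : ∃ t, t ≤ ℓ ∧ p t ∈ H
  · right
    have h1 := Nat.find_spec hex
    have h2 : ∀ i < Nat.find hex, p i ∉ H := by
      intro i hi hpi
      exact Nat.find_min hex hi ⟨by omega, hpi⟩
    exact ⟨Nat.find hex, h1.1, h1.2, h2, mem_R_of_path h h1.1 h2⟩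
  · left
    intro i hi hpi
    exact hex ⟨i, hi, hpi⟩

/-- The vertices outside `H` reached by walks of length between `1` and `d` outside `H`. -/
def Ball (G : SimpleGraph V) [DecidableRel G.Adj] (H : Finset V) (d : ℕ) (u : V) : Finset V :=
  (((Finset.Icc 1 d).biUnion (fun m => R G H m u)) \ H).erase u

theorem card_Ball_le {D : ℕ} (hD1 : 1 ≤ D) (hD : ∀ x ∉ H, G.degree x ≤ D) (d : ℕ) (u : V) :
    (Ball G H d u).card ≤ d * D ^ d := by
  calc (Ball G H d u).card ≤ ((Finset.Icc 1 d).biUnion (fun m => R G H m u)).card :=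
        Finset.card_le_card ((Finset.erase_subset _ _).trans Finset.sdiff_subset)
    _ ≤ (Finset.Icc 1 d).card * D ^ d := by
        refine Finset.card_biUnion_le_card_mul _ _ _ ?_
        intro m hm
        rw [Finset.mem_Icc] at hm
        exact (card_R_le hD m u).trans (Nat.pow_le_pow_right hD1 hm.2)
    _ = d * D ^ d := by simp

/-- Two low vertices are joined by a low path or the path has a first and a last hub. -/
theorem path_cases {S : Finset V} {ℓ d : ℕ} {p : ℕ → V} {u v : V}
    (h : PathAvoid G S ℓ p u v) (hℓ : ℓ ≤ d) (hu : u ∉ H) (hv : v ∉ H) (hne : v ≠ u) :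
    v ∈ Ball G H d u ∨ ∃ t t', t ≤ ℓ ∧ t' ≤ ℓ ∧ t + t' ≤ ℓ ∧ p t ∈ H ∧ p (ℓ - t') ∈ H ∧
      p t ∉ S ∧ p (ℓ - t') ∉ S ∧ 1 ≤ t ∧ 1 ≤ t' ∧
      p t ∈ R G H t u ∧ p (ℓ - t') ∈ R G H t' v := by
  rcases first_hub (H := H) h with h1 | ⟨t, ht, ht1, ht2, ht3⟩
  · left
    unfold Ball
    rw [Finset.mem_erase, Finset.mem_sdiff, Finset.mem_biUnion]
    refine ⟨hne, ⟨ℓ, ?_, ?_⟩, hv⟩
    · rw [Finset.mem_Icc]
      refine ⟨?_, hℓ⟩
      by_contra h2
      have h3 : ℓ = 0 := by omega
      have := h.1
      have h4 := h.2.1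
      rw [h3, this] at h4
      exact hne h4.symm
    · have := mem_R_of_path (H := H) h (le_refl ℓ) (fun i hi => h1 i (by omega))
      rw [h.2.1] at this
      exact this
  · right
    rcases first_hub (H := H) h.reverse with h1 | ⟨t', ht', ht1', ht2', ht3'⟩
    · exfalso
      have := h1 (ℓ - t) (by omega)
      have h2 : ℓ - (ℓ - t) = t := by omega
      simp only [h2] at this
      exact this ht1
    · refine ⟨t, t', ht, ht', ?_, ht1, ht1', h.2.2.2 t ht, h.2.2.2 _ (by omega), ?_, ?_, ht3,
        ht3'⟩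
      · by_contra hcon
        exact ht2 (ℓ - t') (by omega) ht1'
      · by_contra hcon
        have h0 : t = 0 := by omega
        rw [h0, h.1] at ht1
        exact hu ht1
      · by_contra hcon
        have h0 : t' = 0 := by omega
        rw [h0] at ht1'
        simp only [Nat.sub_zero, h.2.1] at ht1'
        exact hv ht1'

end reach

end Pool.Agent.Helper68
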