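import Mathlib

/-!
# Fault tolerant graphs of bounded diameter: definitions for MP_1438b7_co
-/

namespace Pool.Agent.Helper68

/-- For every set `S` of `k - 1` vertices the graph `G - S` has diameter at most `d`
(the diameter of a disconnected graph is infinite). -/
def FaultTolerant {V : Type} (G : SimpleGraph V) (d k : ℕ) : Prop :=
  ∀ S : Finset V, S.card = k - 1 → (G.induce {v | v ∉ S}).ediam ≤ (d : ℕ∞)

/-- `fhat n d k` is the least number of edges of a graph `G` on `n` vertices such that `G - S`
has diameter at most `d` for every set `S` of `k - 1` vertices. -/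
noncomputable def fhat (n d k : ℕ) : ℕ :=
  sInf {e : ℕ | ∃ G : SimpleGraph (Fin n), FaultTolerant G d k ∧ G.edgeSet.ncard = e}

/-- `phihat n d k = fhat n d k - k n / 2` -/
noncomputable def phihat (n d k : ℕ) : ℝ := (fhat n d k : ℝ) - (k : ℝ) * n / 2

end Pool.Agent.Helper68
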