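import Pool.Agent.Helper68.FTBasic

/-!
# Lower bounds for the number of edges of fault tolerant graphs
-/

namespace Pool.Agent.Helper68

section counting

variable {V : Type} [Fintype V] [DecidableEq V] {G : SimpleGraph V} [DecidableRel G.Adj]

/-- Edge count in terms of hub degrees `j` and low degrees `ℓ` of the low vertices. -/
theorem two_mul_edges_ge (H : Finset V) :
    ∑ u ∈ Hᶜ, (2 * (G.neighborFinset u ∩ H).card + (G.neighborFinset u \ H).card) ≤
      2 * G.edgeFinset.card := by
  rw [← G.sum_degrees_eq_twice_card_edges, ← Finset.sum_add_sum_compl H]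
  have h1 : ∑ h ∈ H, (G.neighborFinset h \ H).card = ∑ u ∈ Hᶜ, (G.neighborFinset u ∩ H).card := by
    have := Finset.sum_card_bipartiteAbove_eq_sum_card_bipartiteBelow (s := H) (t := Hᶜ)
      (r := fun a b => G.Adj a b)
    rw [Finset.sum_congr rfl (g := fun h => (Finset.bipartiteAbove (fun a b => G.Adj a b) Hᶜ h).card),
      this]
    · refine Finset.sum_congr rfl fun u _ => ?_
      congr 1
      ext x
      simp only [Finset.mem_bipartiteBelow, Finset.mem_inter, SimpleGraph.mem_neighborFinset]
      constructor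
      · rintro ⟨h1, h2⟩; exact ⟨h2.symm, h1⟩
      · rintro ⟨h1, h2⟩; exact ⟨h2, h1.symm⟩
    · intro h _
      congr 1
      ext x
      simp only [Finset.mem_bipartiteAbove, Finset.mem_sdiff, SimpleGraph.mem_neighborFinset,
        Finset.mem_compl]
      tauto
  have h2 : ∀ h ∈ H, (G.neighborFinset h \ H).card ≤ G.degree h := by
    intro h _
    rw [← SimpleGraph.card_neighborFinset_eq_degree]
    exact Finset.card_le_card Finset.sdiff_subset
  have h3 := Finset.sum_le_sum h2
  have h4 : ∀ u ∈ Hᶜ, (G.neighborFinset u ∩ H).card + (G.neighborFinset u \ H).card =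
      G.degree u := by
    intro u _
    rw [← SimpleGraph.card_neighborFinset_eq_degree]
    exact Finset.card_inter_add_card_sdiff _ _
  have h5 : ∑ u ∈ Hᶜ, (2 * (G.neighborFinset u ∩ H).card + (G.neighborFinset u \ H).card) =
      ∑ u ∈ Hᶜ, (G.neighborFinset u ∩ H).card + ∑ u ∈ Hᶜ, G.degree u := by
    rw [← Finset.sum_add_distrib]
    refine Finset.sum_congr rfl fun u hu => ?_
    rw [← h4 u hu]
    ring
  rw [h5]
  omega

/-- the set of vertices of degree larger than `D` -/
def hubs (G : SimpleGraph V) [DecidableRel G.Adj] (D : ℕ) : Finset V :=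
  Finset.univ.filter (fun v => D < G.degree v)

theorem degree_le_of_notMem_hubs {D : ℕ} {v : V} (h : v ∉ hubs G D) : G.degree v ≤ D := by
  unfold hubs at h
  simp only [Finset.mem_filter, Finset.mem_univ, true_and, not_lt] at h
  exact h

theorem card_hubs_mul_le (D : ℕ) : (hubs G D).card * D ≤ 2 * G.edgeFinset.card := by
  rw [← G.sum_degrees_eq_twice_card_edges]
  calc (hubs G D).card * D = ∑ v ∈ hubs G D, D := by simp
    _ ≤ ∑ v ∈ hubs G D, G.degree v := by
        refine Finset.sum_le_sum fun v hv => ?_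
        unfold hubs at hv
        simp only [Finset.mem_filter, Finset.mem_univ, true_and] at hv
        exact hv.le
    _ ≤ ∑ v, G.degree v := Finset.sum_le_sum_of_subset (Finset.subset_univ _)

theorem R_one {H : Finset V} {u : V} (hu : u ∉ H) : R G H 1 u = G.neighborFinset u := by
  simp only [R]
  rw [Finset.sdiff_eq_self_of_disjoint (by simpa using hu)]
  simp

end counting

section d3

variable {V : Type} [Fintype V] [DecidableEq V] {G : SimpleGraph V} [DecidableRel G.Adj]

/-- few low vertices have fewer than `k` hub neighbours -/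
theorem viol3 {k D : ℕ} {H : Finset V} (h : FaultTolerant G 3 k) (hk : 1 ≤ k)
    (hn : k + 1 ≤ Fintype.card V) (hD1 : 1 ≤ D) (hD : ∀ x ∉ H, G.degree x ≤ D) :
    (Hᶜ.filter (fun u => (G.neighborFinset u ∩ H).card < k)).card ≤ (4 * D ^ 3 + 1) ^ k := by
  refine setpair (fun _ => 0) (fun u => ((R G H 2 u ∩ H) \ (G.neighborFinset u ∩ H)) ∪
    Ball G H 3 u) (4 * D ^ 3) k (fun u => insert u (G.neighborFinset u ∩ H)) _ ?_ ?_ ?_ ?_
  · intro u hu
    rw [Finset.mem_filter, Finset.mem_compl] at hu
    refine (Finset.card_insert_le _ _).trans ?_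
    omega
  · intro u hu
    refine (Finset.card_union_le _ _).trans ?_
    have h1 : ((R G H 2 u ∩ H) \ (G.neighborFinset u ∩ H)).card ≤ D ^ 2 :=
      (Finset.card_le_card (Finset.sdiff_subset.trans Finset.inter_subset_left)).trans
        (card_R_le hD 2 u)
    have h2 := card_Ball_le (G := G) hD1 hD 3 u
    have h3 : D ^ 2 ≤ D ^ 3 := Nat.pow_le_pow_right hD1 (by omega)
    omega
  · intro u hu
    rw [Finset.mem_filter, Finset.mem_compl] at hu
    rw [Finset.disjoint_left]
    intro x hx hx2
    rw [Finset.mem_insert] at hx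
    rw [Finset.mem_union, Finset.mem_sdiff] at hx2
    rcases hx with rfl | hx
    · rcases hx2 with hx2 | hx2
      · exact hu.1 (Finset.mem_inter.mp hx2.1).2
      · unfold Ball at hx2
        simp at hx2
    · rcases hx2 with hx2 | hx2
      · exact hx2.2 hx
      · unfold Ball at hx2
        rw [Finset.mem_erase, Finset.mem_sdiff] at hx2
        exact hx2.2.2 (Finset.mem_inter.mp hx).2
  · intro u hu v hv huv _
    rw [Finset.mem_filter, Finset.mem_compl] at hu hv
    obtain ⟨ℓ, hℓ, p, hp⟩ := h.path hk hn (S := G.neighborFinset u ∩ H) (by omega)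
      (u := u) (v := v) (fun hx => hu.1 (Finset.mem_inter.mp hx).2)
      (fun hx => hv.1 (Finset.mem_inter.mp hx).2)
    rw [Finset.not_disjoint_iff]
    rcases path_cases hp hℓ hu.1 hv.1 (Ne.symm huv) with h1 | ⟨t, t', -, -, htt, h1, -, h3, -, h4,
      h5, h6, h7⟩
    · exact ⟨v, Finset.mem_insert_self _ _, Finset.mem_union_right _ h1⟩
    · have ht1 : t ≠ 1 := by
        rintro rfl
        rw [R_one hu.1] at h6
        exact h3 (Finset.mem_inter.mpr ⟨h6, h1⟩)
      have ht2 : t = 2 := by omega
      have ht3 : t' = 1 := by omega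
      have ht4 : ℓ = 3 := by omega
      subst ht2 ht3 ht4
      rw [R_one hv.1] at h7
      refine ⟨p 2, ?_, ?_⟩
      · rw [Finset.mem_insert, Finset.mem_inter]
        right
        exact ⟨h7, h1⟩
      · rw [Finset.mem_union, Finset.mem_sdiff]
        left
        exact ⟨Finset.mem_inter.mpr ⟨h6, h1⟩, h3⟩

/-- lower bound for `d = 3` -/
theorem lower3 {k D : ℕ} (h : FaultTolerant G 3 k) (hk : 1 ≤ k)
    (hn : k + 1 ≤ Fintype.card V) (hD1 : 1 ≤ D) :
    k * Fintype.card V ≤ G.edgeFinset.card + k * (hubs G D).card + k * (4 * D ^ 3 + 1) ^ k := by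
  have h1 := viol3 (H := hubs G D) h hk hn hD1 (fun x hx => degree_le_of_notMem_hubs hx)
  have h2 := two_mul_edges_ge (G := G) (hubs G D)
  set H := hubs G D with hH
  have h3 : ∑ u ∈ Hᶜ, 2 * k ≤ ∑ u ∈ Hᶜ, (2 * (G.neighborFinset u ∩ H).card +
      (G.neighborFinset u \ H).card) + ∑ u ∈ Hᶜ.filter
        (fun u => (G.neighborFinset u ∩ H).card < k), 2 * k := by
    rw [Finset.sum_filter, ← Finset.sum_add_distrib]
    refine Finset.sum_le_sum fun u _ => ?_
    split_ifs with h4
    · omega
    · omega
  rw [Finset.sum_const, Finset.sum_const, smul_eq_mul, smul_eq_mul] at h3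
  have h4 : Hᶜ.card + H.card = Fintype.card V := by
    rw [Finset.card_compl_add_card]
  have h5 : (Hᶜ.filter (fun u => (G.neighborFinset u ∩ H).card < k)).card * (2 * k) ≤
      (4 * D ^ 3 + 1) ^ k * (2 * k) := Nat.mul_le_mul_right _ h1
  rw [← h4]
  nlinarith

end d3

end Pool.Agent.Helper68
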