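import Pool.Agent.Helper68.FTLower

/-!
# Lower bound for `d = 5`
-/

namespace Pool.Agent.Helper68

section d5

variable {V : Type} [Fintype V] [DecidableEq V] {G : SimpleGraph V} [DecidableRel G.Adj]

/-- hub neighbours -/
def Xs (G : SimpleGraph V) [DecidableRel G.Adj] (H : Finset V) (u : V) : Finset V :=
  G.neighborFinset u ∩ H

/-- hubs within distance two (through low vertices) -/
def As (G : SimpleGraph V) [DecidableRel G.Adj] (H : Finset V) (u : V) : Finset V :=
  (R G H 1 u ∪ R G H 2 u) ∩ H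

theorem Xs_subset_As {H : Finset V} {u : V} (hu : u ∉ H) : Xs G H u ⊆ As G H u := by
  unfold Xs As
  rw [R_one hu]
  intro x hx
  rw [Finset.mem_inter] at hx ⊢
  exact ⟨Finset.mem_union_left _ hx.1, hx.2⟩

theorem card_As_le {H : Finset V} {u : V} (hu : u ∉ H) :
    (As G H u).card ≤ (Xs G H u).card + ∑ v ∈ G.neighborFinset u \ H, (Xs G H v).card := by
  have h1 : As G H u ⊆ Xs G H u ∪ (G.neighborFinset u \ H).biUnion (fun v => Xs G H v) := by
    intro x hx
    unfold As at hx
    rw [Finset.mem_inter, Finset.mem_union, R_one hu] at hx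
    obtain ⟨hx1 | hx1, hx2⟩ := hx
    · exact Finset.mem_union_left _ (Finset.mem_inter.mpr ⟨hx1, hx2⟩)
    · apply Finset.mem_union_right
      have : R G H 2 u = ((R G H 1 u) \ H).biUnion (fun x => G.neighborFinset x) := rfl
      rw [this, R_one hu, Finset.mem_biUnion] at hx1
      obtain ⟨v, hv1, hv2⟩ := hx1
      rw [Finset.mem_biUnion]
      exact ⟨v, hv1, Finset.mem_inter.mpr ⟨hv2, hx2⟩⟩
  refine (Finset.card_le_card h1).trans ((Finset.card_union_le _ _).trans ?_)
  gcongr
  exact Finset.card_biUnion_le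

/-- the family lemma -/
theorem fam5 {k D : ℕ} {H : Finset V} (h : FaultTolerant G 5 k) (hk : 1 ≤ k)
    (hn : k + 1 ≤ Fintype.card V) (hD1 : 1 ≤ D) (hD : ∀ x ∉ H, G.degree x ≤ D) (s : Finset V)
    (hs : ∀ u ∈ s, u ∉ H) (hs1 : ∀ u ∈ s, (As G H u).card ≤ k)
    (hs2 : ∀ u ∈ s, ∀ v ∈ s, u ≠ v → (Xs G H v).card ≤ (Xs G H u).card →
      (As G H u ∪ Xs G H v).card ≤ k - 1) :
    s.card ≤ (6 * D ^ 5 + 1) ^ (k + 1) := by
  refine setpair (fun u => (Xs G H u).card) (fun u => ((R G H 3 u ∩ H) \ As G H u) ∪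
    Ball G H 5 u) (6 * D ^ 5) (k + 1) (fun u => insert u (As G H u)) _ ?_ ?_ ?_ ?_
  · intro u hu
    refine (Finset.card_insert_le _ _).trans ?_
    have := hs1 u hu
    omega
  · intro u hu
    refine (Finset.card_union_le _ _).trans ?_
    have h1 : ((R G H 3 u ∩ H) \ As G H u).card ≤ D ^ 3 :=
      (Finset.card_le_card (Finset.sdiff_subset.trans Finset.inter_subset_left)).trans
        (card_R_le hD 3 u)
    have h2 := card_Ball_le (G := G) hD1 hD 5 u
    have h3 : D ^ 3 ≤ D ^ 5 := Nat.pow_le_pow_right hD1 (by omega)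
    omega
  · intro u hu
    have huH := hs u hu
    rw [Finset.disjoint_left]
    intro x hx hx2
    rw [Finset.mem_insert] at hx
    rw [Finset.mem_union, Finset.mem_sdiff] at hx2
    rcases hx with rfl | hx
    · rcases hx2 with hx2 | hx2
      · exact huH (Finset.mem_inter.mp hx2.1).2
      · unfold Ball at hx2
        simp at hx2
    · rcases hx2 with hx2 | hx2
      · exact hx2.2 hx
      · unfold Ball at hx2
        rw [Finset.mem_erase, Finset.mem_sdiff] at hx2
        exact hx2.2.2 (Finset.mem_inter.mp hx).2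
  · intro u hu v hv huv hf
    have huH := hs u hu
    have hvH := hs v hv
    have hSH : ∀ x ∈ As G H u ∪ Xs G H v, x ∈ H := by
      intro x hx
      rw [Finset.mem_union] at hx
      rcases hx with hx | hx
      · exact (Finset.mem_inter.mp hx).2
      · exact (Finset.mem_inter.mp hx).2
    obtain ⟨ℓ, hℓ, p, hp⟩ := h.path hk hn (S := As G H u ∪ Xs G H v) (hs2 u hu v hv huv hf)
      (u := u) (v := v) (fun hx => huH (hSH _ hx)) (fun hx => hvH (hSH _ hx))
    rw [Finset.not_disjoint_iff]
    rcases path_cases hp hℓ huH hvH (Ne.symm huv) with h1 | ⟨t, t', -, -, htt, h1, h2, h3, h3', h4,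
      h5, h6, h7⟩
    · exact ⟨v, Finset.mem_insert_self _ _, Finset.mem_union_right _ h1⟩
    · have ht1 : t ≠ 1 := by
        rintro rfl
        exact h3 (Finset.mem_union_left _ (Finset.mem_inter.mpr
          ⟨Finset.mem_union_left _ h6, h1⟩))
      have ht2 : t ≠ 2 := by
        rintro rfl
        exact h3 (Finset.mem_union_left _ (Finset.mem_inter.mpr
          ⟨Finset.mem_union_right _ h6, h1⟩))
      have ht3 : t' ≠ 1 := by
        rintro rfl
        rw [R_one hvH] at h7
        exact h3' (Finset.mem_union_right _ (Finset.mem_inter.mpr ⟨h7, h2⟩))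
      have e1 : t = 3 := by omega
      have e2 : t' = 2 := by omega
      have e3 : ℓ = 5 := by omega
      subst e1 e2 e3
      refine ⟨p 3, ?_, ?_⟩
      · rw [Finset.mem_insert]
        right
        exact Finset.mem_inter.mpr ⟨Finset.mem_union_right _ h7, h1⟩
      · rw [Finset.mem_union, Finset.mem_sdiff]
        left
        exact ⟨Finset.mem_inter.mpr ⟨h6, h1⟩, fun hx => h3 (Finset.mem_union_left _ hx)⟩

theorem viol0 {k D : ℕ} {H : Finset V} (h : FaultTolerant G 5 k) (hk : 1 ≤ k)
    (hn : k + 1 ≤ Fintype.card V) (hD1 : 1 ≤ D) (hD : ∀ x ∉ H, G.degree x ≤ D) :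
    (Hᶜ.filter (fun u => (Xs G H u).card = 0 ∧ (As G H u).card < k)).card ≤
      (6 * D ^ 5 + 1) ^ (k + 1) := by
  refine fam5 h hk hn hD1 hD _ ?_ ?_ ?_
  · intro u hu
    rw [Finset.mem_filter, Finset.mem_compl] at hu
    exact hu.1
  · intro u hu
    rw [Finset.mem_filter] at hu
    omega
  · intro u hu v hv _ _
    rw [Finset.mem_filter] at hu hv
    have h1 := Finset.card_union_le (As G H u) (Xs G H v)
    omega

theorem violh {k D : ℕ} {H : Finset V} (h : FaultTolerant G 5 k) (hk : 1 ≤ k)
    (hn : k + 1 ≤ Fintype.card V) (hD1 : 1 ≤ D) (hD : ∀ x ∉ H, G.degree x ≤ D) (g : V) :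
    (Hᶜ.filter (fun u => g ∈ Xs G H u ∧ (As G H u).card + (Xs G H u).card ≤ k)).card ≤
      (6 * D ^ 5 + 1) ^ (k + 1) := by
  refine fam5 h hk hn hD1 hD _ ?_ ?_ ?_
  · intro u hu
    rw [Finset.mem_filter, Finset.mem_compl] at hu
    exact hu.1
  · intro u hu
    rw [Finset.mem_filter] at hu
    omega
  · intro u hu v hv _ hf
    rw [Finset.mem_filter, Finset.mem_compl] at hu hv
    have h1 := Finset.card_union_add_card_inter (As G H u) (Xs G H v)
    have h2 : 0 < (As G H u ∩ Xs G H v).card := by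
      rw [Finset.card_pos]
      exact ⟨g, Finset.mem_inter.mpr ⟨Xs_subset_As hu.1 hu.2.1, hv.2.1⟩⟩
    omega

/-- violating vertices -/
def Viol (G : SimpleGraph V) [DecidableRel G.Adj] (H : Finset V) (k : ℕ) : Finset V :=
  Hᶜ.filter (fun u => ((Xs G H u).card = 0 ∧ (As G H u).card < k) ∨
    (0 < (Xs G H u).card ∧ (As G H u).card + (Xs G H u).card ≤ k))

theorem card_viol_le {k D M : ℕ} (h : FaultTolerant G 5 k) (hk : 1 ≤ k)
    (hn : k + 1 ≤ Fintype.card V) (hD1 : 1 ≤ D) :
    (Viol G (hubs G D) k).card ≤ (6 * D ^ 5 + 1) ^ (k + 1) +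
      (∑ v ∈ hubs G D \ hubs G M, G.degree v +
        (hubs G M).card * (6 * D ^ 5 + 1) ^ (k + 1)) := by
  have hD : ∀ x ∉ hubs G D, G.degree x ≤ D := fun x hx => degree_le_of_notMem_hubs hx
  set H := hubs G D with hH
  have hsub : Viol G H k ⊆ (Hᶜ.filter (fun u => (Xs G H u).card = 0 ∧ (As G H u).card < k)) ∪
      (((H \ hubs G M).biUnion (fun v => G.neighborFinset v)) ∪
        ((hubs G M).biUnion (fun g => Hᶜ.filter (fun u => g ∈ Xs G H u ∧
          (As G H u).card + (Xs G H u).card ≤ k)))) := by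
    intro u hu
    unfold Viol at hu
    rw [Finset.mem_filter] at hu
    obtain ⟨hu1, hu2 | hu2⟩ := hu
    · apply Finset.mem_union_left
      rw [Finset.mem_filter]
      exact ⟨hu1, hu2⟩
    · apply Finset.mem_union_right
      obtain ⟨g, hg⟩ := Finset.card_pos.mp hu2.1
      by_cases hgM : g ∈ hubs G M
      · apply Finset.mem_union_right
        rw [Finset.mem_biUnion]
        refine ⟨g, hgM, ?_⟩
        rw [Finset.mem_filter]
        exact ⟨hu1, hg, hu2.2⟩
      · apply Finset.mem_union_left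
        rw [Finset.mem_biUnion]
        have hg' := Finset.mem_inter.mp hg
        refine ⟨g, Finset.mem_sdiff.mpr ⟨hg'.2, hgM⟩, ?_⟩
        rw [SimpleGraph.mem_neighborFinset] at hg' ⊢
        exact hg'.1.symm
  refine (Finset.card_le_card hsub).trans ((Finset.card_union_le _ _).trans ?_)
  refine Nat.add_le_add (viol0 h hk hn hD1 hD) ((Finset.card_union_le _ _).trans ?_)
  refine Nat.add_le_add ?_ ?_
  · refine Finset.card_biUnion_le.trans ?_
    refine Finset.sum_le_sum fun v _ => ?_
    rw [SimpleGraph.card_neighborFinset_eq_degree]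
  · refine Finset.card_biUnion_le_card_mul _ _ _ ?_
    intro g _
    exact violh h hk hn hD1 hD g

theorem sum_min_ge {ι : Type*} (s : Finset ι) (f : ι → ℕ) {m k : ℕ} (hmk : m ≤ k)
    (h : m ≤ ∑ i ∈ s, f i) : m ≤ ∑ i ∈ s, min (f i) k := by
  by_cases hex : ∃ i ∈ s, k ≤ f i
  · obtain ⟨i, hi, hki⟩ := hex
    have h1 : min (f i) k ≤ ∑ i ∈ s, min (f i) k :=
      Finset.single_le_sum (f := fun i => min (f i) k) (fun _ _ => Nat.zero_le _) hi
    have h2 : min (f i) k = k := min_eq_right hki
    omega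
  · push Not at hex
    have : ∑ i ∈ s, min (f i) k = ∑ i ∈ s, f i :=
      Finset.sum_congr rfl fun i hi => min_eq_left (hex i hi).le
    rw [this]
    exact h

theorem vertex_ineq {j l k T c : ℕ} (hdeg : k ≤ j + l) (h0 : j = 0 → k ≤ T + c)
    (h1 : 1 ≤ j → k + 1 ≤ T + c + 2 * j) :
    min j k * l + k * (k + 1) ≤ k * (2 * j + l) + T + c := by
  rcases Nat.eq_zero_or_pos j with hj | hj
  · subst hj
    have h2 := h0 rfl
    simp only [Nat.zero_min, Nat.zero_mul, Nat.zero_add, Nat.mul_zero] at hdeg ⊢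
    nlinarith
  · have h2 := h1 hj
    rcases Nat.lt_or_ge k j with h3 | h3
    · rw [min_eq_right h3.le]
      nlinarith
    · rw [min_eq_left h3]
      zify at hdeg h2 h3 ⊢
      nlinarith [mul_nonneg (sub_nonneg.mpr h3) (sub_nonneg.mpr hdeg), sq_nonneg ((j : ℤ) - 1)]

theorem sum_swap (H : Finset V) (g : V → ℕ) :
    ∑ u ∈ Hᶜ, ∑ v ∈ G.neighborFinset u \ H, g v =
      ∑ v ∈ Hᶜ, g v * (G.neighborFinset v \ H).card := by
  have h1 : ∀ u : V, ∑ v ∈ G.neighborFinset u \ H, g v =
      ∑ v ∈ Hᶜ, if G.Adj u v then g v else 0 := by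
    intro u
    rw [← Finset.sum_filter]
    congr 1
    ext x
    simp only [Finset.mem_sdiff, SimpleGraph.mem_neighborFinset, Finset.mem_filter,
      Finset.mem_compl]
    tauto
  simp only [h1]
  rw [Finset.sum_comm]
  refine Finset.sum_congr rfl fun v _ => ?_
  rw [← Finset.sum_filter, Finset.sum_const, smul_eq_mul, mul_comm]
  congr 2
  ext x
  simp only [Finset.mem_sdiff, SimpleGraph.mem_neighborFinset, Finset.mem_filter,
    Finset.mem_compl]
  constructor
  · rintro ⟨h1, h2⟩; exact ⟨h2.symm, h1⟩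
  · rintro ⟨h1, h2⟩; exact ⟨h2, h1.symm⟩

theorem FaultTolerant.le_degree {d k : ℕ} (h : FaultTolerant G d k) (hk : 1 ≤ k)
    (hn : k + 1 ≤ Fintype.card V) (u : V) : k ≤ G.degree u := by
  by_contra hcon
  obtain ⟨v, hv⟩ : ∃ v, v ∉ insert u (G.neighborFinset u) := by
    by_contra h1
    push Not at h1
    have h2 : (insert u (G.neighborFinset u)).card = Fintype.card V := by
      rw [← Finset.card_univ]
      congr 1
      ext x
      simp [h1 x]
    have h3 := Finset.card_insert_le u (G.neighborFinset u)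
    rw [SimpleGraph.card_neighborFinset_eq_degree] at h3
    omega
  rw [Finset.mem_insert, not_or] at hv
  have hu : u ∉ G.neighborFinset u := by simp
  obtain ⟨ℓ, -, p, hp⟩ := h.path hk hn (S := G.neighborFinset u) (by
    rw [SimpleGraph.card_neighborFinset_eq_degree]; omega) hu hv.2
  obtain ⟨h0, h1, h2, h3⟩ := hp
  rcases Nat.eq_zero_or_pos ℓ with h4 | h4
  · subst h4
    rw [h0] at h1
    exact hv.1 h1.symm
  · apply h3 1 h4
    rw [SimpleGraph.mem_neighborFinset]
    have := h2 0 h4
    rw [h0] at this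
    exact this

/-- lower bound for `d = 5` in terms of the number of violating vertices -/
theorem lower5_viol {k : ℕ} {H : Finset V} (h : FaultTolerant G 5 k) (hk : 1 ≤ k)
    (hn : k + 1 ≤ Fintype.card V) :
    (k + 1) * Fintype.card V ≤
      2 * G.edgeFinset.card + (k + 1) * H.card + (Viol G H k).card := by
  have h1 : ∑ u ∈ Hᶜ, (min (Xs G H u).card k * (G.neighborFinset u \ H).card + k * (k + 1)) ≤
      ∑ u ∈ Hᶜ, (k * (2 * (Xs G H u).card + (G.neighborFinset u \ H).card) +
        ∑ v ∈ G.neighborFinset u \ H, min (Xs G H v).card k +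
        if u ∈ Viol G H k then k else 0) := by
    refine Finset.sum_le_sum fun u hu => ?_
    rw [Finset.mem_compl] at hu
    have hA := card_As_le (G := G) hu
    apply vertex_ineq
    · have h2 := h.le_degree hk hn u
      rw [← SimpleGraph.card_neighborFinset_eq_degree,
        ← Finset.card_inter_add_card_sdiff (G.neighborFinset u) H] at h2
      exact h2
    · intro h0
      split_ifs with hV
      · exact Nat.le_add_left _ _
      · have h3 : k ≤ (As G H u).card := by
          by_contra hcon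
          apply hV
          unfold Viol
          rw [Finset.mem_filter, Finset.mem_compl]
          exact ⟨hu, Or.inl ⟨h0, by omega⟩⟩
        exact sum_min_ge _ _ (le_refl k) (by omega)
    · intro h0
      split_ifs with hV
      · omega
      · have h3 : k + 1 ≤ (As G H u).card + (Xs G H u).card := by
          by_contra hcon
          apply hV
          unfold Viol
          rw [Finset.mem_filter, Finset.mem_compl]
          exact ⟨hu, Or.inr ⟨by omega, by omega⟩⟩
        have h4 := sum_min_ge (G.neighborFinset u \ H) (fun v => (Xs G H v).card)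
          (m := k + 1 - 2 * (Xs G H u).card) (k := k) (by omega) (by omega)
        omega
  rw [Finset.sum_add_distrib, Finset.sum_add_distrib, Finset.sum_add_distrib,
    sum_swap H (fun v => min (Xs G H v).card k), Finset.sum_const, smul_eq_mul,
    ← Finset.mul_sum] at h1
  have h2 : ∑ u ∈ Hᶜ, (if u ∈ Viol G H k then k else 0) = k * (Viol G H k).card := by
    rw [← Finset.sum_filter, Finset.sum_const, smul_eq_mul, mul_comm]
    congr 2
    ext x
    simp only [Finset.mem_filter]
    constructor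
    · rintro ⟨-, h⟩; exact h
    · intro h
      refine ⟨?_, h⟩
      unfold Viol at h
      exact (Finset.mem_filter.mp h).1
  rw [h2] at h1
  have h3 := two_mul_edges_ge (G := G) H
  have h4 : Hᶜ.card + H.card = Fintype.card V := Finset.card_compl_add_card H
  have h5 : k * ((k + 1) * Hᶜ.card) ≤ k * (2 * G.edgeFinset.card + (Viol G H k).card) := by
    have h6 : k * ∑ u ∈ Hᶜ, (2 * (Xs G H u).card + (G.neighborFinset u \ H).card) ≤
        k * (2 * G.edgeFinset.card) := Nat.mul_le_mul_left _ h3
    have h7 : Hᶜ.card * (k * (k + 1)) = k * ((k + 1) * Hᶜ.card) := by ring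
    have h8 : k * (2 * G.edgeFinset.card + (Viol G H k).card) =
        k * (2 * G.edgeFinset.card) + k * (Viol G H k).card := by ring
    rw [h8, ← h7]
    omega
  have h6 := Nat.le_of_mul_le_mul_left h5 (by omega)
  rw [← h4, Nat.mul_add]
  omega

end d5

end Pool.Agent.Helper68
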