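import Pool.Agent.Helper68.TemporalDefs

namespace Pool.Agent.Helper68

variable {V : Type} {G : ℕ → SimpleGraph V}

/-- There is a temporal walk from `v` to `u` with time steps in `(s, t]` whose vertex set contains
`S`. -/
def Tour (G : ℕ → SimpleGraph V) (s : ℕ) (v : V) (t : ℕ) (u : V) (S : Set V) : Prop :=
  ∃ W : TemporalWalk G, W.vert 0 = v ∧ W.vert W.length = u ∧ W.Within s t ∧
    ∀ x ∈ S, ∃ j ≤ W.length, W.vert j = x

theorem Tour.arrives {s t : ℕ} {v u : V} {S : Set V} (h : Tour G s v t u S) :
    Arrives G s v t u := by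
  obtain ⟨W, h0, h1, h2, -⟩ := h
  exact ⟨W, h0, h1, h2⟩

theorem Tour.mono_set {s t : ℕ} {v u : V} {S S' : Set V} (h : Tour G s v t u S)
    (hS : S' ⊆ S) : Tour G s v t u S' := by
  obtain ⟨W, h0, h1, h2, h3⟩ := h
  exact ⟨W, h0, h1, h2, fun x hx => h3 x (hS hx)⟩

theorem Tour.mono {s t s' t' : ℕ} {v u : V} {S : Set V} (h : Tour G s v t u S)
    (hs : s' ≤ s) (ht : t ≤ t') : Tour G s' v t' u S := by
  obtain ⟨W, h0, h1, h2, h3⟩ := h
  refine ⟨W, h0, h1, fun j hj => ?_, h3⟩
  have := h2 j hj
  omega

theorem Arrives.mono {s t s' t' : ℕ} {v u : V} (h : Arrives G s v t u)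
    (hs : s' ≤ s) (ht : t ≤ t') : Arrives G s' v t' u := by
  obtain ⟨W, h0, h1, h2⟩ := h
  refine ⟨W, h0, h1, fun j hj => ?_⟩
  have := h2 j hj
  omega

theorem Tour.refl (s t : ℕ) (v : V) : Tour G s v t v {v} := by
  refine ⟨⟨0, fun _ => v, fun j => j, by simp, by simp⟩, rfl, rfl, ?_, ?_⟩
  · intro j hj
    exact absurd hj (Nat.not_lt_zero j)
  · intro x hx
    exact ⟨0, le_refl _, (Set.mem_singleton_iff.mp hx).symm⟩

theorem Tour.edge {s r t : ℕ} {v u : V} (hs : s < r) (hr : r ≤ t) (h : (G r).Adj v u) :
    Tour G s v t u {v, u} := by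
  refine ⟨⟨1, fun j => if j = 0 then v else u, fun _ => r, ?_, ?_⟩, ?_, ?_, ?_, ?_⟩
  · intro j hj
    have : j = 0 := by omega
    subst this
    simpa using h
  · intro j hj
    omega
  · simp
  · simp
  · intro j hj
    exact ⟨hs, hr⟩
  · intro x hx
    rcases hx with hx | hx
    · exact ⟨0, Nat.zero_le _, by simp [hx]⟩
    · exact ⟨1, le_refl _, by simp [Set.mem_singleton_iff.mp hx]⟩

theorem Tour.trans {s t r : ℕ} {v u x : V} {S S' : Set V} (h : Tour G s v t u S)
    (h' : Tour G t u r x S') (hst : s ≤ t) (htr : t ≤ r) : Tour G s v r x (S ∪ S') := by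
  obtain ⟨W, h0, h1, h2, h3⟩ := h
  obtain ⟨W', h0', h1', h2', h3'⟩ := h'
  refine ⟨⟨W.length + W'.length, fun j => if j ≤ W.length then W.vert j else W'.vert (j - W.length),
    fun j => if j < W.length then W.time j else W'.time (j - W.length), ?_, ?_⟩, ?_, ?_, ?_, ?_⟩
  · intro j hj
    by_cases h4 : j < W.length
    · have h5 : j ≤ W.length := by omega
      have h6 : j + 1 ≤ W.length := by omega
      simp only [h4, h5, h6, if_true]
      exact W.adj j h4
    · by_cases h5 : j = W.length
      · subst h5
        have h6 : ¬ (W.length + 1 ≤ W.length) := by omega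
        simp only [lt_irrefl, if_false, le_refl, if_true, Nat.sub_self, h6]
        have h7 : W.length + 1 - W.length = 0 + 1 := by omega
        rw [h7, h1, ← h0']
        exact W'.adj 0 (by omega)
      · have h6 : ¬ (j ≤ W.length) := by omega
        have h7 : ¬ (j + 1 ≤ W.length) := by omega
        simp only [h4, h6, h7, if_false]
        have h8 : j + 1 - W.length = (j - W.length) + 1 := by omega
        rw [h8]
        exact W'.adj _ (by omega)
  · intro j hj
    by_cases h4 : j + 1 < W.length
    · have h5 : j < W.length := by omega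
      simp only [h4, h5, if_true]
      exact W.time_lt j h4
    · by_cases h5 : j < W.length
      · simp only [h4, h5, if_true, if_false]
        have h6 : j + 1 - W.length = 0 := by omega
        rw [h6]
        have h7 := h2 j h5
        have h8 := h2' 0 (by omega)
        omega
      · simp only [h4, h5, if_false]
        have h8 : j + 1 - W.length = (j - W.length) + 1 := by omega
        rw [h8]
        exact W'.time_lt _ (by omega)
  · simp only [Nat.zero_le, if_true]
    exact h0
  · by_cases h4 : W'.length = 0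
    · simp only [h4, Nat.add_zero, le_refl, if_true]
      rw [h1, ← h1', h4, h0']
    · have h5 : ¬ (W.length + W'.length ≤ W.length) := by omega
      simp only [h5, if_false]
      have h6 : W.length + W'.length - W.length = W'.length := by omega
      rw [h6, h1']
  · intro j hj
    change j < W.length + W'.length at hj
    by_cases h4 : j < W.length
    · simp only [h4, if_true]
      have := h2 j h4
      omega
    · simp only [h4, if_false]
      have := h2' (j - W.length) (by omega)
      omega
  · intro y hy
    rcases hy with hy | hy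
    · obtain ⟨j, hj, hj'⟩ := h3 y hy
      refine ⟨j, by change j ≤ W.length + W'.length; omega, ?_⟩
      simp only [hj, if_true]
      exact hj'
    · obtain ⟨j, hj, hj'⟩ := h3' y hy
      refine ⟨W.length + j, by change W.length + j ≤ W.length + W'.length; omega, ?_⟩
      by_cases h4 : j = 0
      · subst h4
        simp only [Nat.add_zero, le_refl, if_true]
        rw [h1, ← h0', hj']
      · have h5 : ¬ (W.length + j ≤ W.length) := by omega
        simp only [h5, if_false]
        have h6 : W.length + j - W.length = j := by omega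
        rw [h6, hj']

theorem Arrives.tour {s t : ℕ} {v u : V} (h : Arrives G s v t u) : Tour G s v t u ∅ := by
  obtain ⟨W, h0, h1, h2⟩ := h
  exact ⟨W, h0, h1, h2, fun x hx => absurd hx (Set.notMem_empty x)⟩

theorem Arrives.refl (s t : ℕ) (v : V) : Arrives G s v t v := (Tour.refl s t v).arrives

theorem Arrives.edge {s r t : ℕ} {v u : V} (hs : s < r) (hr : r ≤ t) (h : (G r).Adj v u) :
    Arrives G s v t u := (Tour.edge hs hr h).arrives

theorem Arrives.trans {s t r : ℕ} {v u x : V} (h : Arrives G s v t u)
    (h' : Arrives G t u r x) (hst : s ≤ t) (htr : t ≤ r) : Arrives G s v r x :=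
  (h.tour.trans h'.tour hst htr).arrives

/-- The ball lemma: reachable sets are contained in any family of sets closed under the
dynamics. -/
theorem Arrives.mem_ball {s D : ℕ} {v : V} {B : ℕ → Set V} (h0 : v ∈ B 0)
    (hmono : ∀ d, d < D → B d ⊆ B (d + 1))
    (hstep : ∀ d, d < D → ∀ x ∈ B d, ∀ y, (G (s + d + 1)).Adj x y → y ∈ B (d + 1))
    {u : V} {d : ℕ} (hd : d ≤ D) (h : Arrives G s v (s + d) u) : u ∈ B d := by
  have mono : ∀ a b, a ≤ b → b ≤ D → B a ⊆ B b := by
    intro a b hab
    induction b with
    | zero =>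
      intro _
      have : a = 0 := by omega
      subst this
      exact subset_refl _
    | succ b ih =>
      intro hb
      rcases Nat.lt_or_ge b a with h1 | h1
      · have : a = b + 1 := by omega
        subst this
        exact subset_refl _
      · exact (ih h1 (by omega)).trans (hmono b (by omega))
  obtain ⟨W, hW0, hW1, hW2⟩ := h
  have key : ∀ j, j < W.length → W.vert (j + 1) ∈ B (W.time j - s) := by
    intro j
    induction j with
    | zero =>
      intro hj
      have h1 := hW2 0 hj
      have h2 := W.adj 0 hj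
      have h3 : s + (W.time 0 - s - 1) + 1 = W.time 0 := by omega
      have h4 := hstep (W.time 0 - s - 1) (by omega) (W.vert 0)
        (mono 0 _ (by omega) (by omega) (by rw [hW0]; exact h0)) (W.vert 1) (by rw [h3]; exact h2)
      have h5 : W.time 0 - s - 1 + 1 = W.time 0 - s := by omega
      rw [h5] at h4
      exact h4
    | succ j ih =>
      intro hj
      have h0' := ih (by omega)
      have h1 := hW2 (j + 1) hj
      have h1' := hW2 j (by omega)
      have h2 := W.adj (j + 1) hj
      have h2' := W.time_lt j hj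
      have h3 : s + (W.time (j + 1) - s - 1) + 1 = W.time (j + 1) := by omega
      have h4 := hstep (W.time (j + 1) - s - 1) (by omega) (W.vert (j + 1))
        (mono _ _ (by omega) (by omega) h0') (W.vert (j + 1 + 1)) (by rw [h3]; exact h2)
      have h5 : W.time (j + 1) - s - 1 + 1 = W.time (j + 1) - s := by omega
      rw [h5] at h4
      exact h4
  rcases Nat.eq_zero_or_pos W.length with h1 | h1
  · rw [h1] at hW1
    rw [← hW1, hW0]
    exact mono 0 d (by omega) hd h0
  · have h2 := key (W.length - 1) (by omega)
    have h3 : W.length - 1 + 1 = W.length := by omega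
    rw [h3, hW1] at h2
    have h4 := hW2 (W.length - 1) (by omega)
    exact mono _ _ (by omega) hd h2

/-- Lipschitz lower bound for arrival times. -/
theorem Arrives.lipschitz {s t : ℕ} {v u : V} (f : V → ℕ) (h0 : f v = 0)
    (hf : ∀ r x y, (G r).Adj x y → f y ≤ f x + 1) (h : Arrives G s v t u) (hst : s ≤ t) :
    f u ≤ t - s := by
  have h1 : Arrives G s v (s + (t - s)) u := by
    have : s + (t - s) = t := by omega
    rw [this]; exact h
  have := Arrives.mem_ball (G := G) (s := s) (D := t - s) (v := v)
    (B := fun d => {x | f x ≤ d}) (by simp [h0]) (by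
      intro d _ x hx
      simp only [Set.mem_setOf_eq] at hx ⊢
      omega) (by
      intro d _ x hx y hxy
      have := hf _ x y hxy
      simp only [Set.mem_setOf_eq] at hx ⊢
      omega) (le_refl _) h1
  simpa using this

theorem Arrives.eq_of_le {s t : ℕ} {v u : V} (h : Arrives G s v t u) (hts : t ≤ s) : u = v := by
  obtain ⟨W, h0, h1, h2⟩ := h
  rcases Nat.eq_zero_or_pos W.length with h3 | h3
  · rw [h3, h0] at h1
    exact h1.symm
  · have := h2 0 h3
    omega

theorem Arrives.one_step {s : ℕ} {v u : V} (h : Arrives G s v (s + 1) u) :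
    u = v ∨ (G (s + 1)).Adj v u := by
  have := Arrives.mem_ball (G := G) (s := s) (D := 1) (v := v)
    (B := fun d => if d = 0 then {v} else {x | x = v ∨ (G (s + 1)).Adj v x}) (by simp) (by
      intro d hd x hx
      have : d = 0 := by omega
      subst this
      simp only [if_true, Set.mem_singleton_iff] at hx
      simp [hx]) (by
      intro d hd x hx y hxy
      have : d = 0 := by omega
      subst this
      simp only [if_true, Set.mem_singleton_iff] at hx
      subst hx
      simp only [Nat.add_zero] at hxy
      simp [hxy]) (le_refl _) h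
  simpa using this

/-! ### Determinism of greedy exploration -/

theorem GreedyStep.unique {pri : V → ℕ} (hpri : Function.Injective pri)
    {σ σ₁ σ₂ : ExplorerState V} (h₁ : GreedyStep G pri σ σ₁) (h₂ : GreedyStep G pri σ σ₂) :
    σ₁ = σ₂ := by
  obtain ⟨⟨a1, a2, a3⟩, a4, a5⟩ := h₁
  obtain ⟨⟨b1, b2, b3⟩, b4, b5⟩ := h₂
  have ht : σ₁.time = σ₂.time := le_antisymm (a3 _ b1 _ b2) (b3 _ a1 _ a2)
  have hp : σ₁.pos = σ₂.pos := by
    apply hpri
    apply le_antisymm
    · apply a4
      refine ⟨b1, by rw [ht]; exact b2, a3⟩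
    · apply b4
      refine ⟨a1, by rw [← ht]; exact a2, b3⟩
  cases σ₁
  cases σ₂
  simp only at ht hp a5 b5
  subst ht hp a5 b5
  rfl

theorem GreedyReached.pos_mem {pri : V → ℕ} {v₀ : V} {σ : ExplorerState V}
    (h : GreedyReached G pri v₀ σ) : σ.pos ∈ σ.visited := by
  induction h with
  | refl => simp
  | tail _ h _ =>
    obtain ⟨-, -, h3⟩ := h
    rw [h3]
    exact Set.mem_insert _ _

theorem GreedyStep.time_lt {pri : V → ℕ} {σ σ' : ExplorerState V}
    (h : GreedyStep G pri σ σ') (hpos : σ.pos ∈ σ.visited) : σ.time < σ'.time := by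
  obtain ⟨⟨a1, a2, -⟩, -, -⟩ := h
  by_contra hcon
  have := a2.eq_of_le (by omega)
  rw [this] at a1
  exact a1 hpos

theorem time_le_of_steps {pri : V → ℕ} {σ σ' : ExplorerState V}
    (h : Relation.ReflTransGen (GreedyStep G pri) σ σ') (hpos : σ.pos ∈ σ.visited) :
    σ.time ≤ σ'.time ∧ σ'.pos ∈ σ'.visited := by
  induction h with
  | refl => exact ⟨le_refl _, hpos⟩
  | tail _ h ih =>
    have h1 := h.time_lt ih.2
    refine ⟨by omega, ?_⟩
    obtain ⟨-, -, h3⟩ := h
    rw [h3]
    exact Set.mem_insert _ _

/-- Every reached state gives a lower bound for the greedy exploration time. -/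
theorem le_greedyTime_of_reached {pri : V → ℕ} (hpri : Function.Injective pri) {v₀ : V}
    {σ : ExplorerState V} (h : GreedyReached G pri v₀ σ) :
    (σ.time : ℕ∞) ≤ greedyTime G pri v₀ := by
  refine le_iInf fun σ' => le_iInf fun hσ' => ?_
  obtain ⟨h1, h2⟩ := hσ'
  have htot := Relation.ReflTransGen.total_of_right_unique
    (r := GreedyStep G pri) (fun a b c hab hac => hab.unique hpri hac) h h1
  rcases htot with h3 | h3
  · have := (time_le_of_steps h3 h.pos_mem).1
    exact_mod_cast this
  · have h4 : σ' = σ := by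
      induction h3 using Relation.ReflTransGen.head_induction_on with
      | refl => rfl
      | head h5 _ _ =>
        exfalso
        obtain ⟨⟨a1, -⟩, -⟩ := h5
        rw [h2] at a1
        exact a1 (Set.mem_univ _)
    rw [h4]

theorem texp_le_of_tour {s t : ℕ} {v u : V} (h : Tour G s v t u Set.univ) :
    texp G ≤ (t : ℕ∞) := by
  obtain ⟨W, -, -, h2, h3⟩ := h
  refine iInf_le_of_le t (iInf_le_of_le ⟨W, ?_, ?_⟩ le_rfl)
  · intro j hj
    have := h2 j hj
    omega
  · intro x
    exact h3 x (Set.mem_univ x)

/-! ### Transport along a bijection -/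

section Transport

variable {V' : Type}

/-- transport of a temporal graph along a bijection -/
def transportG (e : V ≃ V') (G : ℕ → SimpleGraph V) : ℕ → SimpleGraph V' :=
  fun t => (G t).comap e.symm

theorem transportG_adj (e : V ≃ V') (G : ℕ → SimpleGraph V) (t : ℕ) (x y : V') :
    (transportG e G t).Adj x y ↔ (G t).Adj (e.symm x) (e.symm y) := Iff.rfl

theorem Tour.transport (e : V ≃ V') {s t : ℕ} {v u : V} {S : Set V} (h : Tour G s v t u S) :
    Tour (transportG e G) s (e v) t (e u) (e '' S) := by
  obtain ⟨W, h0, h1, h2, h3⟩ := h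
  refine ⟨⟨W.length, fun j => e (W.vert j), W.time, ?_, W.time_lt⟩, ?_, ?_, ?_, ?_⟩
  · intro j hj
    rw [transportG_adj]
    simpa using W.adj j hj
  · simp only [h0]
  · simp only [h1]
  · exact h2
  · rintro x ⟨y, hy, rfl⟩
    obtain ⟨j, hj, hj'⟩ := h3 y hy
    exact ⟨j, hj, by simp only [hj']⟩

theorem Arrives.transport_iff (e : V ≃ V') {s t : ℕ} {v u : V'} :
    Arrives (transportG e G) s v t u ↔ Arrives G s (e.symm v) t (e.symm u) := by
  constructor
  · rintro ⟨W, h0, h1, h2⟩
    refine ⟨⟨W.length, fun j => e.symm (W.vert j), W.time, ?_, W.time_lt⟩, ?_, ?_, h2⟩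
    · intro j hj
      exact W.adj j hj
    · simp only [h0]
    · simp only [h1]
  · intro h
    have := (h.tour.transport e).arrives
    simpa using this

/-- transport of a state -/
def transportS (e : V ≃ V') (σ : ExplorerState V) : ExplorerState V' :=
  ⟨e '' σ.visited, e σ.pos, σ.time⟩

theorem IsGreedyTarget.transport_iff (e : V ≃ V') {σ : ExplorerState V} {u : V'} {t : ℕ} :
    IsGreedyTarget (transportG e G) (transportS e σ) u t ↔ IsGreedyTarget G σ (e.symm u) t := by
  have hmem : ∀ x : V', x ∉ (transportS e σ).visited ↔ e.symm x ∉ σ.visited := by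
    intro x
    simp only [transportS, Set.mem_image, not_exists, not_and]
    constructor
    · intro h1 h2
      exact h1 _ h2 (by simp)
    · rintro h1 y hy rfl
      apply h1
      simpa using hy
  have harr : ∀ (x : V') (t' : ℕ), Arrives (transportG e G) (transportS e σ).time
      (transportS e σ).pos t' x ↔ Arrives G σ.time σ.pos t' (e.symm x) := by
    intro x t'
    rw [Arrives.transport_iff]
    simp [transportS]
  unfold IsGreedyTarget
  rw [hmem, harr]
  constructor
  · rintro ⟨h1, h2, h3⟩
    refine ⟨h1, h2, ?_⟩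
    intro u' hu' t' ht'
    refine h3 (e u') ?_ t' ?_
    · rw [hmem]; simpa using hu'
    · rw [harr]; simpa using ht'
  · rintro ⟨h1, h2, h3⟩
    refine ⟨h1, h2, ?_⟩
    intro u' hu' t' ht'
    exact h3 (e.symm u') ((hmem _).1 hu') t' ((harr _ _).1 ht')

theorem GreedyStep.transport (e : V ≃ V') {pri : V → ℕ} {σ σ' : ExplorerState V}
    (h : GreedyStep G pri σ σ') :
    GreedyStep (transportG e G) (fun x => pri (e.symm x)) (transportS e σ) (transportS e σ') := by
  obtain ⟨h1, h2, h3⟩ := h
  refine ⟨?_, ?_, ?_⟩
  · rw [IsGreedyTarget.transport_iff]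
    simpa [transportS] using h1
  · intro u' hu'
    rw [IsGreedyTarget.transport_iff] at hu'
    have := h2 _ hu'
    simpa [transportS] using this
  · simp only [transportS, h3, Set.image_insert_eq]

theorem GreedyReached.transport (e : V ≃ V') {pri : V → ℕ} {v₀ : V} {σ : ExplorerState V}
    (h : GreedyReached G pri v₀ σ) :
    GreedyReached (transportG e G) (fun x => pri (e.symm x)) (e v₀) (transportS e σ) := by
  have h0 : transportS e (⟨{v₀}, v₀, 0⟩ : ExplorerState V) = ⟨{e v₀}, e v₀, 0⟩ := by
    simp [transportS]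
  unfold GreedyReached
  rw [← h0]
  induction h with
  | refl => exact Relation.ReflTransGen.refl
  | tail _ h ih => exact ih.tail (h.transport e)

end Transport

end Pool.Agent.Helper68
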