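import Mathlib

/-!
# Temporal graphs, greedy exploration and random spanning tree models

Definitions used in the statement of the hand-in for MP_041baa_co.
-/

namespace Pool.Agent.Helper68

open MeasureTheory

/-- A temporal walk `(e_1,t_1), ..., (e_l,t_l)` in the temporal graph `G = (G 1, G 2, ...)`
(the value `G 0` is never used): the `j`-th edge (counted from `0`) is
`{vert j, vert (j+1)}`, it is used at time step `time j` and it is an edge of the snapshot
`G (time j)`; the time steps are strictly increasing. -/
structure TemporalWalk {V : Type} (G : ℕ → SimpleGraph V) where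
  /-- the number of edges of the walk -/
  length : ℕ
  /-- the vertices `vert 0, ..., vert length` of the walk -/
  vert : ℕ → V
  /-- the time steps `time 0 < ... < time (length - 1)` of the edges -/
  time : ℕ → ℕ
  adj : ∀ j, j < length → (G (time j)).Adj (vert j) (vert (j + 1))
  time_lt : ∀ j, j + 1 < length → time j < time (j + 1)

/-- The walk uses only time steps in `{s+1, ..., t}`. -/
def TemporalWalk.Within {V : Type} {G : ℕ → SimpleGraph V} (W : TemporalWalk G) (s t : ℕ) :
    Prop :=
  ∀ j, j < W.length → s < W.time j ∧ W.time j ≤ t

/-- There is a temporal walk from `v` to `u` that uses only time steps in `{s+1, ..., t}`. -/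
def Arrives {V : Type} (G : ℕ → SimpleGraph V) (s : ℕ) (v : V) (t : ℕ) (u : V) : Prop :=
  ∃ W : TemporalWalk G, W.vert 0 = v ∧ W.vert W.length = u ∧ W.Within s t

/-- `texp G` is the least `t` such that some temporal walk, starting at some vertex and using
only `G 1, ..., G t`, visits every vertex (`⊤` if there is no such `t`). -/
noncomputable def texp {V : Type} (G : ℕ → SimpleGraph V) : ℕ∞ :=
  ⨅ (t : ℕ) (_ : ∃ W : TemporalWalk G, W.Within 0 t ∧ ∀ x : V, ∃ j ≤ W.length, W.vert j = x),
    (t : ℕ∞)

/-- A state of the explorer: the set of visited vertices, the current position and the current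
time. -/
structure ExplorerState (V : Type) where
  /-- the vertices visited so far -/
  visited : Set V
  /-- the current position -/
  pos : V
  /-- the current time -/
  time : ℕ

/-- For the explorer in state `σ`, `u` is an unvisited vertex minimising the arrival time `a(u)`
(the least `t` such that a temporal walk from the current position to `u` uses only time steps
in `{σ.time + 1, ..., t}`), and `t = a(u)`. -/
def IsGreedyTarget {V : Type} (G : ℕ → SimpleGraph V) (σ : ExplorerState V) (u : V) (t : ℕ) :
    Prop :=
  u ∉ σ.visited ∧ Arrives G σ.time σ.pos t u ∧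
    ∀ u' : V, u' ∉ σ.visited → ∀ t' : ℕ, Arrives G σ.time σ.pos t' u' → t ≤ t'

/-- One step of greedy exploration in which ties are broken by the preference order `pri`
(among the unvisited vertices of least arrival time the one with the smallest value of `pri`
is chosen). -/
def GreedyStep {V : Type} (G : ℕ → SimpleGraph V) (pri : V → ℕ) (σ σ' : ExplorerState V) :
    Prop :=
  IsGreedyTarget G σ σ'.pos σ'.time ∧
    (∀ u' : V, IsGreedyTarget G σ u' σ'.time → pri σ'.pos ≤ pri u') ∧
    σ'.visited = insert σ'.pos σ.visited

/-- The states reached by greedy exploration started at `v₀` at time `0`. -/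
def GreedyReached {V : Type} (G : ℕ → SimpleGraph V) (pri : V → ℕ) (v₀ : V)
    (σ : ExplorerState V) : Prop :=
  Relation.ReflTransGen (GreedyStep G pri) ⟨{v₀}, v₀, 0⟩ σ

/-- The time at which greedy exploration, started at `v₀` and with ties broken by the
preference order `pri`, has visited every vertex (`⊤` if this never happens). -/
noncomputable def greedyTime {V : Type} (G : ℕ → SimpleGraph V) (pri : V → ℕ) (v₀ : V) : ℕ∞ :=
  ⨅ (σ : ExplorerState V) (_ : GreedyReached G pri v₀ σ ∧ σ.visited = Set.univ), (σ.time : ℕ∞)

/-- The set of graphs on `Fin n` is finite; it carries the discrete sigma-algebra. -/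
instance instMeasurableSpaceSimpleGraphFin (n : ℕ) : MeasurableSpace (SimpleGraph (Fin n)) := ⊤

/-- A random spanning tree model on `[n]`: a set of trees with vertex set `Fin n` and a
probability distribution on it. -/
structure RSTModel (n : ℕ) where
  /-- the set of trees -/
  trees : Set (SimpleGraph (Fin n))
  isTree : ∀ T ∈ trees, T.IsTree
  /-- the probability distribution -/
  law : PMF (SimpleGraph (Fin n))
  law_mem : ∀ T ∈ law.support, T ∈ trees

/-- The law of the random temporal graph `(G_i)_i` with independent snapshots sampled from the
model. -/
noncomputable def RSTModel.seqLaw {n : ℕ} (M : RSTModel n) :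
    Measure (ℕ → SimpleGraph (Fin n)) :=
  Measure.infinitePi (fun _ : ℕ => M.law.toMeasure)

end Pool.Agent.Helper68
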